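import Pool.Agent.Lib.MP_7c0edd_co.helper21.Gadget

section
/-!
# Fixed codimension
-/
namespace Pool.Agent.Lib.MP_7c0edd_co.H21

open Finset

/-- `2^τ * ((l + τ) choose τ)`: the number of `l`-subcubes of a `(l + τ)`-cube. -/
noncomputable def KK (τ l : ℕ) : ℝ := 2 ^ τ * ((l + τ).choose τ : ℝ)

lemma KK_pos (τ l : ℕ) : 0 < KK τ l := by
  unfold KK
  have : 0 < (l + τ).choose τ := Nat.choose_pos (by omega)
  have : (0 : ℝ) < ((l + τ).choose τ : ℝ) := by exact_mod_cast this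
  positivity

lemma KK_mono (τ : ℕ) {l l' : ℕ} (h : l ≤ l') : KK τ l ≤ KK τ l' := by
  unfold KK
  have : (l + τ).choose τ ≤ (l' + τ).choose τ := Nat.choose_le_choose _ (by omega)
  have : ((l + τ).choose τ : ℝ) ≤ ((l' + τ).choose τ : ℝ) := by exact_mod_cast this
  gcongr

/-- density `D` times the counting bound -/
def Rat (τ l : ℕ) (D : ℝ) : Prop := Good l (l + τ) (D / KK τ l)

lemma Rat.mono {τ l : ℕ} {D D' : ℝ} (h : Rat τ l D) (hD : D ≤ D') : Rat τ l D' :=
  good_mono h (div_le_div_of_nonneg_right hD (KK_pos τ l).le)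

lemma rat_trivial {τ l : ℕ} {D : ℝ} (hD : KK τ l ≤ D) : Rat τ l D := by
  refine good_mono (good_one (by omega)) ?_
  rw [le_div_iff₀ (KK_pos τ l), one_mul]
  exact hD

lemma choose_upper (l τ : ℕ) : ((l + τ).choose τ : ℝ) * (τ.factorial : ℝ) ≤ ((l : ℝ) + τ) ^ τ := by
  have h1 : (l + 1).ascFactorial τ ≤ (l + τ) ^ τ := Nat.ascFactorial_le_pow_add l τ
  rw [Nat.ascFactorial_eq_factorial_mul_choose] at h1
  have h2 : ((τ.factorial * (l + τ).choose τ : ℕ) : ℝ) ≤ (((l + τ) ^ τ : ℕ) : ℝ) := by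
    exact_mod_cast h1
  push_cast at h2
  linarith

lemma choose_lower (l τ : ℕ) : ((l : ℝ) + 1) ^ τ ≤ ((l + τ).choose τ : ℝ) * (τ.factorial : ℝ) := by
  have h1 : (l + 1) ^ τ ≤ (l + 1).ascFactorial τ := Nat.pow_succ_le_ascFactorial (l + 1) τ
  rw [Nat.ascFactorial_eq_factorial_mul_choose] at h1
  have h2 : (((l + 1) ^ τ : ℕ) : ℝ) ≤ ((τ.factorial * (l + τ).choose τ : ℕ) : ℝ) := by
    exact_mod_cast h1
  push_cast at h2
  linarith

lemma choose_lower' (u t : ℕ) : ((u + 1 - t : ℕ) : ℝ) ^ t ≤ (u.choose t : ℝ) * (t.factorial : ℝ) := by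
  have h1 : (u + 1 - t) ^ t ≤ u.descFactorial t := Nat.pow_sub_le_descFactorial u t
  rw [Nat.descFactorial_eq_factorial_mul_choose] at h1
  have h2 : (((u + 1 - t) ^ t : ℕ) : ℝ) ≤ ((t.factorial * u.choose t : ℕ) : ℝ) := by
    exact_mod_cast h1
  rw [Nat.cast_pow] at h2
  push_cast at h2 ⊢
  linarith

lemma one_add_pow_le (t : ℕ) : (1 + 3 / ((t : ℝ) + 1)) ^ t ≤ 21 := by
  have h1 : 1 + 3 / ((t : ℝ) + 1) ≤ Real.exp (3 / ((t : ℝ) + 1)) := by
    have := Real.add_one_le_exp (3 / ((t : ℝ) + 1))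
    linarith
  have h2 : (1 + 3 / ((t : ℝ) + 1)) ^ t ≤ Real.exp (3 / ((t : ℝ) + 1)) ^ t := by gcongr
  have h3 : Real.exp (3 / ((t : ℝ) + 1)) ^ t = Real.exp (t * (3 / ((t : ℝ) + 1))) := by
    rw [Real.exp_nat_mul]
  have h4 : (t : ℝ) * (3 / ((t : ℝ) + 1)) ≤ 3 := by
    rw [mul_div_assoc', div_le_iff₀ (by positivity)]
    linarith
  have h5 : Real.exp (t * (3 / ((t : ℝ) + 1))) ≤ Real.exp 3 := Real.exp_le_exp.mpr h4
  have h6 : Real.exp 3 = Real.exp 1 ^ 3 := by rw [← Real.exp_nat_mul]; norm_num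
  have h7 := Real.exp_one_lt_d9
  have h8 : Real.exp 1 ^ 3 ≤ 2.7182818286 ^ 3 := by
    have := Real.exp_pos 1
    gcongr
  have h9 : (2.7182818286 : ℝ) ^ 3 ≤ 21 := by norm_num
  linarith

/-- the parameter of the recursion -/
noncomputable def aa (t : ℕ) : ℝ := Real.log 4 + (t + 1) * Real.log (t + 4)

lemma aa_pos (t : ℕ) : 1 ≤ aa t := by
  unfold aa
  have h1 : 1 ≤ Real.log 4 := by
    rw [Real.le_log_iff_exp_le (by norm_num)]
    linarith [Real.exp_one_lt_d9]
  have h2 : 0 ≤ Real.log ((t : ℝ) + 4) := Real.log_nonneg (by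
    have : (0 : ℝ) ≤ t := by positivity
    linarith)
  have : 0 ≤ ((t : ℝ) + 1) * Real.log (t + 4) := by positivity
  linarith

lemma exp_neg_aa (t : ℕ) : Real.exp (-(aa t)) = 1 / (4 * ((t : ℝ) + 4) ^ (t + 1)) := by
  unfold aa
  have h4 : (0 : ℝ) < (t : ℝ) + 4 := by positivity
  rw [Real.exp_neg, Real.exp_add, Real.exp_log (by norm_num)]
  have : Real.exp (((t : ℝ) + 1) * Real.log (t + 4)) = ((t : ℝ) + 4) ^ (t + 1) := by
    rw [show ((t : ℝ) + 1) * Real.log (t + 4) = ((t + 1 : ℕ) : ℝ) * Real.log (t + 4) by push_cast; ring,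
      Real.exp_nat_mul, Real.exp_log h4]
  rw [this, one_div]

/-- One step of the recursion. -/
theorem rat_step (t : ℕ) : ∃ l₁ : ℕ, ∀ l, l₁ ≤ l → ∀ D : ℝ, 0 ≤ D → Rat (t + 1) (l / (t + 3)) D →
    Rat (t + 1) l (504 * aa t + D / 2) := by
  set N₀ : ℕ := ⌈16 * aa t * ((t : ℝ) + 4) ^ (t + 1)⌉₊ with hN₀
  refine ⟨(t + 3) * (N₀ + 2 * t + 10), fun l hl D hD hR => ?_⟩
  set q := l / (t + 3) with hq
  have hqN : N₀ + 2 * t + 10 ≤ q := by
    rw [hq, Nat.le_div_iff_mul_le (by omega), mul_comm]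
    exact hl
  have hl1 : (t + 3) * q ≤ l := Nat.mul_div_le l (t + 3)
  have hl2 : l < (t + 3) * (q + 1) := by
    have := Nat.lt_mul_div_succ l (show 0 < t + 3 by omega)
    exact this
  have ha := aa_pos t
  have hapos : 0 < aa t := by linarith
  have ht4 : (1 : ℝ) ≤ ((t : ℝ) + 4) ^ (t + 1) := one_le_pow₀ (by
    have : (0 : ℝ) ≤ t := by positivity
    linarith)
  have hqa : 16 * aa t * ((t : ℝ) + 4) ^ (t + 1) ≤ q := by
    have h1 := Nat.le_ceil (16 * aa t * ((t : ℝ) + 4) ^ (t + 1))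
    have h2 : ((N₀ : ℕ) : ℝ) ≤ q := by
      have : N₀ ≤ q := by omega
      exact_mod_cast this
    linarith
  have hq0 : (0 : ℝ) < q := by
    have : 0 < q := by omega
    exact_mod_cast this
  -- conditions in natural numbers
  have h3q : 3 * q + t * q ≤ l := by nlinarith
  have htq : 0 ≤ t * q := Nat.zero_le _
  obtain ⟨u, hu⟩ : ∃ u, u = l - 1 - 2 * q := ⟨_, rfl⟩
  have hul : u + q + 1 + q = l := by omega
  have hut : t + 9 ≤ u := by omega
  have hc1 : l + (t + 1) ≤ (t + 4) * (q + 1) := by nlinarith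
  have hc2 : l + (t + 1) ≤ 2 * (t + 3) * q := by nlinarith
  have hc3 : (t + 1) * (l + (t + 1)) ≤ (t + 4) * (u + 1 - t) := by
    have h1 : u + 1 - t + (2 * q + t) = l := by omega
    have h2 : (2 * t + 10) * (t + 1) ≤ q * (t + 1) := Nat.mul_le_mul_right _ (by omega)
    nlinarith
  -- the order of the group
  set K' : ℝ := 2 ^ t * u.choose t with hK'
  have hK'1 : 1 ≤ K' := by
    have h1 : (1 : ℝ) ≤ 2 ^ t := one_le_pow₀ (by norm_num)
    have h2 : (1 : ℝ) ≤ (u.choose t : ℝ) := by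
      exact_mod_cast Nat.choose_pos (by omega)
    nlinarith
  have hxa : 1 ≤ q * K' / aa t := by
    rw [le_div_iff₀ hapos, one_mul]
    have : aa t ≤ q := by nlinarith
    nlinarith
  set M := ⌊q * K' / aa t⌋₊ with hM
  have hMle : (M : ℝ) ≤ q * K' / aa t := Nat.floor_le (by positivity)
  have hM1 : 1 ≤ M := Nat.one_le_floor_iff _ |>.mpr hxa
  have hMge : q * K' / aa t ≤ 2 * M := by
    have h1 := Nat.lt_floor_add_one (q * K' / aa t)
    have h2 : (1 : ℝ) ≤ M := by exact_mod_cast hM1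
    rw [← hM] at h1
    linarith
  have hM0 : (0 : ℝ) < M := by exact_mod_cast hM1
  set P : ℝ := 2 * (2 ^ t * u.choose t : ℝ) / M + Real.exp (-(q * (2 ^ t * u.choose t : ℝ) / M))
    with hP
  have hP0 : 0 ≤ P := by positivity
  have hPle : P ≤ 1 / (2 * ((t : ℝ) + 4) ^ (t + 1)) := by
    rw [hP, ← hK']
    have h1 : 2 * K' / M ≤ 4 * aa t / q := by
      rw [div_le_div_iff₀ hM0 hq0]
      rw [div_le_iff₀ hapos] at hMge
      nlinarith
    have h2 : aa t ≤ q * K' / M := by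
      rw [le_div_iff₀ hM0]
      rw [le_div_iff₀ hapos] at hMle
      linarith
    have h3 : Real.exp (-(q * K' / M)) ≤ 1 / (4 * ((t : ℝ) + 4) ^ (t + 1)) := by
      rw [← exp_neg_aa]
      exact Real.exp_le_exp.mpr (by linarith)
    have h4 : 4 * aa t / q ≤ 1 / (4 * ((t : ℝ) + 4) ^ (t + 1)) := by
      rw [div_le_div_iff₀ hq0 (by positivity)]
      linarith
    have h5 : 1 / (4 * ((t : ℝ) + 4) ^ (t + 1)) + 1 / (4 * ((t : ℝ) + 4) ^ (t + 1))
        = 1 / (2 * ((t : ℝ) + 4) ^ (t + 1)) := by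
      field_simp; norm_num
    linarith
  have hstep := Good.step (gadget t u q M hM1 (by omega)) (by omega) hR
    (div_nonneg hD (KK_pos _ _).le) hM0 hP0
  rw [hul] at hstep
  refine good_mono hstep ?_
  rw [← hP]
  -- ratio of the counting bounds
  have hratio : KK (t + 1) l ≤ ((t : ℝ) + 4) ^ (t + 1) * KK (t + 1) q := by
    unfold KK
    have h1 := choose_upper l (t + 1)
    have h2 := choose_lower q (t + 1)
    have h3 : ((l : ℝ) + (t + 1 : ℕ)) ≤ ((t : ℝ) + 4) * ((q : ℝ) + 1) := by exact_mod_cast hc1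
    have hf : (0 : ℝ) < ((t + 1).factorial : ℝ) := by exact_mod_cast Nat.factorial_pos _
    have h4 : ((l : ℝ) + (t + 1 : ℕ)) ^ (t + 1) ≤ (((t : ℝ) + 4) * ((q : ℝ) + 1)) ^ (t + 1) := by
      gcongr
    rw [mul_pow] at h4
    have h5 : ((l + (t + 1)).choose (t + 1) : ℝ) * ((t + 1).factorial : ℝ)
        ≤ (((t : ℝ) + 4) ^ (t + 1) * ((q + (t + 1)).choose (t + 1) : ℝ)) * ((t + 1).factorial : ℝ) := by
      calc _ ≤ _ := h1.trans h4
        _ ≤ ((t : ℝ) + 4) ^ (t + 1) * (((q + (t + 1)).choose (t + 1) : ℝ) * ((t + 1).factorial : ℝ)) := by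
            gcongr
        _ = _ := by ring
    have h6 := le_of_mul_le_mul_right h5 hf
    calc (2 : ℝ) ^ (t + 1) * ((l + (t + 1)).choose (t + 1) : ℝ)
        ≤ 2 ^ (t + 1) * (((t : ℝ) + 4) ^ (t + 1) * ((q + (t + 1)).choose (t + 1) : ℝ)) := by gcongr
      _ = _ := by ring
  have hKM : KK (t + 1) l ≤ 504 * aa t * M := by
    have h1 := choose_upper l (t + 1)
    have h2 := choose_lower' u t
    have hf : (0 : ℝ) < (t.factorial : ℝ) := by exact_mod_cast Nat.factorial_pos _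
    have hfac : ((t + 1).factorial : ℝ) = ((t : ℝ) + 1) * t.factorial := by
      rw [Nat.factorial_succ]; push_cast; ring
    have h3 : ((l : ℝ) + (t + 1 : ℕ)) ≤ 2 * ((t : ℝ) + 3) * q := by exact_mod_cast hc2
    have h3' : ((l : ℝ) + (t + 1 : ℕ)) ≤ 6 * ((t : ℝ) + 1) * q := by
      have : (0 : ℝ) ≤ (t : ℝ) * q := by positivity
      nlinarith
    have h4 : ((t : ℝ) + 1) * ((l : ℝ) + (t + 1 : ℕ)) ≤ ((t : ℝ) + 4) * ((u + 1 - t : ℕ) : ℝ) := by
      exact_mod_cast hc3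
    have h5 : ((l : ℝ) + (t + 1 : ℕ)) ≤ (1 + 3 / ((t : ℝ) + 1)) * ((u + 1 - t : ℕ) : ℝ) := by
      have e1 : (1 + 3 / ((t : ℝ) + 1)) = ((t : ℝ) + 4) / ((t : ℝ) + 1) := by field_simp; ring
      rw [e1, div_mul_eq_mul_div, le_div_iff₀ (by positivity)]
      linarith
    have h6 : ((l : ℝ) + (t + 1 : ℕ)) ^ t ≤ 21 * ((u.choose t : ℝ) * (t.factorial : ℝ)) := by
      calc ((l : ℝ) + (t + 1 : ℕ)) ^ t ≤ ((1 + 3 / ((t : ℝ) + 1)) * ((u + 1 - t : ℕ) : ℝ)) ^ t := by
            gcongr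
        _ = (1 + 3 / ((t : ℝ) + 1)) ^ t * ((u + 1 - t : ℕ) : ℝ) ^ t := mul_pow _ _ _
        _ ≤ 21 * ((u.choose t : ℝ) * (t.factorial : ℝ)) :=
            mul_le_mul (one_add_pow_le t) h2 (by positivity) (by norm_num)
    have h7 : ((l + (t + 1)).choose (t + 1) : ℝ) * (((t : ℝ) + 1) * t.factorial)
        ≤ (126 * q * u.choose t) * (((t : ℝ) + 1) * t.factorial) := by
      rw [← hfac]
      calc ((l + (t + 1)).choose (t + 1) : ℝ) * ((t + 1).factorial : ℝ)
          ≤ ((l : ℝ) + (t + 1 : ℕ)) ^ (t + 1) := h1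
        _ = ((l : ℝ) + (t + 1 : ℕ)) ^ t * ((l : ℝ) + (t + 1 : ℕ)) := pow_succ _ _
        _ ≤ (21 * ((u.choose t : ℝ) * (t.factorial : ℝ))) * (6 * ((t : ℝ) + 1) * q) :=
            mul_le_mul h6 h3' (by positivity) (by positivity)
        _ = _ := by rw [hfac]; ring
    have h8 : ((l + (t + 1)).choose (t + 1) : ℝ) ≤ 126 * q * u.choose t :=
      le_of_mul_le_mul_right h7 (by positivity)
    have h9 : KK (t + 1) l ≤ 252 * (q * K') := by
      unfold KK
      rw [hK']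
      calc (2 : ℝ) ^ (t + 1) * ((l + (t + 1)).choose (t + 1) : ℝ)
          ≤ 2 ^ (t + 1) * (126 * q * u.choose t) := by gcongr
        _ = _ := by rw [pow_succ]; ring
    rw [div_le_iff₀ hapos] at hMge
    nlinarith
  have hKpos := KK_pos (t + 1) l
  have hKqpos := KK_pos (t + 1) q
  rw [le_div_iff₀ hKpos, add_mul]
  have e1 : 1 / (M : ℝ) * KK (t + 1) l ≤ 504 * aa t := by
    rw [one_div, inv_mul_le_iff₀ hM0]
    linarith
  have e2 : P * (D / KK (t + 1) q) * KK (t + 1) l ≤ D / 2 := by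
    calc P * (D / KK (t + 1) q) * KK (t + 1) l
        ≤ (1 / (2 * ((t : ℝ) + 4) ^ (t + 1))) * (D / KK (t + 1) q)
          * (((t : ℝ) + 4) ^ (t + 1) * KK (t + 1) q) := by
          have : 0 ≤ D / KK (t + 1) q := by positivity
          gcongr
      _ = D / 2 := by field_simp
  linarith

/-- Fixed codimension: the counting bound is sharp up to a factor `1008 a + 1`. -/
theorem rat_base (t : ℕ) : ∃ l₀ : ℕ, ∀ l, l₀ ≤ l → Rat (t + 1) l (1008 * aa t + 1) := by
  obtain ⟨l₁, hstep⟩ := rat_step t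
  have ha := aa_pos t
  set D₀ := KK (t + 1) l₁ with hD₀
  have hD₀pos : 0 < D₀ := KK_pos _ _
  have h0 : ∀ l, Rat (t + 1) l (1008 * aa t + D₀) := by
    intro l
    induction l using Nat.strong_induction_on with
    | _ l ih =>
      rcases lt_or_ge l (max l₁ 1) with h | h
      · refine rat_trivial ?_
        have : KK (t + 1) l ≤ D₀ := KK_mono _ (by omega)
        linarith
      · have h1 : l / (t + 3) < l := Nat.div_lt_self (by omega) (by omega)
        refine (hstep l (by omega) _ (by linarith) (ih _ h1)).mono ?_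
        linarith
  have hj : ∀ j : ℕ, ∃ L₀ : ℕ, ∀ l, L₀ ≤ l → Rat (t + 1) l (1008 * aa t + D₀ / 2 ^ j) := by
    intro j
    induction j with
    | zero => exact ⟨0, fun l _ => by rw [pow_zero, div_one]; exact h0 l⟩
    | succ j ih =>
      obtain ⟨L₀, hL₀⟩ := ih
      refine ⟨max l₁ ((t + 3) * L₀), fun l hl => ?_⟩
      have h1 : L₀ ≤ l / (t + 3) := by
        rw [Nat.le_div_iff_mul_le (by omega), mul_comm]
        omega
      refine (hstep l (by omega) _ (by positivity) (hL₀ _ h1)).mono (le_of_eq ?_)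
      rw [pow_succ]
      field_simp
      ring
  obtain ⟨j, hj'⟩ := pow_unbounded_of_one_lt D₀ (show (1 : ℝ) < 2 by norm_num)
  obtain ⟨L₀, hL₀⟩ := hj j
  refine ⟨L₀, fun l hl => (hL₀ l hl).mono ?_⟩
  have : D₀ / 2 ^ j ≤ 1 := by
    rw [div_le_one (by positivity)]
    exact hj'.le
  linarith

end Pool.Agent.Lib.MP_7c0edd_co.H21
end

section
/-!
# Uniform bounds, by the product inequality
-/
namespace Pool.Agent.Lib.MP_7c0edd_co.H21

open Finset

lemma pow_le_factorial_mul_exp (t : ℕ) : (t : ℝ) ^ t ≤ t.factorial * Real.exp t := by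
  have h := Real.pow_div_factorial_le_exp (t : ℝ) (by positivity) t
  have hf : (0 : ℝ) < (t.factorial : ℝ) := by exact_mod_cast Nat.factorial_pos _
  rw [div_le_iff₀ hf] at h
  linarith

lemma factorial_mul_exp_le (t : ℕ) (ht : 1 ≤ t) :
    (t.factorial : ℝ) * Real.exp t ≤ Real.exp 1 * t * (t : ℝ) ^ t := by
  induction t, ht using Nat.le_induction with
  | base => norm_num
  | succ t ht ih =>
    have hf : ((t + 1).factorial : ℝ) = ((t : ℝ) + 1) * t.factorial := by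
      rw [Nat.factorial_succ]; push_cast; ring
    have htpos : (0 : ℝ) < t := by exact_mod_cast ht
    have h1 : Real.exp ((t + 1 : ℕ) : ℝ) = Real.exp t * Real.exp 1 := by
      rw [← Real.exp_add]; push_cast; rfl
    have h2 : (t : ℝ) / (t + 1) ≤ Real.exp (-(1 / ((t : ℝ) + 1))) := by
      have := Real.add_one_le_exp (-(1 / ((t : ℝ) + 1)))
      have e1 : -(1 / ((t : ℝ) + 1)) + 1 = (t : ℝ) / (t + 1) := by field_simp; ring
      linarith
    have h3 : ((t : ℝ) / (t + 1)) ^ (t + 1) ≤ Real.exp (-1) := by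
      calc ((t : ℝ) / (t + 1)) ^ (t + 1) ≤ Real.exp (-(1 / ((t : ℝ) + 1))) ^ (t + 1) := by gcongr
        _ = Real.exp (-1) := by
            rw [← Real.exp_nat_mul]
            congr 1
            push_cast
            field_simp
    have h4 : Real.exp 1 * (t : ℝ) ^ (t + 1) ≤ ((t : ℝ) + 1) ^ (t + 1) := by
      rw [div_pow, div_le_iff₀ (by positivity)] at h3
      calc Real.exp 1 * (t : ℝ) ^ (t + 1) ≤ Real.exp 1 * (Real.exp (-1) * ((t : ℝ) + 1) ^ (t + 1)) := by
            gcongr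
        _ = _ := by
            rw [← mul_assoc, ← Real.exp_add]; simp
    rw [hf, h1]
    have hcast : ((t + 1 : ℕ) : ℝ) = (t : ℝ) + 1 := by push_cast; rfl
    rw [hcast]
    calc ((t : ℝ) + 1) * t.factorial * (Real.exp t * Real.exp 1)
        = ((t : ℝ) + 1) * Real.exp 1 * (t.factorial * Real.exp t) := by ring
      _ ≤ ((t : ℝ) + 1) * Real.exp 1 * (Real.exp 1 * t * (t : ℝ) ^ t) := by gcongr
      _ = ((t : ℝ) + 1) * Real.exp 1 * (Real.exp 1 * (t : ℝ) ^ (t + 1)) := by ring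
      _ ≤ ((t : ℝ) + 1) * Real.exp 1 * ((t : ℝ) + 1) ^ (t + 1) := by gcongr
      _ = _ := by ring

/-- Bound for the counting bound from below. -/
lemma inv_KK_le {s l : ℕ} (hs : 1 ≤ s) {x : ℝ} (hx : 0 < x) (hxl : x ≤ (l : ℝ) + 1) :
    1 / KK s l ≤ Real.exp 1 * s * ((s : ℝ) / (2 * Real.exp 1 * x)) ^ s := by
  have h1 := choose_lower l s
  have h2 := factorial_mul_exp_le s hs
  have hf : (0 : ℝ) < (s.factorial : ℝ) := by exact_mod_cast Nat.factorial_pos _
  have he := Real.exp_pos 1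
  have h3 : x ^ s ≤ ((l : ℝ) + 1) ^ s := by gcongr
  have h4 : Real.exp (s : ℝ) = Real.exp 1 ^ s := by rw [← Real.exp_nat_mul, mul_one]
  rw [div_le_iff₀ (KK_pos s l)]
  unfold KK
  have h5 : (0 : ℝ) < (2 * Real.exp 1 * x) ^ s := by positivity
  rw [div_pow]
  have h6 : (2 * Real.exp 1 * x) ^ s ≤ Real.exp 1 * s * (s : ℝ) ^ s * (2 ^ s * ((l + s).choose s : ℝ)) := by
    calc (2 * Real.exp 1 * x) ^ s = 2 ^ s * Real.exp 1 ^ s * x ^ s := by rw [mul_pow, mul_pow]
      _ ≤ 2 ^ s * Real.exp 1 ^ s * (((l + s).choose s : ℝ) * (s.factorial : ℝ)) := by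
          gcongr
          exact h3.trans h1
      _ = (2 ^ s * ((l + s).choose s : ℝ)) * (s.factorial * Real.exp s) := by rw [h4]; ring
      _ ≤ (2 ^ s * ((l + s).choose s : ℝ)) * (Real.exp 1 * s * (s : ℝ) ^ s) := by gcongr
      _ = _ := by ring
  calc (1 : ℝ) = (2 * Real.exp 1 * x) ^ s / (2 * Real.exp 1 * x) ^ s := (div_self h5.ne').symm
    _ ≤ Real.exp 1 * s * (s : ℝ) ^ s * (2 ^ s * ((l + s).choose s : ℝ)) / (2 * Real.exp 1 * x) ^ s := by
        gcongr
    _ = _ := by ring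

/-- Bound for the counting bound from above. -/
lemma KK_le {t l : ℕ} (ht : 1 ≤ t) {y : ℝ} (hy : (l : ℝ) + t ≤ y) :
    KK t l ≤ (2 * Real.exp 1 * y / t) ^ t := by
  have h1 := choose_upper l t
  have h2 := pow_le_factorial_mul_exp t
  have hf : (0 : ℝ) < (t.factorial : ℝ) := by exact_mod_cast Nat.factorial_pos _
  have htpos : (0 : ℝ) < t := by exact_mod_cast ht
  have h4 : Real.exp (t : ℝ) = Real.exp 1 ^ t := by rw [← Real.exp_nat_mul, mul_one]
  have h3 : ((l : ℝ) + t) ^ t ≤ y ^ t := by gcongr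
  have h5 : KK t l * (t : ℝ) ^ t ≤ (2 * Real.exp 1 * y) ^ t := by
    unfold KK
    calc 2 ^ t * ((l + t).choose t : ℝ) * (t : ℝ) ^ t
        ≤ 2 ^ t * ((l + t).choose t : ℝ) * (t.factorial * Real.exp t) := by gcongr
      _ = 2 ^ t * (((l + t).choose t : ℝ) * t.factorial) * Real.exp 1 ^ t := by rw [h4]; ring
      _ ≤ 2 ^ t * y ^ t * Real.exp 1 ^ t := by
          gcongr
          exact h1.trans h3
      _ = _ := by rw [mul_pow, mul_pow]; ring
  rw [div_pow, le_div_iff₀ (by positivity)]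
  exact h5

/-- Iterated product inequality. -/
lemma good_iter {l s h T : ℕ} {c₁ c₂ : ℝ} (h₁ : Good l (l + s) c₁) (hh : 1 ≤ h)
    (h₂ : Good (h - 1) (h - 1 + T) c₂) (hc₁ : 0 ≤ c₁) (hc₂ : 0 ≤ c₂) (j : ℕ) :
    Good (l + j * h) (l + j * h + (s + j * T)) (c₁ * c₂ ^ j) := by
  induction j with
  | zero => simpa using h₁
  | succ j ih =>
    have h3 := ih.mul h₂ (by positivity) hc₂
    have e1 : l + j * h + (h - 1) + 1 = l + (j + 1) * h := by
      rw [add_mul, one_mul]; omega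
    have e2 : l + j * h + (s + j * T) + (h - 1 + T) + 1 = l + (j + 1) * h + (s + (j + 1) * T) := by
      rw [add_mul, one_mul, add_mul, one_mul]; omega
    rw [e1, e2] at h3
    rwa [pow_succ, ← mul_assoc]

/-- Subexponential growth of the constants. -/
lemma exists_T {δ : ℝ} (hδ : 0 < δ) : ∃ T : ℕ, 1 ≤ T ∧
    2 * Real.exp 1 * T * (1008 * aa (T - 1) + 1) ≤ (1 + δ) ^ T := by
  have h1 : Filter.Tendsto (fun n : ℕ => (n : ℝ) ^ 4 / (1 + δ) ^ n) Filter.atTop (nhds 0) :=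
    tendsto_pow_const_div_const_pow_of_one_lt 4 (by linarith)
  have h2 := (h1.eventually (gt_mem_nhds (show (0 : ℝ) < 1 / 100000 by norm_num))).and
    (Filter.eventually_ge_atTop 3)
  obtain ⟨T, hT, hT3⟩ := h2.exists
  refine ⟨T, by omega, ?_⟩
  have hT3' : (3 : ℝ) ≤ T := by exact_mod_cast hT3
  have hpos : (0 : ℝ) < (1 + δ) ^ T := by positivity
  rw [div_lt_iff₀ hpos] at hT
  have hcast : ((T - 1 : ℕ) : ℝ) = T - 1 := by rw [Nat.cast_sub (by omega)]; simp
  have h4 : aa (T - 1) ≤ 3 * (T : ℝ) ^ 2 := by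
    unfold aa
    rw [hcast]
    have h5 : Real.log 4 ≤ 3 := by
      have := Real.log_le_sub_one_of_pos (show (0 : ℝ) < 4 by norm_num)
      linarith
    have h6 : Real.log ((T : ℝ) - 1 + 4) ≤ T + 2 := by
      have := Real.log_le_sub_one_of_pos (show (0 : ℝ) < (T : ℝ) - 1 + 4 by linarith)
      linarith
    have h7 : ((T : ℝ) - 1 + 1) * Real.log ((T : ℝ) - 1 + 4) ≤ T * (T + 2) := by
      have : ((T : ℝ) - 1 + 1) = T := by ring
      rw [this]
      gcongr
    nlinarith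
  have he := Real.exp_one_lt_d9
  have he0 := Real.exp_pos 1
  have h8 : 1008 * aa (T - 1) + 1 ≤ 3025 * (T : ℝ) ^ 2 := by nlinarith
  calc 2 * Real.exp 1 * T * (1008 * aa (T - 1) + 1)
      ≤ 2 * 3 * T * (3025 * (T : ℝ) ^ 2) := by
        have : Real.exp 1 ≤ 3 := by linarith
        have h9 : 0 ≤ 1008 * aa (T - 1) + 1 := by linarith [aa_pos (T - 1)]
        gcongr
    _ ≤ 18150 * (T : ℝ) ^ 3 := by nlinarith
    _ ≤ 100000 * (T : ℝ) ^ 4 := by
        have : (0 : ℝ) ≤ (T : ℝ) ^ 3 := by positivity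
        nlinarith
    _ ≤ (1 + δ) ^ T := by linarith

lemma aa_mono {s t : ℕ} (h : s ≤ t) : aa s ≤ aa t := by
  unfold aa
  have h1 : (s : ℝ) ≤ t := by exact_mod_cast h
  have h2 : 0 ≤ Real.log ((s : ℝ) + 4) := Real.log_nonneg (by
    have : (0 : ℝ) ≤ s := by positivity
    linarith)
  gcongr

/-- the threshold for all codimensions up to `m` -/
lemma exists_threshold (m : ℕ) : ∃ L₀ : ℕ, ∀ s, 1 ≤ s → s ≤ m → ∀ l, L₀ ≤ l →
    Rat s l (1008 * aa (s - 1) + 1) := by
  induction m with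
  | zero => exact ⟨0, fun s hs hs' => by omega⟩
  | succ m ih =>
    obtain ⟨L₀, hL₀⟩ := ih
    obtain ⟨L₁, hL₁⟩ := rat_base m
    refine ⟨max L₀ L₁, fun s hs hs' l hl => ?_⟩
    rcases Nat.lt_or_ge m s with h | h
    · have : s = m + 1 := by omega
      subst this
      exact hL₁ l (by omega)
    · exact hL₀ s hs h l (by omega)

/-- **Uniform bound.** -/
theorem rat_uniform {ε : ℝ} (hε : 0 < ε) : ∃ K : ℕ, 1 ≤ K ∧ ∀ t, 1 ≤ t → ∀ l, K * t ≤ l →
    Rat t l (K * (1 + ε) ^ t) := by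
  set δ : ℝ := min ε 1 / 3 with hδ
  have hδ0 : 0 < δ := by positivity
  have hδ1 : δ ≤ ε / 3 := by
    rw [hδ]; gcongr; exact min_le_left _ _
  have hδ2 : δ ≤ 1 / 3 := by
    rw [hδ]; gcongr; exact min_le_right _ _
  obtain ⟨T, hT1, hT⟩ := exists_T hδ0
  obtain ⟨L₀, hL₀⟩ := exists_threshold (2 * T)
  have he0 := Real.exp_pos 1
  have haT := aa_pos (2 * T)
  set K₁ : ℝ := (1008 * aa (2 * T) + 1) * (Real.exp 1 * (2 * T)) with hK₁
  obtain ⟨K, hK⟩ := exists_nat_ge (max (max (1 / δ) K₁) (L₀ + 2))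
  have hKδ : 1 / δ ≤ K := (le_max_left _ _).trans ((le_max_left _ _).trans hK)
  have hKK₁ : K₁ ≤ K := (le_max_right _ _).trans ((le_max_left _ _).trans hK)
  have hKL : (L₀ : ℝ) + 2 ≤ K := (le_max_right _ _).trans hK
  have hKL' : L₀ + 2 ≤ K := by exact_mod_cast hKL
  refine ⟨K, by omega, fun t ht l hl => ?_⟩
  -- decomposition of `t`
  obtain ⟨r, s, hs1, hs2, hrs⟩ : ∃ r s : ℕ, 1 ≤ s ∧ s ≤ 2 * T ∧ t = s + r * T := by
    rcases Nat.lt_or_ge t T with h | h
    · exact ⟨0, t, ht, by omega, by simp⟩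
    · have h1 : 1 ≤ t / T := (Nat.one_le_div_iff (by omega)).mpr h
      have h2 := Nat.div_add_mod t T
      have h3 := Nat.mod_lt t (show 0 < T by omega)
      refine ⟨t / T - 1, T + t % T, by omega, by omega, ?_⟩
      have h4 : t / T * T = (t / T - 1) * T + T := by
        conv_lhs => rw [show t / T = (t / T - 1) + 1 by omega]
        rw [add_mul, one_mul]
      rw [mul_comm] at h2
      omega
  set h : ℕ := (l + 1) * T / t with hh
  have htpos : (0 : ℝ) < t := by exact_mod_cast ht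
  have hTpos : (0 : ℝ) < T := by exact_mod_cast hT1
  have hKpos : (0 : ℝ) < K := by linarith [(by positivity : (0 : ℝ) ≤ L₀)]
  have hlpos : (0 : ℝ) < (l : ℝ) + 1 := by positivity
  have hlK : (K : ℝ) * t ≤ (l : ℝ) := by exact_mod_cast hl
  set y : ℝ := ((l : ℝ) + 1) * T / t with hy
  have hyK : (K : ℝ) * T ≤ y := by
    rw [hy, le_div_iff₀ htpos]
    nlinarith
  have hhy : (h : ℝ) ≤ y := by
    rw [hy, le_div_iff₀ htpos]
    have := Nat.div_mul_le_self ((l + 1) * T) t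
    exact_mod_cast this
  have hyh : y - 1 ≤ h := by
    have h1 := Nat.lt_mul_div_succ ((l + 1) * T) (show 0 < t by omega)
    have h2 : ((l : ℝ) + 1) * T < t * ((h : ℝ) + 1) := by exact_mod_cast h1
    have h3 : y < (h : ℝ) + 1 := by
      rw [hy, div_lt_iff₀ htpos]
      linarith
    linarith
  have hhL : L₀ + 1 ≤ h := by
    rw [hh, Nat.le_div_iff_mul_le (by omega)]
    have h1 : (L₀ + 1) * t ≤ K * t := Nat.mul_le_mul_right _ (by omega)
    have h2 : (l + 1) * 1 ≤ (l + 1) * T := Nat.mul_le_mul_left _ hT1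
    omega
  -- the last block
  have hrh : (r : ℝ) * h ≤ ((l : ℝ) + 1) * (1 - s / t) := by
    have e1 : ((l : ℝ) + 1) * (1 - s / t) = r * y := by
      have e2 : (t : ℝ) = s + r * T := by exact_mod_cast hrs
      rw [hy]
      field_simp
      rw [e2]; ring
    rw [e1]
    gcongr
  have hspos : (0 : ℝ) < s := by exact_mod_cast hs1
  have hst : ((l : ℝ) + 1) * (s / t) ≤ (l : ℝ) + 1 - r * h := by
    have : ((l : ℝ) + 1) * (1 - s / t) = (l : ℝ) + 1 - ((l : ℝ) + 1) * (s / t) := by ring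
    linarith
  have hsK : (K : ℝ) ≤ ((l : ℝ) + 1) * (s / t) := by
    have h1 : (1 : ℝ) ≤ s := by exact_mod_cast hs1
    have h2 : (K : ℝ) ≤ ((l : ℝ) + 1) * (1 / t) := by
      rw [mul_one_div, le_div_iff₀ htpos]
      linarith
    refine h2.trans ?_
    gcongr
  have hrl : r * h + L₀ + 1 ≤ l := by
    have : (r : ℝ) * h + L₀ + 1 ≤ l := by linarith
    exact_mod_cast this
  set l' := l - r * h with hl'
  have hll : l' + r * h = l := by omega
  have hl'cast : (l' : ℝ) = l - r * h := by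
    rw [hl', Nat.cast_sub (by omega)]
    push_cast; rfl
  have hG1 : Good l' (l' + s) ((1008 * aa (s - 1) + 1) / KK s l') := hL₀ s hs1 hs2 l' (by omega)
  have hG2 : Good (h - 1) (h - 1 + T) ((1008 * aa (T - 1) + 1) / KK T (h - 1)) :=
    hL₀ T hT1 (by omega) (h - 1) (by omega)
  have has := aa_pos (s - 1)
  have haT1 := aa_pos (T - 1)
  have hiter := good_iter hG1 (by omega) hG2 (div_nonneg (by linarith) (KK_pos _ _).le)
    (div_nonneg (by linarith) (KK_pos _ _).le) r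
  rw [hll, ← hrs] at hiter
  refine good_mono hiter ?_
  -- the estimate
  set w : ℝ := (t : ℝ) / (2 * Real.exp 1 * ((l : ℝ) + 1)) with hw
  have hwpos : 0 < w := by positivity
  have hA : 1 / KK s l' ≤ Real.exp 1 * s * w ^ s := by
    have h1 := inv_KK_le (l := l') hs1 (x := ((l : ℝ) + 1) * (s / t)) (by positivity) (by
      rw [hl'cast]; linarith)
    refine h1.trans (le_of_eq ?_)
    congr 2
    rw [hw]
    field_simp
  have hB : 1 / KK T (h - 1) ≤ 2 * Real.exp 1 * T * w ^ T := by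
    have hKT : (1 : ℝ) < K * T := by
      have h1 : (1 : ℝ) ≤ T := by exact_mod_cast hT1
      have h2 : (2 : ℝ) ≤ K := by linarith [(by positivity : (0 : ℝ) ≤ L₀)]
      nlinarith
    have hb1 : 0 < 1 - 1 / ((K : ℝ) * T) := by
      rw [sub_pos, div_lt_one (by positivity)]
      exact hKT
    have h1 := inv_KK_le (l := h - 1) hT1 (x := y * (1 - 1 / ((K : ℝ) * T))) (by positivity) (by
      have h3 : (((h - 1 : ℕ) : ℝ)) = h - 1 := by rw [Nat.cast_sub (by omega)]; simp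
      rw [h3]
      have h4 : 1 ≤ y * (1 / ((K : ℝ) * T)) := by
        rw [mul_one_div, le_div_iff₀ (by positivity)]
        linarith
      have h5 : y * (1 - 1 / ((K : ℝ) * T)) = y - y * (1 / ((K : ℝ) * T)) := by ring
      rw [h5]
      linarith)
    have h6 : (1 / 2 : ℝ) ≤ (1 - 1 / ((K : ℝ) * T)) ^ T := by
      have h7 := one_add_mul_le_pow (a := -(1 / ((K : ℝ) * T))) (by
        have : 1 / ((K : ℝ) * T) ≤ 1 := by
          rw [div_le_one (by positivity)]
          exact hKT.le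
        linarith) T
      have h8 : (T : ℝ) * -(1 / ((K : ℝ) * T)) = -(1 / K) := by field_simp
      rw [h8] at h7
      have h9 : 1 / (K : ℝ) ≤ 1 / 2 := by
        have h2 : (2 : ℝ) ≤ K := by linarith [(by positivity : (0 : ℝ) ≤ L₀)]
        exact one_div_le_one_div_of_le (by norm_num) h2
      have h10 : (1 : ℝ) + -(1 / ((K : ℝ) * T)) = 1 - 1 / ((K : ℝ) * T) := by ring
      rw [h10] at h7
      linarith
    refine h1.trans ?_
    have h11 : ((T : ℝ) / (2 * Real.exp 1 * (y * (1 - 1 / ((K : ℝ) * T))))) ^ T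
        = w ^ T / (1 - 1 / ((K : ℝ) * T)) ^ T := by
      rw [← div_pow]
      congr 1
      rw [hw, hy]
      field_simp
    rw [h11]
    have h12 : w ^ T / (1 - 1 / ((K : ℝ) * T)) ^ T ≤ 2 * w ^ T := by
      rw [div_le_iff₀ (by positivity)]
      have : 0 < w ^ T := by positivity
      nlinarith
    calc Real.exp 1 * T * (w ^ T / (1 - 1 / ((K : ℝ) * T)) ^ T)
        ≤ Real.exp 1 * T * (2 * w ^ T) := by gcongr
      _ = _ := by ring
  have hC : KK t l ≤ ((1 + δ) / w) ^ t := by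
    have h1 : (l : ℝ) + t ≤ (1 + δ) * ((l : ℝ) + 1) := by
      have h2 : 1 ≤ δ * K := by
        rw [div_le_iff₀ hδ0] at hKδ
        linarith
      have h3 : (t : ℝ) ≤ δ * (K * t) := by nlinarith
      have h4 : δ * ((K : ℝ) * t) ≤ δ * l := by gcongr
      nlinarith
    refine (KK_le ht h1).trans (le_of_eq ?_)
    congr 1
    rw [hw]
    field_simp
  clear_value w
  rw [le_div_iff₀ (KK_pos t l)]
  have hKs := KK_pos s l'
  have hKT' := KK_pos T (h - 1)
  have hX : (1008 * aa (s - 1) + 1) / KK s l' ≤ K₁ * w ^ s := by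
    calc (1008 * aa (s - 1) + 1) / KK s l' = (1008 * aa (s - 1) + 1) * (1 / KK s l') := by ring
      _ ≤ (1008 * aa (s - 1) + 1) * (Real.exp 1 * s * w ^ s) := by gcongr
      _ ≤ (1008 * aa (2 * T) + 1) * (Real.exp 1 * (2 * T) * w ^ s) := by
          have h1 : aa (s - 1) ≤ aa (2 * T) := aa_mono (by omega)
          have h2 : (s : ℝ) ≤ 2 * T := by exact_mod_cast hs2
          gcongr
      _ = _ := by rw [hK₁]; ring
  have hY : (1008 * aa (T - 1) + 1) / KK T (h - 1) ≤ (1 + δ) ^ T * w ^ T := by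
    calc (1008 * aa (T - 1) + 1) / KK T (h - 1)
        = (1008 * aa (T - 1) + 1) * (1 / KK T (h - 1)) := by ring
      _ ≤ (1008 * aa (T - 1) + 1) * (2 * Real.exp 1 * T * w ^ T) := by gcongr
      _ = (2 * Real.exp 1 * T * (1008 * aa (T - 1) + 1)) * w ^ T := by ring
      _ ≤ (1 + δ) ^ T * w ^ T := by gcongr
  have hXY : (1008 * aa (s - 1) + 1) / KK s l' * ((1008 * aa (T - 1) + 1) / KK T (h - 1)) ^ r
      ≤ K * (1 + δ) ^ t * w ^ t := by
    have hY0 : 0 ≤ (1008 * aa (T - 1) + 1) / KK T (h - 1) := div_nonneg (by linarith) hKT'.le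
    have hK₁0 : 0 ≤ K₁ := by positivity
    calc (1008 * aa (s - 1) + 1) / KK s l' * ((1008 * aa (T - 1) + 1) / KK T (h - 1)) ^ r
        ≤ (K₁ * w ^ s) * ((1 + δ) ^ T * w ^ T) ^ r := by gcongr
      _ = K₁ * (1 + δ) ^ (r * T) * w ^ (s + r * T) := by
          rw [mul_pow, ← pow_mul, ← pow_mul, pow_add, mul_comm T r]; ring
      _ ≤ K * (1 + δ) ^ t * w ^ t := by
          rw [← hrs]
          have h1 : (1 + δ) ^ (r * T) ≤ (1 + δ) ^ t :=
            pow_le_pow_right₀ (by linarith) (by omega)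
          gcongr
  calc (1008 * aa (s - 1) + 1) / KK s l' * ((1008 * aa (T - 1) + 1) / KK T (h - 1)) ^ r * KK t l
      ≤ (K * (1 + δ) ^ t * w ^ t) * ((1 + δ) / w) ^ t := by
        have := KK_pos t l
        gcongr
    _ = K * ((1 + δ) ^ t) ^ 2 * (w ^ t / w ^ t) := by
        rw [div_pow]; ring
    _ = K * ((1 + δ) ^ 2) ^ t := by
        rw [div_self (pow_pos hwpos t).ne', mul_one, ← pow_mul, ← pow_mul, mul_comm 2 t]
    _ ≤ K * (1 + ε) ^ t := by
        have : (1 + δ) ^ 2 ≤ 1 + ε := by nlinarith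
        gcongr

end Pool.Agent.Lib.MP_7c0edd_co.H21
end
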