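import Pool.Agent.Lib.MP_7c0edd_co.helper21.Mono
import Pool.Agent.Lib.MP_7c0edd_co.helper21.Uniform

section
/-!
# An exponential upper bound for all pairs

A version for `l`-subcubes of the linear algebra construction of Ellis, Ivan and Leader.
-/
namespace Pool.Agent.Lib.MP_7c0edd_co.H21

open Finset

/-- the ones of a word -/
def ones {n : ℕ} (w : W n) : Finset (Fin n) := univ.filter (fun i => w i = some true)

lemma mem_ones {n : ℕ} {w : W n} {i : Fin n} : i ∈ ones w ↔ w i = some true := by simp [ones]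

section linear

variable {k : ℕ}

lemma halve (Λ : Finset (Fin k → ZMod 2)) (hΛ : ∀ a ∈ Λ, ∀ b ∈ Λ, a + b ∈ Λ)
    (v : Fin k → ZMod 2) : Λ.card ≤ 2 * (Λ.filter (fun a => a ⬝ᵥ v = 0)).card := by
  classical
  rw [← card_filter_add_card_filter_not (s := Λ) (fun a => a ⬝ᵥ v = 0)]
  have h : (Λ.filter (fun a => ¬ a ⬝ᵥ v = 0)).card ≤ (Λ.filter (fun a => a ⬝ᵥ v = 0)).card := by
    rcases (Λ.filter (fun a => ¬ a ⬝ᵥ v = 0)).eq_empty_or_nonempty with hE | ⟨a₀, ha₀⟩
    · rw [hE]; simp
    · rw [mem_filter] at ha₀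
      refine card_le_card_of_injOn (fun a => a + a₀) ?_ (fun a _ b _ hab => by simpa using hab)
      intro a ha
      rw [mem_coe, mem_filter] at ha ⊢
      refine ⟨hΛ _ ha.1 _ ha₀.1, ?_⟩
      rw [add_dotProduct]
      have key : ∀ x y : ZMod 2, ¬ x = 0 → ¬ y = 0 → x + y = 0 := by decide
      exact key _ _ ha.2 ha₀.2
  omega

/-- functionals vanishing on the vectors of `O` -/
def Lam {n : ℕ} (u : Fin n → Fin k → ZMod 2) (O : Finset (Fin n)) : Finset (Fin k → ZMod 2) :=
  univ.filter (fun a => ∀ i ∈ O, a ⬝ᵥ u i = 0)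

lemma mem_Lam {n : ℕ} {u : Fin n → Fin k → ZMod 2} {O : Finset (Fin n)} {a : Fin k → ZMod 2} :
    a ∈ Lam u O ↔ ∀ i ∈ O, a ⬝ᵥ u i = 0 := by simp [Lam]

lemma Lam_add {n : ℕ} {u : Fin n → Fin k → ZMod 2} {O : Finset (Fin n)} :
    ∀ a ∈ Lam u O, ∀ b ∈ Lam u O, a + b ∈ Lam u O := by
  intro a ha b hb
  rw [mem_Lam] at *
  intro i hi
  rw [add_dotProduct, ha i hi, hb i hi, add_zero]

lemma card_Lam {n : ℕ} (u : Fin n → Fin k → ZMod 2) (O : Finset (Fin n)) :
    2 ^ k ≤ 2 ^ O.card * (Lam u O).card := by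
  classical
  induction O using Finset.induction_on with
  | empty =>
    have : Lam u ∅ = univ := by ext a; simp [Lam]
    rw [this, card_univ, Fintype.card_fun, ZMod.card, Fintype.card_fin]
    simp
  | insert i O hi ih =>
    have h1 : Lam u (insert i O) = (Lam u O).filter (fun a => a ⬝ᵥ u i = 0) := by
      ext a
      rw [mem_filter, mem_Lam, mem_Lam, forall_mem_insert]
      tauto
    have h2 := halve (Lam u O) Lam_add (u i)
    rw [card_insert_of_notMem hi, h1, pow_succ]
    calc 2 ^ k ≤ 2 ^ O.card * (Lam u O).card := ih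
      _ ≤ 2 ^ O.card * (2 * ((Lam u O).filter (fun a => a ⬝ᵥ u i = 0)).card) :=
          Nat.mul_le_mul_left _ h2
      _ = _ := by ring

/-- The Plotkin type step. -/
lemma exists_many_zeros {n : ℕ} (u : Fin n → Fin k → ZMod 2) (O B : Finset (Fin n)) (h : ℕ)
    (hB : B.card = 2 * h) (hh : 1 ≤ h) (hL : h + 2 ≤ (Lam u O).card) :
    ∃ a ∈ Lam u O, a ≠ 0 ∧ h ≤ (B.filter (fun i => a ⬝ᵥ u i = 0)).card := by
  classical
  by_contra hcon
  push Not at hcon
  have h0 : (0 : Fin k → ZMod 2) ∈ Lam u O := by rw [mem_Lam]; intro i _; simp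
  have h1 : ∑ a ∈ Lam u O, (B.filter (fun i => a ⬝ᵥ u i = 0)).card
      = ∑ i ∈ B, ((Lam u O).filter (fun a => a ⬝ᵥ u i = 0)).card :=
    sum_card_bipartiteAbove_eq_sum_card_bipartiteBelow (fun (a : Fin k → ZMod 2) i => a ⬝ᵥ u i = 0)
  have h2 : B.card * (Lam u O).card ≤ 2 * ∑ i ∈ B, ((Lam u O).filter (fun a => a ⬝ᵥ u i = 0)).card := by
    rw [mul_sum, ← smul_eq_mul, ← sum_const]
    exact sum_le_sum (fun i _ => halve _ Lam_add _)
  have h3 : ∑ a ∈ Lam u O, (B.filter (fun i => a ⬝ᵥ u i = 0)).card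
      ≤ 2 * h + ((Lam u O).card - 1) * (h - 1) := by
    rw [← add_sum_erase _ _ h0]
    refine Nat.add_le_add ?_ ?_
    · exact (card_filter_le _ _).trans hB.le
    · calc ∑ a ∈ (Lam u O).erase 0, (B.filter (fun i => a ⬝ᵥ u i = 0)).card
          ≤ ∑ _a ∈ (Lam u O).erase 0, (h - 1) := by
            refine sum_le_sum (fun a ha => ?_)
            rw [mem_erase] at ha
            have := hcon a ha.2 ha.1
            omega
        _ = _ := by rw [sum_const, card_erase_of_mem h0, smul_eq_mul]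
  rw [hB] at h2
  rw [h1] at h3
  obtain ⟨q, hq⟩ : ∃ q, (Lam u O).card = q + 1 := ⟨(Lam u O).card - 1, by omega⟩
  obtain ⟨h', rfl⟩ : ∃ h', h = h' + 1 := ⟨h - 1, by omega⟩
  rw [hq] at h2 h3 hL
  simp only [Nat.add_sub_cancel] at h3
  nlinarith

/-- counting bad labelings for one functional -/
lemma card_kill {n : ℕ} (O : Finset (Fin n)) (a : Fin k → ZMod 2) (ha : a ≠ 0) :
    2 ^ O.card * (univ.filter (fun u : Fin n → Fin k → ZMod 2 => ∀ i ∈ O, a ⬝ᵥ u i = 0)).card
      ≤ Fintype.card (Fin n → Fin k → ZMod 2) := by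
  classical
  set Ka : Finset (Fin k → ZMod 2) := univ.filter (fun v => a ⬝ᵥ v = 0) with hKa
  have hK : 2 * Ka.card ≤ 2 ^ k := by
    obtain ⟨j, hj⟩ := Function.ne_iff.mp ha
    have hj1 : a j = 1 := by
      have key : ∀ x : ZMod 2, x ≠ 0 → x = 1 := by decide
      exact key _ hj
    set e : Fin k → ZMod 2 := Pi.single j 1 with he
    have hae : a ⬝ᵥ e = 1 := by rw [he, dotProduct_single, hj1, mul_one]
    have h1 : Ka.card ≤ (univ.filter (fun v : Fin k → ZMod 2 => ¬ a ⬝ᵥ v = 0)).card := by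
      refine card_le_card_of_injOn (fun v => v + e) ?_ (fun v _ v' _ h => by simpa using h)
      intro v hv
      rw [mem_coe, hKa, mem_filter] at hv
      rw [mem_coe, mem_filter]
      refine ⟨mem_univ _, ?_⟩
      rw [dotProduct_add, hv.2, hae]
      decide
    have h2 := card_filter_add_card_filter_not (s := (univ : Finset (Fin k → ZMod 2)))
      (fun v => a ⬝ᵥ v = 0)
    rw [card_univ, Fintype.card_fun, ZMod.card, Fintype.card_fin, ← hKa] at h2
    omega
  have h3 : (univ.filter (fun u : Fin n → Fin k → ZMod 2 => ∀ i ∈ O, a ⬝ᵥ u i = 0))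
      = Fintype.piFinset (fun i => if i ∈ O then Ka else univ) := by
    ext u
    rw [mem_filter, Fintype.mem_piFinset]
    constructor
    · rintro ⟨_, h⟩ i
      by_cases hi : i ∈ O
      · simp only [hi, if_true, hKa, mem_filter, mem_univ, true_and]
        exact h i hi
      · simp [hi]
    · intro h
      refine ⟨mem_univ _, fun i hi => ?_⟩
      have := h i
      simpa [hi, hKa] using this
  rw [h3, Fintype.card_piFinset]
  have h4 : ∀ i : Fin n, (if i ∈ O then Ka else univ).card = if i ∈ O then Ka.card else 2 ^ k := by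
    intro i
    by_cases hi : i ∈ O
    · simp [hi]
    · simp [hi, ZMod.card]
  simp_rw [h4]
  rw [prod_ite, prod_const, prod_const]
  have h5 : (univ.filter (fun i => i ∈ O)) = O := by ext; simp
  have h6 : (univ.filter (fun i => i ∉ O)).card = n - O.card := by
    have : (univ.filter (fun i => i ∉ O)) = Oᶜ := by ext; simp
    rw [this, card_compl, Fintype.card_fin]
  rw [h5, h6, Fintype.card_fun, Fintype.card_fun, ZMod.card, Fintype.card_fin, Fintype.card_fin]
  have hOn : O.card ≤ n := by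
    have := card_le_univ O
    rwa [Fintype.card_fin] at this
  calc 2 ^ O.card * (Ka.card ^ O.card * (2 ^ k) ^ (n - O.card))
      = (2 * Ka.card) ^ O.card * (2 ^ k) ^ (n - O.card) := by rw [mul_pow]; ring
    _ ≤ (2 ^ k) ^ O.card * (2 ^ k) ^ (n - O.card) :=
        Nat.mul_le_mul_right _ (Nat.pow_le_pow_left hK _)
    _ = (2 ^ k) ^ n := by rw [← pow_add]; congr 1; omega

/-- bad labelings of a set of `r` vectors in dimension `k` -/
lemma card_bad {n : ℕ} (O : Finset (Fin n)) (m : ℕ) (hO : O.card = k + m) :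
    2 ^ m * (univ.filter (fun u : Fin n → Fin k → ZMod 2 =>
      ∃ a, a ≠ 0 ∧ ∀ i ∈ O, a ⬝ᵥ u i = 0)).card ≤ Fintype.card (Fin n → Fin k → ZMod 2) := by
  classical
  set T := Fintype.card (Fin n → Fin k → ZMod 2) with hT
  have h1 : (univ.filter (fun u : Fin n → Fin k → ZMod 2 =>
      ∃ a, a ≠ 0 ∧ ∀ i ∈ O, a ⬝ᵥ u i = 0)).card
      ≤ ∑ a ∈ (univ : Finset (Fin k → ZMod 2)).erase 0,
        (univ.filter (fun u : Fin n → Fin k → ZMod 2 => ∀ i ∈ O, a ⬝ᵥ u i = 0)).card := by
    refine le_trans (card_le_card ?_) card_biUnion_le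
    intro u hu
    rw [mem_filter] at hu
    obtain ⟨_, a, ha, h⟩ := hu
    rw [mem_biUnion]
    exact ⟨a, mem_erase.mpr ⟨ha, mem_univ _⟩, mem_filter.mpr ⟨mem_univ _, h⟩⟩
  have h2 : 2 ^ O.card * ∑ a ∈ (univ : Finset (Fin k → ZMod 2)).erase 0,
        (univ.filter (fun u : Fin n → Fin k → ZMod 2 => ∀ i ∈ O, a ⬝ᵥ u i = 0)).card
      ≤ 2 ^ k * T := by
    rw [mul_sum]
    calc ∑ a ∈ (univ : Finset (Fin k → ZMod 2)).erase 0, 2 ^ O.card *
        (univ.filter (fun u : Fin n → Fin k → ZMod 2 => ∀ i ∈ O, a ⬝ᵥ u i = 0)).card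
        ≤ ∑ _a ∈ (univ : Finset (Fin k → ZMod 2)).erase 0, T :=
          sum_le_sum (fun a ha => card_kill O a (mem_erase.mp ha).1)
      _ = ((univ : Finset (Fin k → ZMod 2)).erase 0).card * T := by rw [sum_const, smul_eq_mul]
      _ ≤ 2 ^ k * T := by
          refine Nat.mul_le_mul_right _ ?_
          refine (card_le_card (erase_subset _ _)).trans (le_of_eq ?_)
          rw [card_univ, Fintype.card_fun, ZMod.card, Fintype.card_fin]
  have h3 : 2 ^ k * (2 ^ m * (univ.filter (fun u : Fin n → Fin k → ZMod 2 =>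
      ∃ a, a ≠ 0 ∧ ∀ i ∈ O, a ⬝ᵥ u i = 0)).card) ≤ 2 ^ k * T := by
    rw [← mul_assoc, ← pow_add, ← hO]
    exact (Nat.mul_le_mul_left _ h1).trans h2
  exact Nat.le_of_mul_le_mul_left h3 (by positivity)

end linear

/-- For each number `k + m` of ones, a labeling with few bad words. -/
lemma exists_labels (n l k m : ℕ) : ∃ u : Fin n → Fin k → ZMod 2,
    2 ^ m * ((words n l).filter (fun w => (ones w).card = k + m ∧
      ∃ a, a ≠ 0 ∧ ∀ i ∈ ones w, a ⬝ᵥ u i = 0)).card
      ≤ ((words n l).filter (fun w => (ones w).card = k + m)).card := by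
  classical
  set A := (words n l).filter (fun w => (ones w).card = k + m) with hA
  have h1 : ∑ u : Fin n → Fin k → ZMod 2,
      (A.filter (fun w => ∃ a, a ≠ 0 ∧ ∀ i ∈ ones w, a ⬝ᵥ u i = 0)).card
      = ∑ w ∈ A, (univ.filter (fun u : Fin n → Fin k → ZMod 2 =>
        ∃ a, a ≠ 0 ∧ ∀ i ∈ ones w, a ⬝ᵥ u i = 0)).card :=
    sum_card_bipartiteAbove_eq_sum_card_bipartiteBelow
      (fun (u : Fin n → Fin k → ZMod 2) w => ∃ a, a ≠ 0 ∧ ∀ i ∈ ones w, a ⬝ᵥ u i = 0)
  have h2 : ∑ u : Fin n → Fin k → ZMod 2,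
      2 ^ m * (A.filter (fun w => ∃ a, a ≠ 0 ∧ ∀ i ∈ ones w, a ⬝ᵥ u i = 0)).card
      ≤ ∑ _u : Fin n → Fin k → ZMod 2, A.card := by
    rw [← mul_sum, h1, mul_sum, sum_const, card_univ, smul_eq_mul, mul_comm, ← smul_eq_mul,
      ← sum_const]
    refine sum_le_sum (fun w hw => ?_)
    rw [hA, mem_filter] at hw
    exact card_bad (ones w) m hw.2
  obtain ⟨u, _, hu⟩ := exists_le_of_sum_le univ_nonempty h2
  refine ⟨u, ?_⟩
  have h3 : (words n l).filter (fun w => (ones w).card = k + m ∧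
      ∃ a, a ≠ 0 ∧ ∀ i ∈ ones w, a ⬝ᵥ u i = 0)
      = A.filter (fun w => ∃ a, a ≠ 0 ∧ ∀ i ∈ ones w, a ⬝ᵥ u i = 0) := by
    rw [hA, filter_filter]
  rw [h3]
  exact hu

/-- The covering family. -/
lemma exists_cov (n l t h m : ℕ) (hh : 1 ≤ h) (hht : 2 * h ≤ t) (hm : m ≤ h)
    (hmh : h + 2 ≤ 2 ^ (h - m)) : ∃ S : Finset (W n), WCov (l + t) l S ∧
    2 ^ m * S.card ≤ 2 ^ m * ((words n l).filter (fun w => (ones w).card < m)).card
      + (words n l).card := by
  classical
  choose u hu using fun k => exists_labels n l k m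
  set S₁ := (words n l).filter (fun w => (ones w).card < m) with hS₁
  set S₂ := (words n l).filter (fun w => ∃ k, (ones w).card = k + m ∧
      ∃ a : Fin k → ZMod 2, a ≠ 0 ∧ ∀ i ∈ ones w, a ⬝ᵥ u k i = 0) with hS₂
  refine ⟨S₁ ∪ S₂, ⟨?_, ?_⟩, ?_⟩
  · intro w hw
    rcases mem_union.mp hw with hw | hw
    · exact mem_words.mp (mem_filter.mp hw).1
    · exact mem_words.mp (mem_filter.mp hw).1
  · intro x hx
    obtain ⟨BZ, hBZ, hBZc⟩ := exists_subset_card_eq (show t ≤ (stars x).card by omega)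
    obtain ⟨B, hB, hBc⟩ := exists_subset_card_eq (show 2 * h ≤ BZ.card by omega)
    -- the words below `x`
    let wd : Finset (Fin n) → W n := fun U i =>
      if i ∈ U then some true else if i ∈ BZ then some false else x i
    have hwd : ∀ U ⊆ B, Below (wd U) x ∧ (stars (wd U)).card = l ∧
        (ones (wd U)) = ones x ∪ U := by
      intro U hU
      have hUB : U ⊆ BZ := hU.trans hB
      refine ⟨?_, ?_, ?_⟩
      · intro i
        by_cases hi : i ∈ BZ
        · left; exact mem_stars.mp (hBZ hi)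
        · right
          have : i ∉ U := fun h => hi (hUB h)
          simp [wd, this, hi]
      · have : stars (wd U) = stars x \ BZ := by
          ext i
          rw [mem_stars, mem_sdiff, mem_stars]
          by_cases hi : i ∈ U
          · simp [wd, hi, hUB hi]
          · by_cases hi' : i ∈ BZ
            · simp [wd, hi, hi']
            · simp [wd, hi, hi']
        rw [this, card_sdiff_of_subset hBZ, hx, hBZc]
        omega
      · ext i
        rw [mem_ones, mem_union, mem_ones]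
        by_cases hi : i ∈ U
        · simp [wd, hi]
        · by_cases hi' : i ∈ BZ
          · have := mem_stars.mp (hBZ hi')
            simp [wd, hi, hi', this]
          · simp [wd, hi, hi']
    have hdisj : ∀ U ⊆ B, (ones x ∪ U).card = (ones x).card + U.card := by
      intro U hU
      refine card_union_of_disjoint ?_
      rw [disjoint_left]
      intro i hi hi'
      have := mem_stars.mp (hBZ (hB (hU hi')))
      rw [mem_ones, this] at hi
      exact absurd hi (by simp)
    rcases lt_or_ge ((ones x).card + h) m with hlt | hge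
    · obtain ⟨U, hU, hUc⟩ := exists_subset_card_eq (show h ≤ B.card by omega)
      obtain ⟨h1, h2, h3⟩ := hwd U hU
      refine ⟨wd U, mem_union_left _ ?_, h1⟩
      rw [hS₁, mem_filter, mem_words, h3, hdisj U hU, hUc]
      exact ⟨h2, hlt⟩
    · obtain ⟨k, hk⟩ : ∃ k, (ones x).card + h = k + m := ⟨(ones x).card + h - m, by omega⟩
      have h4 : h + 2 ≤ (Lam (u k) (ones x)).card := by
        have h5 := card_Lam (u k) (ones x)
        have h6 : k = (ones x).card + (h - m) := by omega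
        have h7 : 2 ^ (ones x).card * 2 ^ (h - m) ≤ 2 ^ (ones x).card * (Lam (u k) (ones x)).card := by
          rw [← pow_add, ← h6]; exact h5
        exact hmh.trans (Nat.le_of_mul_le_mul_left h7 (by positivity))
      obtain ⟨a, ha, ha0, hz⟩ := exists_many_zeros (u k) (ones x) B h hBc hh h4
      obtain ⟨U, hU, hUc⟩ := exists_subset_card_eq hz
      have hUB : U ⊆ B := hU.trans (filter_subset _ _)
      obtain ⟨h1, h2, h3⟩ := hwd U hUB
      refine ⟨wd U, mem_union_right _ ?_, h1⟩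
      rw [hS₂, mem_filter, mem_words]
      refine ⟨h2, k, ?_, a, ha0, ?_⟩
      · rw [h3, hdisj U hUB, hUc, hk]
      · intro i hi
        rw [h3] at hi
        rcases mem_union.mp hi with hi | hi
        · exact mem_Lam.mp ha i hi
        · exact (mem_filter.mp (hU hi)).2
  · have h1 : 2 ^ m * S₂.card ≤ (words n l).card := by
      have h2 : S₂.card ≤ ∑ k ∈ range (n + 1), ((words n l).filter (fun w => (ones w).card = k + m ∧
          ∃ a : Fin k → ZMod 2, a ≠ 0 ∧ ∀ i ∈ ones w, a ⬝ᵥ u k i = 0)).card := by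
        refine le_trans (card_le_card ?_) card_biUnion_le
        intro w hw
        rw [hS₂, mem_filter] at hw
        obtain ⟨hw, k, hk⟩ := hw
        rw [mem_biUnion]
        refine ⟨k, ?_, mem_filter.mpr ⟨hw, hk⟩⟩
        have := card_le_univ (ones w)
        rw [Fintype.card_fin] at this
        rw [mem_range]; omega
      have h3 : ∑ k ∈ range (n + 1), ((words n l).filter (fun w => (ones w).card = k + m)).card
          ≤ (words n l).card := by
        rw [← card_biUnion]
        · refine card_le_card ?_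
          intro w hw
          rw [mem_biUnion] at hw
          obtain ⟨k, _, hw⟩ := hw
          exact (mem_filter.mp hw).1
        · intro k _ k' _ hkk
          rw [Function.onFun, disjoint_left]
          intro w hw hw'
          rw [mem_filter] at hw hw'
          omega
      calc 2 ^ m * S₂.card ≤ 2 ^ m * ∑ k ∈ range (n + 1), ((words n l).filter (fun w =>
          (ones w).card = k + m ∧
          ∃ a : Fin k → ZMod 2, a ≠ 0 ∧ ∀ i ∈ ones w, a ⬝ᵥ u k i = 0)).card :=
            Nat.mul_le_mul_left _ h2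
        _ = ∑ k ∈ range (n + 1), 2 ^ m * ((words n l).filter (fun w => (ones w).card = k + m ∧
          ∃ a : Fin k → ZMod 2, a ≠ 0 ∧ ∀ i ∈ ones w, a ⬝ᵥ u k i = 0)).card := mul_sum _ _ _
        _ ≤ ∑ k ∈ range (n + 1), ((words n l).filter (fun w => (ones w).card = k + m)).card :=
            sum_le_sum (fun k _ => hu k)
        _ ≤ _ := h3
    calc 2 ^ m * (S₁ ∪ S₂).card ≤ 2 ^ m * (S₁.card + S₂.card) :=
          Nat.mul_le_mul_left _ (card_union_le _ _)
      _ = 2 ^ m * S₁.card + 2 ^ m * S₂.card := by ring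
      _ ≤ _ := by omega

end Pool.Agent.Lib.MP_7c0edd_co.H21
end

section
/-!
# The order of magnitude of the logarithm of the limiting density
-/
namespace Pool.Agent.Lib.MP_7c0edd_co.H21

open Finset

lemma card_small_sets (n m : ℕ) (hn : 1 ≤ n) :
    ((univ : Finset (Finset (Fin n))).filter (fun O => O.card < m)).card ≤ m * n ^ m := by
  classical
  have h1 : ((univ : Finset (Finset (Fin n))).filter (fun O => O.card < m)).card
      = ∑ r ∈ range m, (((univ : Finset (Finset (Fin n))).filter (fun O => O.card < m)).filter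
        (fun O => O.card = r)).card := by
    refine card_eq_sum_card_fiberwise (fun O hO => ?_)
    rw [mem_coe, mem_filter] at hO
    exact mem_coe.mpr (mem_range.mpr hO.2)
  rw [h1]
  calc _ ≤ ∑ _r ∈ range m, n ^ m := by
        refine sum_le_sum (fun r hr => ?_)
        rw [mem_range] at hr
        have h2 : (((univ : Finset (Finset (Fin n))).filter (fun O => O.card < m)).filter
          (fun O => O.card = r)) ⊆ (univ : Finset (Fin n)).powersetCard r := by
          intro O hO
          rw [mem_filter] at hO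
          rw [mem_powersetCard]
          exact ⟨subset_univ _, hO.2⟩
        refine (card_le_card h2).trans ?_
        rw [card_powersetCard, card_univ, Fintype.card_fin]
        exact (Nat.choose_le_pow n r).trans (Nat.pow_le_pow_right hn hr.le)
    _ = _ := by rw [sum_const, card_range, smul_eq_mul]

lemma card_small_ones (n l m : ℕ) (hn : 1 ≤ n) :
    ((words n l).filter (fun w => (ones w).card < m)).card ≤ n.choose l * (m * n ^ m) := by
  classical
  calc ((words n l).filter (fun w => (ones w).card < m)).card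
      ≤ ((univ : Finset (Fin n)).powersetCard l ×ˢ
        ((univ : Finset (Finset (Fin n))).filter (fun O => O.card < m))).card := by
        refine card_le_card_of_injOn (fun w => (stars w, ones w)) ?_ ?_
        · intro w hw
          rw [mem_coe, mem_filter, mem_words] at hw
          rw [mem_coe, mem_product, mem_powersetCard, mem_filter]
          exact ⟨⟨subset_univ _, hw.1⟩, mem_univ _, hw.2⟩
        · intro w _ w' _ h
          simp only [Prod.mk.injEq] at h
          funext i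
          rcases hw : w i with _ | b
          · have : i ∈ stars w' := by rw [← h.1]; exact mem_stars.mpr hw
            exact (mem_stars.mp this).symm
          · cases b
            · rcases hw' : w' i with _ | b'
              · have : i ∈ stars w := by rw [h.1]; exact mem_stars.mpr hw'
                rw [mem_stars, hw] at this
                exact absurd this (by simp)
              · cases b'
                · rfl
                · have : i ∈ ones w := by rw [h.2]; exact mem_ones.mpr hw'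
                  rw [mem_ones, hw] at this
                  exact absurd this (by simp)
            · have : i ∈ ones w' := by rw [← h.2]; exact mem_ones.mpr hw
              exact (mem_ones.mp this).symm
    _ = n.choose l * ((univ : Finset (Finset (Fin n))).filter (fun O => O.card < m)).card := by
        rw [card_product, card_powersetCard, card_univ, Fintype.card_fin]
    _ ≤ _ := Nat.mul_le_mul_left _ (card_small_sets n m hn)

theorem cLim_le_two_pow {l t h m : ℕ} (hh : 1 ≤ h) (hht : 2 * h ≤ t) (hm : m ≤ h)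
    (hmh : h + 2 ≤ 2 ^ (h - m)) : cLim (l + t) l ≤ 1 / 2 ^ m := by
  have h1 := tendsto_c (d := l + t) (l := l) (by omega)
  have h2 : Filter.Tendsto (fun n : ℕ => (1 : ℝ) / 2 ^ m + m * 2 ^ l * ((n : ℝ) ^ m / 2 ^ n))
      Filter.atTop (nhds (1 / 2 ^ m)) := by
    have h3 : Filter.Tendsto (fun n : ℕ => (n : ℝ) ^ m / 2 ^ n) Filter.atTop (nhds 0) :=
      tendsto_pow_const_div_const_pow_of_one_lt m (by norm_num)
    have h4 := (h3.const_mul ((m : ℝ) * 2 ^ l)).const_add (1 / 2 ^ m)
    simpa using h4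
  refine le_of_tendsto_of_tendsto h1 h2 ?_
  filter_upwards [Filter.eventually_ge_atTop (l + 1)] with n hn
  obtain ⟨S, hS, hSc⟩ := exists_cov n l t h m hh hht hm hmh
  have h5 := f_le_card hS
  have h6 := card_small_ones n l m (by omega)
  have h7 : 2 ^ m * f n (l + t) l ≤ 2 ^ m * (n.choose l * (m * n ^ m)) + (words n l).card :=
    calc 2 ^ m * f n (l + t) l ≤ 2 ^ m * S.card := Nat.mul_le_mul_left _ h5
      _ ≤ _ := hSc
      _ ≤ _ := Nat.add_le_add_right (Nat.mul_le_mul_left _ h6) _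
  rw [card_words] at h7
  have h8 : (2 : ℝ) ^ m * f n (l + t) l ≤ 2 ^ m * (n.choose l * (m * (n : ℝ) ^ m))
      + 2 ^ (n - l) * n.choose l := by exact_mod_cast h7
  have hp : (0 : ℝ) < n.choose l := by exact_mod_cast Nat.choose_pos (by omega)
  have hpow : (2 : ℝ) ^ n = 2 ^ l * 2 ^ (n - l) := by rw [← pow_add]; congr 1; omega
  unfold c
  rw [div_le_iff₀ (by positivity)]
  have h9 : (f n (l + t) l : ℝ) ≤ (n.choose l * (m * (n : ℝ) ^ m)) + 2 ^ (n - l) * n.choose l / 2 ^ m := by
    have h2m : (0 : ℝ) < 2 ^ m := by positivity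
    rw [← mul_le_mul_iff_right₀ h2m]
    refine h8.trans (le_of_eq ?_)
    field_simp
  refine h9.trans (le_of_eq ?_)
  rw [hpow]
  field_simp
  ring

/-- parity of the number of ones -/
theorem cLim_le_half {l d : ℕ} (hl : l < d) : cLim d l ≤ 1 / 2 := by
  classical
  refine ciSup_le (fun n => ?_)
  rcases Nat.lt_or_ge n l with hn | hn
  · have : c n d l = 0 := by
      unfold c
      rw [Nat.choose_eq_zero_of_lt hn]; simp
    rw [this]; norm_num
  have hcov : ∀ p < 2, WCov d l ((words n l).filter (fun w => (ones w).card % 2 = p)) := by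
    intro p hp
    refine ⟨fun w hw => mem_words.mp (mem_filter.mp hw).1, fun x hx => ?_⟩
    obtain ⟨A, hA, hAc⟩ := exists_subset_card_eq (show d - l ≤ (stars x).card by omega)
    obtain ⟨i₀, hi₀⟩ : A.Nonempty := card_pos.mp (by omega)
    let wd : Finset (Fin n) → W n := fun U i =>
      if i ∈ U then some true else if i ∈ A then some false else x i
    have hwd : ∀ U ⊆ A, Below (wd U) x ∧ (stars (wd U)).card = l ∧
        (ones (wd U)).card = (ones x).card + U.card := by
      intro U hU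
      refine ⟨?_, ?_, ?_⟩
      · intro i
        by_cases hi : i ∈ A
        · left; exact mem_stars.mp (hA hi)
        · right
          have : i ∉ U := fun h => hi (hU h)
          simp [wd, this, hi]
      · have : stars (wd U) = stars x \ A := by
          ext i
          rw [mem_stars, mem_sdiff, mem_stars]
          by_cases hi : i ∈ U
          · simp [wd, hi, hU hi]
          · by_cases hi' : i ∈ A
            · simp [wd, hi, hi']
            · simp [wd, hi, hi']
        rw [this, card_sdiff_of_subset hA, hx, hAc]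
        omega
      · have : ones (wd U) = ones x ∪ U := by
          ext i
          rw [mem_ones, mem_union, mem_ones]
          by_cases hi : i ∈ U
          · simp [wd, hi]
          · by_cases hi' : i ∈ A
            · have := mem_stars.mp (hA hi')
              simp [wd, hi, hi', this]
            · simp [wd, hi, hi']
        rw [this]
        refine card_union_of_disjoint ?_
        rw [disjoint_left]
        intro i hi hi'
        have := mem_stars.mp (hA (hU hi'))
        rw [mem_ones, this] at hi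
        exact absurd hi (by simp)
    by_cases hpar : (ones x).card % 2 = p
    · obtain ⟨h1, h2, h3⟩ := hwd ∅ (empty_subset _)
      exact ⟨wd ∅, by rw [mem_filter, mem_words, h3]; exact ⟨h2, by simpa using hpar⟩, h1⟩
    · obtain ⟨h1, h2, h3⟩ := hwd {i₀} (singleton_subset_iff.mpr hi₀)
      refine ⟨wd {i₀}, ?_, h1⟩
      rw [mem_filter, mem_words, h3, card_singleton]
      exact ⟨h2, by omega⟩
  have h0 := f_le_card (hcov 0 (by norm_num))
  have h1 := f_le_card (hcov 1 (by norm_num))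
  have h2 : ((words n l).filter (fun w => (ones w).card % 2 = 0)).card
      + ((words n l).filter (fun w => (ones w).card % 2 = 1)).card = (words n l).card := by
    rw [← card_filter_add_card_filter_not (s := words n l) (fun w => (ones w).card % 2 = 0)]
    congr 2
    ext w
    rw [mem_filter, mem_filter]
    refine and_congr_right (fun _ => ?_)
    omega
  have h3 : 2 * f n d l ≤ 2 ^ (n - l) * n.choose l := by
    rw [← card_words]; omega
  have h4 : (2 : ℝ) * f n d l ≤ 2 ^ (n - l) * n.choose l := by exact_mod_cast h3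
  have hp : (0 : ℝ) < n.choose l := by exact_mod_cast Nat.choose_pos hn
  unfold c
  rw [div_le_iff₀ (by positivity)]
  linarith

lemma two_mul_add_two_le (s : ℕ) (hs : 3 ≤ s) : 2 * s + 2 ≤ 2 ^ s := by
  induction s, hs using Nat.le_induction with
  | base => norm_num
  | succ s hs ih => rw [pow_succ]; omega

theorem cLim_le_exp {l t : ℕ} (ht : 1 ≤ t) : cLim (l + t) l ≤ (2 : ℝ) ^ (-(t : ℝ) / 10) := by
  rcases Nat.lt_or_ge t 10 with h | h
  · refine (cLim_le_half (by omega)).trans ?_
    have h1 : (1 / 2 : ℝ) = (2 : ℝ) ^ (-1 : ℝ) := by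
      rw [Real.rpow_neg_one]; norm_num
    rw [h1]
    refine Real.rpow_le_rpow_of_exponent_le (by norm_num) ?_
    have : (t : ℝ) ≤ 10 := by exact_mod_cast h.le
    linarith
  · have hs : 3 ≤ t / 2 - t / 2 / 2 := by omega
    have h1 := cLim_le_two_pow (l := l) (t := t) (h := t / 2) (m := t / 2 / 2) (by omega) (by omega)
      (by omega) (by
        have := two_mul_add_two_le _ hs
        omega)
    refine h1.trans ?_
    have h2 : (1 : ℝ) / 2 ^ (t / 2 / 2) = (2 : ℝ) ^ (-((t / 2 / 2 : ℕ) : ℝ)) := by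
      rw [Real.rpow_neg (by norm_num), Real.rpow_natCast, one_div]
    rw [h2]
    refine Real.rpow_le_rpow_of_exponent_le (by norm_num) ?_
    have h3 : t ≤ 10 * (t / 2 / 2) := by omega
    have h4 : (t : ℝ) ≤ 10 * ((t / 2 / 2 : ℕ) : ℝ) := by exact_mod_cast h3
    linarith

lemma Good.cLim_le {l d : ℕ} {a : ℝ} (h : Good l d a) (ha : 0 ≤ a) : cLim d l ≤ a := by
  refine ciSup_le (fun n => ?_)
  rcases Nat.lt_or_ge n l with hn | hn
  · have : c n d l = 0 := by
      unfold c
      rw [Nat.choose_eq_zero_of_lt hn]; simp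
    rw [this]; exact ha
  have hp : (0 : ℝ) < n.choose l := by exact_mod_cast Nat.choose_pos hn
  unfold c
  rw [div_le_iff₀ (by positivity)]
  exact h.f_le n

lemma Rat.cLim_le {τ l : ℕ} {D : ℝ} (h : Rat τ l D) (hD : 0 ≤ D) :
    cLim (l + τ) l ≤ D / KK τ l :=
  Good.cLim_le h (div_nonneg hD (KK_pos _ _).le)

lemma one_le_KK (τ l : ℕ) : 1 ≤ KK τ l := by
  unfold KK
  have h1 : (1 : ℝ) ≤ 2 ^ τ := one_le_pow₀ (by norm_num)
  have h2 : (1 : ℝ) ≤ ((l + τ).choose τ : ℝ) := by exact_mod_cast Nat.choose_pos (by omega)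
  nlinarith

/-- `log (1 / c_d^(l))` has the same order of magnitude as `log (2^(d-l) (d choose l))`,
uniformly in all pairs `l < d`. -/
theorem cLim_le_rpow : ∃ α : ℝ, 0 < α ∧ ∀ l t : ℕ, 1 ≤ t →
    cLim (l + t) l ≤ (KK t l) ^ (-α) := by
  obtain ⟨K, hK1, hK⟩ := rat_uniform (ε := 1) (by norm_num)
  set K' : ℕ := 2 * K ^ 2 with hK'
  have hKK' : K ≤ K' := by rw [hK']; nlinarith
  refine ⟨1 / (10 * ((K' : ℝ) + 2)), by positivity, fun l t ht => ?_⟩
  have hN1 := one_le_KK t l
  have hNpos := KK_pos t l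
  have hKpos : (1 : ℝ) ≤ K := by exact_mod_cast hK1
  rcases Nat.lt_or_ge l (K' * t) with h | h
  · -- few stars
    refine (cLim_le_exp ht).trans ?_
    have h1 : KK t l ≤ (2 : ℝ) ^ (((K' : ℝ) + 2) * t) := by
      have h2 : (l + t).choose t ≤ 2 ^ (l + t) := Nat.choose_le_two_pow _ _
      have h3 : ((l + t).choose t : ℝ) ≤ 2 ^ (l + t) := by exact_mod_cast h2
      have h4 : KK t l ≤ (2 : ℝ) ^ (t + (l + t)) := by
        unfold KK
        rw [pow_add]
        gcongr
      refine h4.trans ?_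
      rw [← Real.rpow_natCast]
      refine Real.rpow_le_rpow_of_exponent_le (by norm_num) ?_
      have h5 : t + (l + t) ≤ (K' + 2) * t := by nlinarith
      exact_mod_cast h5
    have h6 : (2 : ℝ) ^ (-(t : ℝ) / 10) = ((2 : ℝ) ^ (((K' : ℝ) + 2) * t)) ^ (-(1 / (10 * ((K' : ℝ) + 2)))) := by
      rw [← Real.rpow_mul (by norm_num)]
      congr 1
      field_simp
    rw [h6]
    exact Real.rpow_le_rpow_of_nonpos hNpos h1 (by
      rw [neg_nonpos]; positivity)
  · -- many stars
    have h1 := (hK t ht l (le_trans (Nat.mul_le_mul_right _ hKK') h)).cLim_le (by positivity)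
    refine h1.trans ?_
    have h2 : ((K : ℝ) * (1 + 1) ^ t) ^ 2 ≤ KK t l := by
      have h3 := choose_lower l t
      have htpos : (0 : ℝ) < t := by exact_mod_cast ht
      have h4 : (t.factorial : ℝ) ≤ (t : ℝ) ^ t := by exact_mod_cast Nat.factorial_le_pow t
      have h5 : ((K' : ℝ) * t) ^ t ≤ ((l : ℝ) + 1) ^ t := by
        have : (K' : ℝ) * t ≤ (l : ℝ) + 1 := by
          have : (K' : ℝ) * t ≤ l := by exact_mod_cast h
          linarith
        gcongr
      have h6 : (K' : ℝ) ^ t * (t : ℝ) ^ t ≤ ((l + t).choose t : ℝ) * (t : ℝ) ^ t := by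
        rw [← mul_pow]
        calc ((K' : ℝ) * t) ^ t ≤ _ := h5
          _ ≤ _ := h3
          _ ≤ _ := by gcongr
      have h7 : (K' : ℝ) ^ t ≤ ((l + t).choose t : ℝ) := le_of_mul_le_mul_right h6 (by positivity)
      have h8 : (K : ℝ) ^ 2 ≤ ((K : ℝ) ^ 2) ^ t := by
        have h9 : (1 : ℝ) ≤ (K : ℝ) ^ 2 := one_le_pow₀ hKpos
        exact le_self_pow₀ h9 (by omega)
      unfold KK
      calc ((K : ℝ) * (1 + 1) ^ t) ^ 2 = (K : ℝ) ^ 2 * (2 ^ t * 2 ^ t) := by ring
        _ ≤ ((K : ℝ) ^ 2) ^ t * (2 ^ t * 2 ^ t) := by gcongr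
        _ = 2 ^ t * (2 * (K : ℝ) ^ 2) ^ t := by rw [mul_pow]; ring
        _ = 2 ^ t * (K' : ℝ) ^ t := by rw [hK']; push_cast; ring
        _ ≤ _ := by gcongr
    have h10 : (K : ℝ) * (1 + 1) ^ t ≤ (KK t l) ^ (1 / 2 : ℝ) := by
      rw [← Real.sqrt_eq_rpow]
      exact Real.le_sqrt_of_sq_le h2
    have h11 : (KK t l) ^ (1 / 2 : ℝ) / KK t l = (KK t l) ^ (-(1 / 2) : ℝ) := by
      rw [show (-(1 / 2) : ℝ) = 1 / 2 - 1 by norm_num, Real.rpow_sub_one hNpos.ne']
    calc (K : ℝ) * (1 + 1) ^ t / KK t l ≤ (KK t l) ^ (1 / 2 : ℝ) / KK t l := by gcongr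
      _ = (KK t l) ^ (-(1 / 2) : ℝ) := h11
      _ ≤ _ := by
        refine Real.rpow_le_rpow_of_exponent_le hN1 ?_
        have : 1 / (10 * ((K' : ℝ) + 2)) ≤ 1 / 2 := by
          refine one_div_le_one_div_of_le (by norm_num) ?_
          have : (0 : ℝ) ≤ K' := by positivity
          linarith
        linarith

end Pool.Agent.Lib.MP_7c0edd_co.H21
end

section
/-!
# Final forms of the upper bounds
-/
namespace Pool.Agent.Lib.MP_7c0edd_co.H21

open Finset

/-- The number of `l`-subcubes of a `d`-cube. -/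
noncomputable def numSub (d l : ℕ) : ℝ := 2 ^ (d - l) * (d.choose l : ℝ)

lemma numSub_add (l t : ℕ) : numSub (l + t) l = KK t l := by
  unfold numSub KK
  rw [Nat.add_sub_cancel_left, Nat.choose_symm_add]

lemma aa_le (t : ℕ) : 1008 * aa t + 1 ≤ 4034 * (((t + 1 : ℕ) : ℝ) * Real.log (((t + 1 : ℕ) : ℝ) + 1)) := by
  have hcast : ((t + 1 : ℕ) : ℝ) = (t : ℝ) + 1 := by push_cast; rfl
  rw [hcast]
  have ht : (0 : ℝ) ≤ t := by positivity
  have h2 : Real.log 2 ≤ Real.log ((t : ℝ) + 1 + 1) := Real.log_le_log (by norm_num) (by linarith)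
  have hl2 : 0.6931471803 < Real.log 2 := Real.log_two_gt_d9
  have h4 : Real.log 4 = 2 * Real.log 2 := by
    rw [show (4 : ℝ) = 2 ^ 2 by norm_num, Real.log_pow]; norm_num
  have h3 : Real.log ((t : ℝ) + 4) ≤ 2 * Real.log ((t : ℝ) + 1 + 1) := by
    have h5 : 2 * Real.log ((t : ℝ) + 1 + 1) = Real.log (((t : ℝ) + 1 + 1) ^ 2) := by
      rw [Real.log_pow]; norm_num
    rw [h5]
    exact Real.log_le_log (by linarith) (by nlinarith)
  set X := Real.log ((t : ℝ) + 1 + 1) with hX
  have hX0 : 0.69 < X := by linarith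
  have h6 : ((t : ℝ) + 1) * Real.log ((t : ℝ) + 4) ≤ ((t : ℝ) + 1) * (2 * X) := by gcongr
  have h7 : X ≤ ((t : ℝ) + 1) * X := by nlinarith
  unfold aa
  rw [h4]
  nlinarith

theorem fixed_codim : ∃ C : ℝ, ∀ t : ℕ, 1 ≤ t → ∃ l₀ : ℕ, ∀ l, l₀ ≤ l →
    cLim (l + t) l ≤ C * (t * Real.log (t + 1)) / numSub (l + t) l := by
  refine ⟨4034, fun t ht => ?_⟩
  obtain ⟨s, rfl⟩ : ∃ s, t = s + 1 := ⟨t - 1, by omega⟩
  obtain ⟨l₀, hl₀⟩ := rat_base s
  refine ⟨l₀, fun l hl => ?_⟩
  rw [numSub_add]
  have ha := aa_pos s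
  refine ((hl₀ l hl).mono (aa_le s)).cLim_le ?_
  linarith [aa_le s]

theorem uniform_bound (ε : ℝ) (hε : 0 < ε) : ∃ K : ℕ, 1 ≤ K ∧ ∀ t l : ℕ, 1 ≤ t → K * t ≤ l →
    cLim (l + t) l ≤ K * (1 + ε) ^ t / numSub (l + t) l := by
  obtain ⟨K, hK1, hK⟩ := rat_uniform hε
  refine ⟨K, hK1, fun t l ht hl => ?_⟩
  rw [numSub_add]
  exact (hK t ht l hl).cLim_le (by positivity)

lemma KK_ge_pow {t l K : ℕ} (hl : K * t ≤ l) : (2 * (K : ℝ)) ^ t ≤ KK t l := by
  rcases Nat.eq_zero_or_pos t with rfl | ht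
  · rw [pow_zero]; exact one_le_KK 0 l
  have h3 := choose_lower l t
  have htpos : (0 : ℝ) < t := by exact_mod_cast ht
  have h4 : (t.factorial : ℝ) ≤ (t : ℝ) ^ t := by exact_mod_cast Nat.factorial_le_pow t
  have h5 : ((K : ℝ) * t) ^ t ≤ ((l : ℝ) + 1) ^ t := by
    have : (K : ℝ) * t ≤ (l : ℝ) + 1 := by
      have : (K : ℝ) * t ≤ l := by exact_mod_cast hl
      linarith
    gcongr
  have h6 : (K : ℝ) ^ t * (t : ℝ) ^ t ≤ ((l + t).choose t : ℝ) * (t : ℝ) ^ t := by
    rw [← mul_pow]
    calc ((K : ℝ) * t) ^ t ≤ _ := h5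
      _ ≤ _ := h3
      _ ≤ _ := by gcongr
  have h7 : (K : ℝ) ^ t ≤ ((l + t).choose t : ℝ) := le_of_mul_le_mul_right h6 (by positivity)
  unfold KK
  rw [mul_pow]
  gcongr

/-- On the logarithmic scale the counting bound is sharp when `(d - l) / d` tends to `0`. -/
theorem log_sharp (η : ℝ) (hη : 0 < η) : ∃ K : ℕ, ∀ t l : ℕ, 1 ≤ t → K * t ≤ l →
    cLim (l + t) l ≤ (numSub (l + t) l) ^ (-(1 - η)) := by
  obtain ⟨K₁, hK₁, hK⟩ := uniform_bound 1 (by norm_num)
  have hK₁' : (1 : ℝ) ≤ K₁ := by exact_mod_cast hK₁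
  obtain ⟨K, hKK⟩ := exists_nat_ge (max (K₁ : ℝ) ((2 * (K₁ : ℝ)) ^ (1 / η)))
  have hKa : (K₁ : ℝ) ≤ K := (le_max_left _ _).trans hKK
  have hKb : (2 * (K₁ : ℝ)) ^ (1 / η) ≤ K := (le_max_right _ _).trans hKK
  have hKa' : K₁ ≤ K := by exact_mod_cast hKa
  refine ⟨K, fun t l ht hl => ?_⟩
  refine (hK t l ht (le_trans (Nat.mul_le_mul_right _ hKa') hl)).trans ?_
  rw [numSub_add]
  have hN := KK_pos t l
  have hKpos : (0 : ℝ) < K := by linarith
  have h1 : (K₁ : ℝ) * (1 + 1) ^ t ≤ (KK t l) ^ η := by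
    have h2 : (2 * (K₁ : ℝ)) ≤ (2 * (K : ℝ)) ^ η := by
      calc (2 * (K₁ : ℝ)) = ((2 * (K₁ : ℝ)) ^ (1 / η)) ^ η := by
            rw [← Real.rpow_mul (by positivity), one_div, inv_mul_cancel₀ hη.ne', Real.rpow_one]
        _ ≤ (2 * (K : ℝ)) ^ η := by
            refine Real.rpow_le_rpow (by positivity) ?_ hη.le
            linarith
    calc (K₁ : ℝ) * (1 + 1) ^ t ≤ (K₁ : ℝ) ^ t * (1 + 1) ^ t := by
          have := le_self_pow₀ hK₁' (show t ≠ 0 by omega)
          gcongr
      _ = (2 * (K₁ : ℝ)) ^ t := by rw [← mul_pow]; congr 1; ring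
      _ ≤ ((2 * (K : ℝ)) ^ η) ^ t := by gcongr
      _ = ((2 * (K : ℝ)) ^ t) ^ η := by
          rw [← Real.rpow_natCast, ← Real.rpow_natCast, ← Real.rpow_mul (by positivity),
            ← Real.rpow_mul (by positivity), mul_comm η (t : ℝ)]
      _ ≤ (KK t l) ^ η := Real.rpow_le_rpow (by positivity) (KK_ge_pow hl) hη.le
  calc (K₁ : ℝ) * (1 + 1) ^ t / KK t l ≤ (KK t l) ^ η / KK t l := by gcongr
    _ = (KK t l) ^ (-(1 - η)) := by
        rw [show (-(1 - η)) = η - 1 by ring, Real.rpow_sub_one hN.ne']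

theorem all_pairs : ∃ α : ℝ, 0 < α ∧ ∀ d l : ℕ, l < d → cLim d l ≤ (numSub d l) ^ (-α) := by
  obtain ⟨α, hα, h⟩ := cLim_le_rpow
  refine ⟨α, hα, fun d l hl => ?_⟩
  obtain ⟨t, rfl⟩ : ∃ t, d = l + t := ⟨d - l, by omega⟩
  rw [numSub_add]
  exact h l t (by omega)

end Pool.Agent.Lib.MP_7c0edd_co.H21
end
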