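import Pool.Agent.Lib.MP_7c0edd_co.helper21.Lists

/-!
# The gadget: random labels in a cyclic group
-/

set_option linter.unusedSectionVars false

namespace Pool.Agent.Lib.MP_7c0edd_co.H21

open Finset

/-- the contribution of one letter -/
def val {G : Type*} [Zero G] (o : Option Bool) (g : Bool → G) : G :=
  match o with
  | none => 0
  | some b => g b

/-- the sum of the labels of a word -/
def sv {G : Type*} [AddCommMonoid G] {n : ℕ} (φ : Fin n → Bool → G) (w : W n) : G :=
  ∑ i, val (w i) (φ i)

section fiber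

variable {M : ℕ} [NeZero M]

lemma card_fiber {X : Type*} [Fintype X] [DecidableEq X] (D : X → ZMod M)
    (T : ZMod M → X → X) (hT : ∀ c x, D (T c x) = D x + c)
    (hinj : ∀ c, Function.Injective (T c)) (a : ZMod M) :
    M * (univ.filter (fun x => D x = a)).card = Fintype.card X := by
  classical
  have h1 : ∀ b c : ZMod M, (univ.filter (fun x => D x = b)).card
      ≤ (univ.filter (fun x => D x = c)).card := by
    intro b c
    refine card_le_card_of_injOn (T (c - b)) ?_ ((hinj _).injOn)
    intro x hx
    rw [mem_coe, mem_filter] at hx ⊢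
    refine ⟨mem_univ _, ?_⟩
    rw [hT, hx.2]
    ring
  have h2 : Fintype.card X = ∑ c : ZMod M, (univ.filter (fun x => D x = c)).card := by
    rw [← card_univ]
    exact card_eq_sum_card_fiberwise (fun x _ => mem_coe.mpr (mem_univ _))
  rw [h2, sum_congr rfl (fun c _ => le_antisymm (h1 c a) (h1 a c)), sum_const, card_univ,
    ZMod.card, smul_eq_mul]

lemma sv_update {n : ℕ} (φ : Fin n → Bool → ZMod M) (i : Fin n) (b : Bool) (c : ZMod M) (w : W n) :
    sv (Function.update φ i (Function.update (φ i) b (φ i b + c))) w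
      = sv φ w + if w i = some b then c else 0 := by
  classical
  unfold sv
  have h : ∀ j, val (w j) (Function.update φ i (Function.update (φ i) b (φ i b + c)) j)
      = val (w j) (φ j) + if j = i then (if w i = some b then c else 0) else 0 := by
    intro j
    by_cases hj : j = i
    · subst hj
      rw [Function.update_self, if_pos rfl]
      rcases hw : w j with _ | b'
      · simp [val]
      · by_cases hb : b' = b
        · subst hb; simp [val]
        · simp [val, hb]
    · rw [Function.update_of_ne hj, if_neg hj, add_zero]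
  simp_rw [h]
  rw [sum_add_distrib, sum_ite_eq' univ i]
  simp

lemma update_injective {n : ℕ} (i : Fin n) (b : Bool) (c : ZMod M) :
    Function.Injective (fun φ : Fin n → Bool → ZMod M =>
      Function.update φ i (Function.update (φ i) b (φ i b + c))) := by
  intro φ ψ h
  funext j b'
  have h1 := congrFun (congrFun h j) b'
  simp only at h1
  by_cases hj : j = i
  · subst hj
    rw [Function.update_self, Function.update_self] at h1
    by_cases hb : b' = b
    · subst hb
      rw [Function.update_self, Function.update_self] at h1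
      exact add_right_cancel h1
    · rwa [Function.update_of_ne hb, Function.update_of_ne hb] at h1
  · rwa [Function.update_of_ne hj, Function.update_of_ne hj] at h1

lemma card_collision_aux {n : ℕ} {w w' : W n} {i : Fin n} {b : Bool} (h : w i = some b)
    (h' : w' i ≠ some b) :
    M * (univ.filter (fun φ : Fin n → Bool → ZMod M => sv φ w = sv φ w')).card
      = Fintype.card (Fin n → Bool → ZMod M) := by
  classical
  rw [← card_fiber (fun φ : Fin n → Bool → ZMod M => sv φ w - sv φ w')
    (fun c φ => Function.update φ i (Function.update (φ i) b (φ i b + c))) (fun c φ => by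
      rw [sv_update, sv_update, if_pos h, if_neg h']
      ring) (fun c => update_injective i b c) 0]
  congr 2
  ext φ
  rw [mem_filter, mem_filter, sub_eq_zero]

lemma card_collision {n : ℕ} {w w' : W n} (hne : w ≠ w') :
    M * (univ.filter (fun φ : Fin n → Bool → ZMod M => sv φ w = sv φ w')).card
      = Fintype.card (Fin n → Bool → ZMod M) := by
  obtain ⟨i, hi⟩ := Function.ne_iff.mp hne
  rcases hw : w i with _ | b
  · rcases hw' : w' i with _ | b'
    · rw [hw, hw'] at hi; exact absurd rfl hi
    · have := card_collision_aux (M := M) (w := w') (w' := w) hw' (by rw [hw]; simp)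
      rw [← this]
      congr 2
      ext φ
      rw [mem_filter, mem_filter, eq_comm]
  · exact card_collision_aux hw (by rw [← hw]; exact fun h => hi h.symm)

end fiber

/-- A generic count: the image of a set is large if there are few collisions. -/
lemma card_le_image_add_coll {α β : Type*} [DecidableEq α] [DecidableEq β] (A : Finset α)
    (h : α → β) :
    A.card ≤ (A.image h).card
      + ((A ×ˢ A).filter (fun q => q.1 ≠ q.2 ∧ h q.1 = h q.2)).card := by
  classical
  rcases A.eq_empty_or_nonempty with rfl | ⟨a₀, _⟩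
  · simp
  have hex : ∀ v, ∃ a, v ∈ A.image h → a ∈ A ∧ h a = v := by
    intro v
    by_cases hv : v ∈ A.image h
    · obtain ⟨a, ha, hav⟩ := mem_image.mp hv
      exact ⟨a, fun _ => ⟨ha, hav⟩⟩
    · exact ⟨a₀, fun h => absurd h hv⟩
  choose rep hrep using hex
  rw [← card_filter_add_card_filter_not (s := A) (fun a => a = rep (h a))]
  refine Nat.add_le_add ?_ ?_
  · refine card_le_card_of_injOn h ?_ ?_
    · intro a ha
      rw [mem_coe, mem_filter] at ha
      exact mem_coe.mpr (mem_image_of_mem _ ha.1)
    · intro a ha a' ha' haa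
      rw [mem_coe, mem_filter] at ha ha'
      rw [ha.2, ha'.2, haa]
  · refine card_le_card_of_injOn (fun a => (a, rep (h a))) ?_ ?_
    · intro a ha
      rw [mem_coe, mem_filter] at ha
      have := hrep (h a) (mem_image_of_mem _ ha.1)
      rw [mem_coe, mem_filter, mem_product]
      exact ⟨⟨ha.1, this.1⟩, ha.2, this.2.symm⟩
    · intro a _ a' _ haa
      exact (Prod.mk.inj haa).1

/-- words obtained from `y` by filling `m` stars, all in `U` -/
def sub1 {n : ℕ} (y : W n) (U : Finset (Fin n)) (m : ℕ) : Finset (W n) :=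
  univ.filter (fun w => Below w y ∧ stars y \ stars w ⊆ U ∧ (stars y \ stars w).card = m)

lemma mem_sub1 {n : ℕ} {y : W n} {U : Finset (Fin n)} {m : ℕ} {w : W n} :
    w ∈ sub1 y U m ↔ Below w y ∧ stars y \ stars w ⊆ U ∧ (stars y \ stars w).card = m := by
  simp [sub1]

lemma card_sub1 {n : ℕ} (y : W n) (U : Finset (Fin n)) (hU : U ⊆ stars y) (m : ℕ) :
    (sub1 y U m).card = 2 ^ m * U.card.choose m := by
  classical
  have h1 : (sub1 y U m).card
      = ∑ F ∈ U.powersetCard m, ((sub1 y U m).filter (fun w => stars y \ stars w = F)).card := by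
    refine card_eq_sum_card_fiberwise (f := fun w => stars y \ stars w) (fun w hw => ?_)
    rw [mem_coe, mem_powersetCard]
    exact (mem_sub1.mp hw).2
  rw [h1]
  have h2 : ∀ F ∈ U.powersetCard m,
      ((sub1 y U m).filter (fun w => stars y \ stars w = F)).card = 2 ^ m := by
    intro F hF
    rw [mem_powersetCard] at hF
    have h3 : (sub1 y U m).filter (fun w => stars y \ stars w = F)
        = Fintype.piFinset (fun i => if i ∈ F then {some false, some true} else {y i}) := by
      ext w
      rw [mem_filter, mem_sub1, Fintype.mem_piFinset]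
      constructor
      · rintro ⟨⟨hb, _, _⟩, h⟩ i
        by_cases hi : i ∈ F
        · simp only [hi, if_true]
          rw [← h, mem_sdiff, mem_stars, mem_stars] at hi
          rcases hw : w i with _ | b
          · exact absurd hw hi.2
          · cases b <;> simp
        · simp only [hi, if_false, mem_singleton]
          rw [← h, mem_sdiff, mem_stars, mem_stars] at hi
          push Not at hi
          rcases hb i with h4 | h4
          · rw [hi h4, h4]
          · exact h4
      · intro h
        have hb : Below w y := by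
          intro i
          have hi := h i
          by_cases hi' : i ∈ F
          · left
            exact mem_stars.mp (hU (hF.1 hi'))
          · right
            simpa [hi'] using hi
        have hs : stars y \ stars w = F := by
          ext i
          rw [mem_sdiff, mem_stars, mem_stars]
          have hi := h i
          by_cases hi' : i ∈ F
          · simp only [hi', if_true, mem_insert, mem_singleton] at hi
            have hy := mem_stars.mp (hU (hF.1 hi'))
            rcases hi with hi | hi <;> simp [hi', hi, hy]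
          · simp only [hi', if_false, mem_singleton] at hi
            simp only [hi', iff_false, not_and, not_not]
            intro hy
            rw [hi, hy]
        exact ⟨⟨hb, by rw [hs]; exact hF.1, by rw [hs]; exact hF.2⟩, hs⟩
    rw [h3, Fintype.card_piFinset]
    have h4 : ∀ i : Fin n, (if i ∈ F then ({some false, some true} : Finset (Option Bool))
        else {y i}).card = if i ∈ F then 2 else 1 := by
      intro i
      by_cases hi : i ∈ F <;> simp [hi]
    simp_rw [h4]
    rw [prod_ite, prod_const_one, mul_one, prod_const]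
    congr 1
    have : (univ.filter (fun i => i ∈ F)) = F := by ext; simp
    rw [this, hF.2]
  rw [sum_congr rfl h2, sum_const, card_powersetCard, smul_eq_mul, mul_comm]

section main

variable {M : ℕ} [NeZero M] {n : ℕ}

/-- few label functions have many collisions -/
lemma card_small_image (y : W n) (U : Finset (Fin n)) (m : ℕ) :
    ((univ.filter (fun φ : Fin n → Bool → ZMod M =>
        (((sub1 y U m).image (sv φ)).card : ℝ) < ((sub1 y U m).card : ℝ) / 2)).card : ℝ)
      ≤ 2 * (sub1 y U m).card / M * Fintype.card (Fin n → Bool → ZMod M) := by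
  classical
  set A := sub1 y U m with hA
  set Bad := univ.filter (fun φ : Fin n → Bool → ZMod M =>
        ((A.image (sv φ)).card : ℝ) < (A.card : ℝ) / 2) with hBad
  have hM : (0 : ℝ) < M := by exact_mod_cast Nat.pos_of_ne_zero (NeZero.ne M)
  set Tot : ℝ := ((Fintype.card (Fin n → Bool → ZMod M) : ℕ) : ℝ) with hTot
  have h1 : ∑ φ : Fin n → Bool → ZMod M,
      ((((A ×ˢ A).filter (fun q => q.1 ≠ q.2 ∧ sv φ q.1 = sv φ q.2)).card : ℕ) : ℝ)
        ≤ (A.card : ℝ) ^ 2 * (Tot / M) := by
    have h2 : ∑ φ : Fin n → Bool → ZMod M,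
        ((A ×ˢ A).filter (fun q => q.1 ≠ q.2 ∧ sv φ q.1 = sv φ q.2)).card
        = ∑ q ∈ A ×ˢ A, (univ.filter (fun φ : Fin n → Bool → ZMod M =>
            q.1 ≠ q.2 ∧ sv φ q.1 = sv φ q.2)).card :=
      sum_card_bipartiteAbove_eq_sum_card_bipartiteBelow
        (fun (φ : Fin n → Bool → ZMod M) (q : W n × W n) => q.1 ≠ q.2 ∧ sv φ q.1 = sv φ q.2)
    have h3 : ∀ q ∈ A ×ˢ A, (((univ.filter (fun φ : Fin n → Bool → ZMod M =>
            q.1 ≠ q.2 ∧ sv φ q.1 = sv φ q.2)).card : ℕ) : ℝ) ≤ Tot / M := by
      intro q _
      by_cases hq : q.1 = q.2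
      · simp only [hq, ne_eq, not_true_eq_false, false_and, filter_false, card_empty,
          Nat.cast_zero]
        positivity
      · have h4 := card_collision (M := M) hq
        rw [le_div_iff₀ hM, hTot, ← h4]
        push_cast
        have h5 : (univ.filter (fun φ : Fin n → Bool → ZMod M =>
            q.1 ≠ q.2 ∧ sv φ q.1 = sv φ q.2)).card
            ≤ (univ.filter (fun φ : Fin n → Bool → ZMod M => sv φ q.1 = sv φ q.2)).card :=
          card_le_card (fun φ hφ => by
            rw [mem_filter] at hφ ⊢
            exact ⟨hφ.1, hφ.2.2⟩)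
        have h6 : (((univ.filter (fun φ : Fin n → Bool → ZMod M =>
            q.1 ≠ q.2 ∧ sv φ q.1 = sv φ q.2)).card : ℕ) : ℝ)
            ≤ ((univ.filter (fun φ : Fin n → Bool → ZMod M => sv φ q.1 = sv φ q.2)).card : ℕ) := by
          exact_mod_cast h5
        rw [mul_comm (M : ℝ)]
        exact mul_le_mul_of_nonneg_right h6 hM.le
    calc ∑ φ : Fin n → Bool → ZMod M,
      ((((A ×ˢ A).filter (fun q => q.1 ≠ q.2 ∧ sv φ q.1 = sv φ q.2)).card : ℕ) : ℝ)
        = ((∑ φ : Fin n → Bool → ZMod M,
          ((A ×ˢ A).filter (fun q => q.1 ≠ q.2 ∧ sv φ q.1 = sv φ q.2)).card : ℕ) : ℝ) := by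
          push_cast; rfl
      _ = ∑ q ∈ A ×ˢ A, (((univ.filter (fun φ : Fin n → Bool → ZMod M =>
            q.1 ≠ q.2 ∧ sv φ q.1 = sv φ q.2)).card : ℕ) : ℝ) := by
          rw [h2]; push_cast; rfl
      _ ≤ ∑ q ∈ A ×ˢ A, Tot / M := sum_le_sum h3
      _ = _ := by
          rw [sum_const, card_product, nsmul_eq_mul]; push_cast; ring
  have h7 : ∀ φ ∈ Bad, (A.card : ℝ) / 2
      ≤ ((((A ×ˢ A).filter (fun q => q.1 ≠ q.2 ∧ sv φ q.1 = sv φ q.2)).card : ℕ) : ℝ) := by
    intro φ hφ
    have h8 : (A.card : ℝ) ≤ (A.image (sv φ)).card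
      + ((A ×ˢ A).filter (fun q => q.1 ≠ q.2 ∧ sv φ q.1 = sv φ q.2)).card := by
      exact_mod_cast card_le_image_add_coll A (sv φ)
    rw [hBad, mem_filter] at hφ
    linarith [hφ.2]
  have h9 : (Bad.card : ℝ) * (A.card / 2) ≤ (A.card : ℝ) ^ 2 * (Tot / M) := by
    calc (Bad.card : ℝ) * (A.card / 2) = ∑ φ ∈ Bad, (A.card : ℝ) / 2 := by
          rw [sum_const, nsmul_eq_mul]
      _ ≤ ∑ φ ∈ Bad, ((((A ×ˢ A).filter (fun q => q.1 ≠ q.2 ∧ sv φ q.1 = sv φ q.2)).card : ℕ) : ℝ) :=
          sum_le_sum h7
      _ ≤ _ := sum_le_univ_sum_of_nonneg (fun φ => by positivity)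
      _ ≤ _ := h1
  rcases A.eq_empty_or_nonempty with hE | hN
  · have : Bad = ∅ := by
      rw [hBad, hE]
      simp
    rw [this, hE]
    simp
  · have hApos : (0 : ℝ) < A.card := by exact_mod_cast card_pos.mpr hN
    have h10 : (Bad.card : ℝ) * (A.card / 2) ≤ (2 * A.card / M * Tot) * (A.card / 2) := by
      refine h9.trans (le_of_eq ?_)
      field_simp
    exact le_of_mul_le_mul_right h10 (by positivity)

/-- `y` is not hit by filling `t` stars. -/
def Unc (t : ℕ) (φ : Fin n → Bool → ZMod M) (g : ZMod M) (y : W n) : Prop :=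
  ∀ w : W n, Below w y → (stars w).card + t = (stars y).card → sv φ w ≠ g

noncomputable instance (t : ℕ) (φ : Fin n → Bool → ZMod M) (g : ZMod M) (y : W n) :
    Decidable (Unc t φ g y) := Classical.propDecidable _

lemma unc_avoid {t : ℕ} {φ : Fin n → Bool → ZMod M} {g : ZMod M} {y : W n}
    (h : Unc (t + 1) φ g y) (U : Finset (Fin n)) {w : W n} (hw : w ∈ sub1 y U t) {i : Fin n}
    (hi : i ∈ stars y) (hiU : i ∉ U) (b : Bool) : φ i b ≠ g - sv φ w := by
  classical
  rw [mem_sub1] at hw
  have hwi : w i = none := by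
    by_contra hcon
    exact hiU (hw.2.1 (mem_sdiff.mpr ⟨hi, fun h' => hcon (mem_stars.mp h')⟩))
  have h1 : Below (Function.update w i (some b)) y := by
    intro j
    by_cases hj : j = i
    · left; rw [hj]; exact mem_stars.mp hi
    · rw [Function.update_of_ne hj]; exact hw.1 j
  have h2 : stars (Function.update w i (some b)) = (stars w).erase i := by
    ext j
    rw [mem_stars, mem_erase, mem_stars]
    by_cases hj : j = i
    · simp [hj]
    · simp [hj]
  have h3 : (stars (Function.update w i (some b))).card + (t + 1) = (stars y).card := by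
    rw [h2, card_erase_of_mem (mem_stars.mpr hwi)]
    have h4 := card_sdiff_of_subset (stars_subset hw.1)
    have h5 : 0 < (stars w).card := card_pos.mpr ⟨i, mem_stars.mpr hwi⟩
    have h6 := card_le_card (stars_subset hw.1)
    rw [hw.2.2] at h4
    omega
  have h7 := h _ h1 h3
  have h8 : sv φ (Function.update w i (some b)) = sv φ w + φ i b := by
    unfold sv
    have h9 : ∀ j, val (Function.update w i (some b) j) (φ j)
        = val (w j) (φ j) + if j = i then φ i b else 0 := by
      intro j
      by_cases hj : j = i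
      · subst hj
        rw [Function.update_self, hwi]
        simp [val]
      · rw [Function.update_of_ne hj, if_neg hj, add_zero]
    simp_rw [h9]
    rw [sum_add_distrib, sum_ite_eq' univ i]
    simp
  intro h10
  apply h7
  rw [h8, h10]
  ring

/-- counting label functions which avoid many sums -/
lemma card_avoid (y : W n) (U : Finset (Fin n)) (t : ℕ) (g : ZMod M) (θ : ℝ) :
    ((univ.filter (fun φ : Fin n → Bool → ZMod M =>
        θ ≤ (((sub1 y U t).image (sv φ)).card : ℝ) ∧ Unc (t + 1) φ g y)).card : ℝ)
      ≤ Real.exp (-(2 * ((stars y \ U).card : ℝ) * θ / M)) *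
        Fintype.card (Fin n → Bool → ZMod M) := by
  classical
  set V := stars y \ U with hV
  set Q := univ.filter (fun φ : Fin n → Bool → ZMod M =>
        θ ≤ (((sub1 y U t).image (sv φ)).card : ℝ) ∧ Unc (t + 1) φ g y) with hQ
  have hM : (0 : ℝ) < M := by exact_mod_cast Nat.pos_of_ne_zero (NeZero.ne M)
  let res : (Fin n → Bool → ZMod M) → ({i // i ∉ V} → Bool → ZMod M) := fun φ i => φ i.1
  have h1 : Q.card = ∑ ψ : ({i // i ∉ V} → Bool → ZMod M), (Q.filter (fun φ => res φ = ψ)).card :=
    card_eq_sum_card_fiberwise (fun x _ => mem_coe.mpr (mem_univ _))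
  have h2 : ∀ ψ : ({i // i ∉ V} → Bool → ZMod M),
      ((Q.filter (fun φ => res φ = ψ)).card : ℝ)
        ≤ ((M : ℝ) ^ 2) ^ V.card * Real.exp (-(2 * (V.card : ℝ) * θ / M)) := by
    intro ψ
    rcases (Q.filter (fun φ => res φ = ψ)).eq_empty_or_nonempty with hE | ⟨φ₀, hφ₀⟩
    · rw [hE]; simp; positivity
    rw [mem_filter, hQ, mem_filter] at hφ₀
    obtain ⟨⟨_, hθ, hunc₀⟩, hres₀⟩ := hφ₀
    set Sg := (sub1 y U t).image (sv φ₀) with hSg
    set R := Sg.image (fun s => g - s) with hR
    have hRcard : R.card = Sg.card :=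
      card_image_of_injective _ (fun a b hab => by simpa using hab)
    let Gd : Finset (Bool → ZMod M) := Fintype.piFinset (fun _ => Rᶜ)
    have h3 : (Q.filter (fun φ => res φ = ψ)).card
        ≤ (Fintype.piFinset (fun _ : {i // i ∈ V} => Gd)).card := by
      refine card_le_card_of_injOn (fun φ i => φ i.1) ?_ ?_
      · intro φ hφ
        rw [mem_coe, mem_filter, hQ, mem_filter] at hφ
        obtain ⟨⟨_, _, hunc⟩, hres⟩ := hφ
        rw [mem_coe, Fintype.mem_piFinset]
        rintro ⟨i, hi⟩
        rw [Fintype.mem_piFinset]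
        intro b
        rw [mem_compl, hR, mem_image]
        rintro ⟨s, hs, hsb⟩
        rw [hSg, mem_image] at hs
        obtain ⟨w, hw, rfl⟩ := hs
        have hsw : sv φ₀ w = sv φ w := by
          unfold sv
          refine sum_congr rfl (fun j _ => ?_)
          by_cases hj : j ∈ V
          · have hwj : w j = none := by
              by_contra hcon
              rw [hV, mem_sdiff] at hj
              exact hj.2 ((mem_sub1.mp hw).2.1 (mem_sdiff.mpr ⟨hj.1, fun h' => hcon (mem_stars.mp h')⟩))
            rw [hwj]; rfl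
          · have e1 : φ₀ j = φ j := by
              have := congrFun (hres₀.trans hres.symm) ⟨j, hj⟩
              exact this
            rw [e1]
        rw [hV, mem_sdiff] at hi
        exact unc_avoid hunc U hw hi.1 hi.2 b (by rw [← hsw]; exact hsb.symm)
      · intro φ hφ φ' hφ' hφφ
        rw [mem_coe, mem_filter] at hφ hφ'
        funext j
        by_cases hj : j ∈ V
        · exact congrFun hφφ ⟨j, hj⟩
        · exact congrFun (hφ.2.trans hφ'.2.symm) ⟨j, hj⟩
    have h4 : (Fintype.piFinset (fun _ : {i // i ∈ V} => Gd)).card = ((M - Sg.card) ^ 2) ^ V.card := by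
      rw [Fintype.card_piFinset, prod_const, card_univ, Fintype.card_coe]
      congr 1
      rw [Fintype.card_piFinset, prod_const, card_univ, Fintype.card_bool, card_compl, ZMod.card,
        hRcard]
    have hle : Sg.card ≤ M := by
      have := card_le_univ Sg
      rwa [ZMod.card] at this
    have h5 : ((M - Sg.card : ℕ) : ℝ) ≤ M * Real.exp (-(θ / M)) := by
      rw [Nat.cast_sub hle]
      have h6 := Real.add_one_le_exp (-(θ / M))
      have h7 : (M : ℝ) * (-(θ / M) + 1) = M - θ := by field_simp; ring
      nlinarith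
    have h8 : (0 : ℝ) ≤ ((M - Sg.card : ℕ) : ℝ) := by positivity
    calc ((Q.filter (fun φ => res φ = ψ)).card : ℝ)
        ≤ (((M - Sg.card : ℕ) : ℝ) ^ 2) ^ V.card := by
          have := h3.trans (le_of_eq h4)
          exact_mod_cast this
      _ ≤ ((M * Real.exp (-(θ / M))) ^ 2) ^ V.card := by gcongr
      _ = _ := by
          rw [mul_pow, mul_pow, ← Real.exp_nat_mul, ← Real.exp_nat_mul]
          congr 2
          push_cast
          ring
  have h9 : (Q.card : ℝ) = ∑ ψ : ({i // i ∉ V} → Bool → ZMod M),
      ((Q.filter (fun φ => res φ = ψ)).card : ℝ) := by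
    rw [h1]; push_cast; rfl
  rw [h9]
  refine (sum_le_sum (fun ψ _ => h2 ψ)).trans (le_of_eq ?_)
  rw [sum_const, card_univ, nsmul_eq_mul]
  have h10 : (Fintype.card ({i // i ∉ V} → Bool → ZMod M) : ℝ) = ((M : ℝ) ^ 2) ^ (n - V.card) := by
    rw [Fintype.card_fun, Fintype.card_fun, ZMod.card, Fintype.card_bool]
    have : Fintype.card {i // i ∉ V} = n - V.card := by
      rw [Fintype.card_subtype_compl, Fintype.card_fin, Fintype.card_coe]
    rw [this]; push_cast; rfl
  have h11 : (Fintype.card (Fin n → Bool → ZMod M) : ℝ) = ((M : ℝ) ^ 2) ^ n := by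
    rw [Fintype.card_fun, Fintype.card_fun, ZMod.card, Fintype.card_bool, Fintype.card_fin]
    push_cast; rfl
  have hVn : V.card ≤ n := by
    have := card_le_univ V
    rwa [Fintype.card_fin] at this
  rw [h10, h11]
  have h12 : ((M : ℝ) ^ 2) ^ n = ((M : ℝ) ^ 2) ^ (n - V.card) * ((M : ℝ) ^ 2) ^ V.card := by
    rw [← pow_add]; congr 1; omega
  rw [h12]
  ring

/-- The probability that a word with `k = u + v` stars is not hit. -/
lemma card_unc_le {t u v : ℕ} (y : W n) (hy : (stars y).card = u + v) (g : ZMod M) :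
    ((univ.filter (fun φ : Fin n → Bool → ZMod M => Unc (t + 1) φ g y)).card : ℝ)
      ≤ (2 * (2 ^ t * u.choose t : ℝ) / M + Real.exp (-(v * (2 ^ t * u.choose t : ℝ) / M))) *
        Fintype.card (Fin n → Bool → ZMod M) := by
  classical
  obtain ⟨U, hU, hUc⟩ := exists_subset_card_eq (show u ≤ (stars y).card by omega)
  have hVc : (stars y \ U).card = v := by
    rw [card_sdiff_of_subset hU, hy, hUc]; omega
  have hK : ((sub1 y U t).card : ℝ) = 2 ^ t * u.choose t := by
    rw [card_sub1 y U hU, hUc]; push_cast; rfl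
  have h1 := card_small_image (M := M) y U t
  have h2 := card_avoid (M := M) y U t g (((sub1 y U t).card : ℝ) / 2)
  have h3 : (univ.filter (fun φ : Fin n → Bool → ZMod M => Unc (t + 1) φ g y))
      ⊆ (univ.filter (fun φ : Fin n → Bool → ZMod M =>
        (((sub1 y U t).image (sv φ)).card : ℝ) < ((sub1 y U t).card : ℝ) / 2))
        ∪ (univ.filter (fun φ : Fin n → Bool → ZMod M =>
        ((sub1 y U t).card : ℝ) / 2 ≤ (((sub1 y U t).image (sv φ)).card : ℝ)
          ∧ Unc (t + 1) φ g y)) := by
    intro φ hφ
    rw [mem_filter] at hφ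
    rw [mem_union, mem_filter, mem_filter]
    rcases lt_or_ge (((sub1 y U t).image (sv φ)).card : ℝ) (((sub1 y U t).card : ℝ) / 2) with h | h
    · exact Or.inl ⟨mem_univ _, h⟩
    · exact Or.inr ⟨mem_univ _, h, hφ.2⟩
  have h4 := (card_le_card h3).trans (card_union_le _ _)
  have h5 : ((univ.filter (fun φ : Fin n → Bool → ZMod M => Unc (t + 1) φ g y)).card : ℝ)
      ≤ ((univ.filter (fun φ : Fin n → Bool → ZMod M =>
        (((sub1 y U t).image (sv φ)).card : ℝ) < ((sub1 y U t).card : ℝ) / 2)).card : ℝ)
        + ((univ.filter (fun φ : Fin n → Bool → ZMod M =>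
        ((sub1 y U t).card : ℝ) / 2 ≤ (((sub1 y U t).image (sv φ)).card : ℝ)
          ∧ Unc (t + 1) φ g y)).card : ℝ) := by exact_mod_cast h4
  refine h5.trans ((add_le_add h1 h2).trans (le_of_eq ?_))
  rw [hVc, hK, ← add_mul]
  congr 3
  congr 1
  ring

end main

/-- The gadget exists. -/
theorem gadget (t u v M : ℕ) (hM : 0 < M) (hk : t + 1 ≤ u + v) :
    Gadget (u + v) (t + 1) M
      (2 * (2 ^ t * u.choose t : ℝ) / M + Real.exp (-(v * (2 ^ t * u.choose t : ℝ) / M))) := by
  classical
  have : NeZero M := ⟨hM.ne'⟩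
  intro n α β hα hβ
  set P : ℝ := 2 * (2 ^ t * u.choose t : ℝ) / M + Real.exp (-(v * (2 ^ t * u.choose t : ℝ) / M))
    with hP
  have hM' : (0 : ℝ) < M := by exact_mod_cast hM
  let A : (Fin n → Bool → ZMod M) × ZMod M → Finset (W n) := fun q =>
    (words n (u + v - (t + 1))).filter (fun w => sv q.1 w = q.2)
  let B : (Fin n → Bool → ZMod M) × ZMod M → Finset (W n) := fun q =>
    (words n (u + v)).filter (fun y => Unc (t + 1) q.1 q.2 y)
  set Tot : ℝ := ((Fintype.card (Fin n → Bool → ZMod M) : ℕ) : ℝ) with hTot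
  have hTotpos : 0 < Tot := by
    rw [hTot]; exact_mod_cast Fintype.card_pos
  have hA : ∑ q, ((A q).card : ℝ) ≤ (words n (u + v - (t + 1))).card * Tot := by
    have h1 : ∑ q, (A q).card = ∑ w ∈ words n (u + v - (t + 1)),
        (univ.filter (fun q : (Fin n → Bool → ZMod M) × ZMod M => sv q.1 w = q.2)).card :=
      sum_card_bipartiteAbove_eq_sum_card_bipartiteBelow
        (fun (q : (Fin n → Bool → ZMod M) × ZMod M) (w : W n) => sv q.1 w = q.2)
    have h2 : ∀ w ∈ words n (u + v - (t + 1)),
        (univ.filter (fun q : (Fin n → Bool → ZMod M) × ZMod M => sv q.1 w = q.2)).card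
          ≤ Fintype.card (Fin n → Bool → ZMod M) := by
      intro w _
      rw [← card_univ]
      refine card_le_card_of_injOn (fun q => q.1) (fun _ _ => mem_coe.mpr (mem_univ _)) ?_
      rintro ⟨φ, g⟩ h ⟨φ', g'⟩ h' hh
      rw [mem_coe, mem_filter] at h h'
      simp only at h h' hh
      rw [← h.2, ← h'.2, hh]
    have h3 : ∑ q, (A q).card ≤ (words n (u + v - (t + 1))).card * Fintype.card (Fin n → Bool → ZMod M) := by
      rw [h1]
      exact (sum_le_sum h2).trans (by rw [sum_const, smul_eq_mul])
    rw [hTot]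
    exact_mod_cast h3
  have hB : ∑ q, ((B q).card : ℝ) ≤ (words n (u + v)).card * (P * (M * Tot)) := by
    have h1 : ∑ q, (B q).card = ∑ y ∈ words n (u + v),
        (univ.filter (fun q : (Fin n → Bool → ZMod M) × ZMod M => Unc (t + 1) q.1 q.2 y)).card :=
      sum_card_bipartiteAbove_eq_sum_card_bipartiteBelow
        (fun (q : (Fin n → Bool → ZMod M) × ZMod M) (y : W n) => Unc (t + 1) q.1 q.2 y)
    have h2 : ∀ y ∈ words n (u + v),
        ((univ.filter (fun q : (Fin n → Bool → ZMod M) × ZMod M => Unc (t + 1) q.1 q.2 y)).card : ℝ)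
          ≤ P * (M * Tot) := by
      intro y hy
      have h3 : (univ.filter (fun q : (Fin n → Bool → ZMod M) × ZMod M =>
          Unc (t + 1) q.1 q.2 y)).card = ∑ g : ZMod M,
            (univ.filter (fun φ : Fin n → Bool → ZMod M => Unc (t + 1) φ g y)).card := by
        rw [card_eq_sum_card_fiberwise (f := fun q => q.2) (t := univ)
          (fun x _ => mem_coe.mpr (mem_univ _))]
        refine sum_congr rfl (fun g _ => ?_)
        refine card_bij (fun q _ => q.1) ?_ ?_ ?_
        · rintro ⟨φ, g'⟩ h
          rw [mem_filter, mem_filter] at h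
          simp only at h
          rw [mem_filter, ← h.2]
          exact ⟨mem_univ _, h.1.2⟩
        · rintro ⟨φ, g'⟩ h ⟨φ', g''⟩ h' hh
          rw [mem_filter] at h h'
          simp only at h h' hh
          rw [hh, h.2, h'.2]
        · intro φ h
          rw [mem_filter] at h
          exact ⟨(φ, g), by rw [mem_filter, mem_filter]; exact ⟨⟨mem_univ _, h.2⟩, rfl⟩, rfl⟩
      rw [h3]
      push_cast
      calc ∑ g : ZMod M, ((univ.filter (fun φ : Fin n → Bool → ZMod M => Unc (t + 1) φ g y)).card : ℝ)
          ≤ ∑ _g : ZMod M, P * Tot :=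
            sum_le_sum (fun g _ => card_unc_le y (mem_words.mp hy) g)
        _ = _ := by
            rw [sum_const, card_univ, ZMod.card, nsmul_eq_mul]; ring
    calc ∑ q, ((B q).card : ℝ) = ((∑ q, (B q).card : ℕ) : ℝ) := by push_cast; rfl
      _ = ∑ y ∈ words n (u + v),
        ((univ.filter (fun q : (Fin n → Bool → ZMod M) × ZMod M => Unc (t + 1) q.1 q.2 y)).card : ℝ) := by
          rw [h1]; push_cast; rfl
      _ ≤ ∑ y ∈ words n (u + v), P * (M * Tot) := sum_le_sum h2
      _ = _ := by rw [sum_const, nsmul_eq_mul]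
  have hsum : ∑ q, (α * ((A q).card : ℝ) + β * (B q).card)
      ≤ ∑ _q : (Fin n → Bool → ZMod M) × ZMod M,
        (α * ((words n (u + v - (t + 1))).card / M) + β * (P * (words n (u + v)).card)) := by
    rw [sum_add_distrib, ← mul_sum, ← mul_sum, sum_const, card_univ, Fintype.card_prod, ZMod.card,
      nsmul_eq_mul]
    push_cast
    rw [← hTot]
    calc α * ∑ q, ((A q).card : ℝ) + β * ∑ q, ((B q).card : ℝ)
        ≤ α * ((words n (u + v - (t + 1))).card * Tot)
          + β * ((words n (u + v)).card * (P * (M * Tot))) := by gcongr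
      _ = _ := by field_simp
  obtain ⟨q, _, hq⟩ := exists_le_of_sum_le univ_nonempty hsum
  refine ⟨(A q).image (fun w => List.ofFn w), (B q).image (fun w => List.ofFn w), ?_, ?_, ?_, ?_⟩
  · exact image_subset_image (filter_subset _ _)
  · exact image_subset_image (filter_subset _ _)
  · intro x hx
    obtain ⟨y, hy, rfl⟩ := mem_image.mp hx
    by_cases hun : Unc (t + 1) q.1 q.2 y
    · left
      exact mem_image_of_mem _ (mem_filter.mpr ⟨hy, hun⟩)
    · right
      unfold Unc at hun
      push Not at hun
      obtain ⟨w, hw1, hw2, hw3⟩ := hun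
      refine ⟨List.ofFn w, mem_image_of_mem _ (mem_filter.mpr ⟨?_, hw3⟩), LB_ofFn.mpr hw1⟩
      rw [mem_words] at hy ⊢
      omega
  · rw [card_image_of_injective _ List.ofFn_injective,
      card_image_of_injective _ List.ofFn_injective]
    have e1 : (WL n (u + v - (t + 1))).card = (words n (u + v - (t + 1))).card := by
      rw [card_WL, card_words]
    have e2 : (WL n (u + v)).card = (words n (u + v)).card := by
      rw [card_WL, card_words]
    rw [e1, e2]
    exact hq

end Pool.Agent.Lib.MP_7c0edd_co.H21
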