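import Pool.Agent.Lib.MP_7c0edd_co.helper21.Lists

/-!
# The limiting density
-/

namespace Pool.Agent.Lib.MP_7c0edd_co.H21

open Finset

lemma card_stars_succAbove {n : ℕ} (w : W (n + 1)) (i : Fin (n + 1)) (hi : w i ≠ none) :
    (stars (fun j => w (i.succAbove j))).card = (stars w).card := by
  have h : stars w = (stars (fun j => w (i.succAbove j))).map i.succAboveEmb := by
    ext k
    rw [mem_stars, mem_map]
    constructor
    · intro hk
      have hki : k ≠ i := fun h => hi (h ▸ hk)
      obtain ⟨j, hj⟩ := Fin.exists_succAbove_eq hki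
      exact ⟨j, by rw [mem_stars, hj]; exact hk, hj⟩
    · rintro ⟨j, hj, rfl⟩
      rw [mem_stars] at hj
      exact hj
  rw [h, card_map]

/-- Restriction to a facet. -/
lemma f_le_filter {n d l : ℕ} {S : Finset (W (n + 1))} (hS : WCov d l S)
    (x : W (n + 1)) (hx : (stars x).card = n) :
    f n d l ≤ (S.filter (fun w => Below w x)).card := by
  classical
  obtain ⟨i, hi⟩ : ∃ i, x i ≠ none := by
    by_contra hcon
    push Not at hcon
    have : stars x = univ := by ext i; rw [mem_stars]; simp [hcon i]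
    rw [this, card_univ, Fintype.card_fin] at hx
    omega
  have hother : ∀ j, x (i.succAbove j) = none := by
    have h1 := card_stars_succAbove x i hi
    rw [hx] at h1
    have h2 : stars (fun j => x (i.succAbove j)) = univ := by
      rw [← card_eq_iff_eq_univ, h1, Fintype.card_fin]
    intro j
    have : j ∈ stars (fun j => x (i.succAbove j)) := by rw [h2]; exact mem_univ _
    exact (mem_stars (w := fun j => x (i.succAbove j))).mp this
  refine le_trans (f_le_card (S := (S.filter (fun w => Below w x)).image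
    (fun w => fun j => w (i.succAbove j))) ⟨?_, ?_⟩) card_image_le
  · intro w hw
    obtain ⟨w', hw', rfl⟩ := mem_image.mp hw
    rw [mem_filter] at hw'
    have h1 : w' i ≠ none := by
      rcases hw'.2 i with h | h
      · exact absurd h hi
      · rw [h]; exact hi
    rw [card_stars_succAbove w' i h1]
    exact hS.1 w' hw'.1
  · intro y hy
    set z : W (n + 1) := i.insertNth (x i) y with hz
    have hzi : z i = x i := by rw [hz]; simp
    have hzj : ∀ j, z (i.succAbove j) = y j := by intro j; rw [hz]; simp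
    have hzc : (stars z).card = d := by
      rw [← card_stars_succAbove z i (by rw [hzi]; exact hi)]
      have : (fun j => z (i.succAbove j)) = y := funext hzj
      rw [this, hy]
    obtain ⟨w, hw, hwz⟩ := hS.2 z hzc
    refine ⟨fun j => w (i.succAbove j), mem_image.mpr ⟨w, mem_filter.mpr ⟨hw, ?_⟩, rfl⟩, ?_⟩
    · intro k
      by_cases hk : k = i
      · right
        subst hk
        rcases hwz k with h | h
        · rw [hzi] at h; exact absurd h hi
        · rw [h, hzi]
      · left
        obtain ⟨j, rfl⟩ := Fin.exists_succAbove_eq hk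
        exact hother j
    · intro j
      have := hwz (i.succAbove j)
      rwa [hzj] at this

lemma f_nonneg_c (n d l : ℕ) : 0 ≤ c n d l := by
  unfold c; positivity

/-- `c n d l` is nondecreasing in `n`. -/
lemma c_mono_succ {d l : ℕ} (hl : l ≤ d) (n : ℕ) : c n d l ≤ c (n + 1) d l := by
  rcases Nat.lt_or_ge n l with hn | hn
  · have : c n d l = 0 := by
      unfold c
      rw [Nat.choose_eq_zero_of_lt hn]; simp
    rw [this]
    exact f_nonneg_c _ _ _
  obtain ⟨S, hS, hSc⟩ := exists_wcov_card_f (n := n + 1) hl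
  have h1 := averaging S hS.1 (f n d l : ℝ) (k := n) (fun x hx => by
    exact_mod_cast f_le_filter hS x hx)
  rw [hSc] at h1
  have e1 : n + 1 - n = 1 := by omega
  have e2 : (n + 1).choose n = n + 1 := by
    rw [Nat.choose_succ_self_right]
  have e3 : (n + 1 - l).choose (n - l) = n + 1 - l := by
    rw [show n + 1 - l = (n - l) + 1 by omega, Nat.choose_succ_self_right]
  rw [e1, e2, e3, pow_one] at h1
  have h6 := Nat.choose_mul_succ_eq n l
  have h6' : (n.choose l : ℝ) * ((n : ℝ) + 1) = (n + 1).choose l * ((n + 1 - l : ℕ) : ℝ) := by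
    exact_mod_cast h6
  have hp1 : (0 : ℝ) < n.choose l := by exact_mod_cast Nat.choose_pos hn
  have hp2 : (0 : ℝ) < (n + 1).choose l := by exact_mod_cast Nat.choose_pos (by omega)
  have hp3 : (0 : ℝ) < ((n + 1 - l : ℕ) : ℝ) := by
    have : 0 < n + 1 - l := by omega
    exact_mod_cast this
  unfold c
  rw [div_le_div_iff₀ (by positivity) (by positivity)]
  have hpow : (2 : ℝ) ^ (n + 1 - l) = 2 * 2 ^ (n - l) := by
    rw [show n + 1 - l = (n - l) + 1 by omega, pow_succ]; ring
  rw [hpow]
  have h2 : ((f n d l : ℝ) * (2 * 2 ^ (n - l) * ((n + 1).choose l : ℝ))) * ((n + 1 - l : ℕ) : ℝ)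
      ≤ ((f (n + 1) d l : ℝ) * (2 ^ (n - l) * (n.choose l : ℝ))) * ((n + 1 - l : ℕ) : ℝ) := by
    calc ((f n d l : ℝ) * (2 * 2 ^ (n - l) * ((n + 1).choose l : ℝ))) * ((n + 1 - l : ℕ) : ℝ)
        = 2 ^ (n - l) * (f n d l : ℝ) * 2 * ((n + 1).choose l * ((n + 1 - l : ℕ) : ℝ)) := by ring
      _ = 2 ^ (n - l) * (n.choose l : ℝ) * ((f n d l : ℝ) * (2 * ((n + 1 : ℕ) : ℝ))) := by
          rw [← h6']; push_cast; ring
      _ ≤ 2 ^ (n - l) * (n.choose l : ℝ) * ((f (n + 1) d l : ℝ) * ((n + 1 - l : ℕ) : ℝ)) := by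
          gcongr
      _ = _ := by ring
  exact le_of_mul_le_mul_right h2 hp3

lemma c_monotone {d l : ℕ} (hl : l ≤ d) : Monotone (fun n => c n d l) :=
  monotone_nat_of_le_succ (c_mono_succ hl)

lemma c_le_one {d l : ℕ} (hl : l ≤ d) (n : ℕ) : c n d l ≤ 1 := by
  unfold c
  have h1 : f n d l ≤ (words n l).card := f_le_card (wcov_words hl)
  rw [card_words] at h1
  have h2 : (f n d l : ℝ) ≤ 2 ^ (n - l) * n.choose l := by exact_mod_cast h1
  exact div_le_one_of_le₀ h2 (by positivity)

/-- The limiting density `c_d^(l)`. -/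
noncomputable def cLim (d l : ℕ) : ℝ := ⨆ n, c n d l

lemma bddAbove_c {d l : ℕ} (hl : l ≤ d) : BddAbove (Set.range (fun n => c n d l)) :=
  ⟨1, by rintro _ ⟨n, rfl⟩; exact c_le_one hl n⟩

theorem tendsto_c {d l : ℕ} (hl : l ≤ d) :
    Filter.Tendsto (fun n => c n d l) Filter.atTop (nhds (cLim d l)) :=
  tendsto_atTop_ciSup (c_monotone hl) (bddAbove_c hl)

lemma c_le_cLim {d l : ℕ} (hl : l ≤ d) (n : ℕ) : c n d l ≤ cLim d l :=
  le_ciSup (bddAbove_c hl) n

/-- The counting bound. -/
theorem c_ge_trivial {n d l : ℕ} (hl : l ≤ d) (hd : d ≤ n) :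
    1 / (2 ^ (d - l) * (d.choose l : ℝ)) ≤ c n d l := by
  obtain ⟨S, hS, hSc⟩ := exists_wcov_card_f (n := n) hl
  have h1 := card_ge_trivial hl hd hS
  rw [hSc] at h1
  have hp : (0 : ℝ) < n.choose l := by exact_mod_cast Nat.choose_pos (by omega)
  unfold c
  rw [le_div_iff₀ (by positivity)]
  refine le_trans (le_of_eq ?_) h1
  ring

/-- The bound with the logarithm. -/
theorem c_ge_log {n d l : ℕ} (hl : l < d) (hd : d + 2 ≤ n) :
    Real.logb 2 (d + 2) / (2 ^ (d + 2 - l) * ((d + 1).choose l : ℝ)) ≤ c n d l := by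
  obtain ⟨S, hS, hSc⟩ := exists_wcov_card_f (n := n) hl.le
  have h1 := card_ge_log hl hd hS
  rw [hSc] at h1
  have hp : (0 : ℝ) < n.choose l := by exact_mod_cast Nat.choose_pos (by omega)
  unfold c
  rw [le_div_iff₀ (by positivity)]
  exact h1

end Pool.Agent.Lib.MP_7c0edd_co.H21
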