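import Pool.Agent.Lib.MP_7c0edd_co.helper21.Mono

/-!
# A lower bound by conditioning on a free facet

An analogue for the hypercube of the method of de Caen for Turán numbers of hypergraphs.
-/

namespace Pool.Agent.Lib.MP_7c0edd_co.H21

open Finset

section defs

variable {n : ℕ} (S : Finset (W n))

/-- `x` contains no member of `S`. -/
def Free (x : W n) : Prop := ∀ w ∈ S, ¬ Below w x

instance (x : W n) : Decidable (Free S x) := by unfold Free; infer_instance

/-- the free `k`-subcubes -/
def FW (k : ℕ) : Finset (W n) := (words n k).filter (fun x => Free S x)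

/-- the facets of `D`, as pairs (coordinate, value) -/
def Fac (D : W n) : Finset (Fin n × Bool) := stars D ×ˢ univ

/-- the free facets -/
def Fr (D : W n) : Finset (Fin n × Bool) :=
  (Fac D).filter (fun q => Free S (Function.update D q.1 (some q.2)))

/-- the facets which are not free -/
def NF (D : W n) : Finset (Fin n × Bool) :=
  (Fac D).filter (fun q => ¬ Free S (Function.update D q.1 (some q.2)))

/-- pairs of a free facet and a facet which is not free, not parallel -/
def Prs (D : W n) : Finset ((Fin n × Bool) × (Fin n × Bool)) :=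
  (Fr S D ×ˢ NF S D).filter (fun p => p.1.1 ≠ p.2.1)

/-- free extensions -/
def Up (C : W n) : Finset (Fin n) :=
  univ.filter (fun i => C i ≠ none ∧ Free S (Function.update C i none))

/-- extensions which are not free -/
def Dn (C : W n) : Finset (Fin n) :=
  univ.filter (fun i => C i ≠ none ∧ ¬ Free S (Function.update C i none))

end defs

variable {n : ℕ} {S : Finset (W n)}

lemma mem_FW {k : ℕ} {x : W n} : x ∈ FW S k ↔ (stars x).card = k ∧ Free S x := by
  simp [FW, words]

lemma mem_Fac {D : W n} {q : Fin n × Bool} : q ∈ Fac D ↔ D q.1 = none := by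
  simp [Fac, mem_stars]

lemma mem_Fr {D : W n} {q : Fin n × Bool} :
    q ∈ Fr S D ↔ D q.1 = none ∧ Free S (Function.update D q.1 (some q.2)) := by
  rw [Fr, mem_filter, mem_Fac]

lemma mem_NF {D : W n} {q : Fin n × Bool} :
    q ∈ NF S D ↔ D q.1 = none ∧ ¬ Free S (Function.update D q.1 (some q.2)) := by
  rw [NF, mem_filter, mem_Fac]

lemma mem_Up {C : W n} {i : Fin n} :
    i ∈ Up S C ↔ C i ≠ none ∧ Free S (Function.update C i none) := by simp [Up]

lemma mem_Dn {C : W n} {i : Fin n} :
    i ∈ Dn S C ↔ C i ≠ none ∧ ¬ Free S (Function.update C i none) := by simp [Dn]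

lemma Free.mono {x y : W n} (h : Free S y) (hxy : Below x y) : Free S x :=
  fun w hw hwx => h w hw (below_trans hwx hxy)

lemma below_face {D : W n} {i : Fin n} (hi : D i = none) (o : Option Bool) :
    Below (Function.update D i o) D := by
  intro j
  by_cases hj : j = i
  · left; rw [hj]; exact hi
  · right; rw [Function.update_of_ne hj]

lemma stars_face {D : W n} {i : Fin n} (c : Bool) :
    stars (Function.update D i (some c)) = (stars D).erase i := by
  ext j
  rw [mem_stars, mem_erase, mem_stars]
  by_cases hj : j = i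
  · simp [hj]
  · simp [hj]

lemma stars_ext {C : W n} {i : Fin n} :
    stars (Function.update C i none) = insert i (stars C) := by
  ext j
  rw [mem_stars, mem_insert, mem_stars]
  by_cases hj : j = i
  · simp [hj]
  · simp [hj]

lemma card_stars_face {D : W n} {i : Fin n} (hi : D i = none) (c : Bool) {k : ℕ}
    (hk : (stars D).card = k + 1) : (stars (Function.update D i (some c))).card = k := by
  rw [stars_face, card_erase_of_mem (mem_stars.mpr hi), hk]; rfl

lemma card_stars_ext {C : W n} {i : Fin n} (hi : C i ≠ none) {k : ℕ}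
    (hk : (stars C).card = k) : (stars (Function.update C i none)).card = k + 1 := by
  rw [stars_ext, card_insert_of_notMem (fun h => hi (mem_stars.mp h)), hk]

lemma card_Fac {D : W n} {k : ℕ} (hk : (stars D).card = k) : (Fac D).card = 2 * k := by
  rw [Fac, card_product, hk, card_univ, Fintype.card_bool, mul_comm]

lemma card_Fr_add_NF {D : W n} {k : ℕ} (hk : (stars D).card = k) :
    (Fr S D).card + (NF S D).card = 2 * k := by
  rw [← card_Fac hk]
  exact card_filter_add_card_filter_not _

lemma card_Up_add_Dn {C : W n} {k : ℕ} (hk : (stars C).card = k) :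
    (Up S C).card + (Dn S C).card = n - k := by
  have h1 : (univ.filter (fun i => C i ≠ none)).card = n - k := by
    have : (univ.filter (fun i => C i ≠ none)) = (stars C)ᶜ := by
      ext i; simp [mem_stars]
    rw [this, card_compl, Fintype.card_fin, hk]
  have h2 := card_filter_add_card_filter_not (s := univ.filter (fun i => C i ≠ none))
    (fun i => Free S (Function.update C i none))
  rw [filter_filter, filter_filter, h1] at h2
  exact h2

/-- (DC1) counting pairs (facet, free subcube). -/
lemma sum_Up (k : ℕ) : ∑ C ∈ FW S k, (Up S C).card = 2 * (k + 1) * (FW S (k + 1)).card := by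
  classical
  have h1 : ∑ A ∈ FW S (k + 1), (Fac A).card = 2 * (k + 1) * (FW S (k + 1)).card := by
    rw [sum_congr rfl (fun A hA => card_Fac (mem_FW.mp hA).1), sum_const, smul_eq_mul, mul_comm]
  rw [← h1, ← card_sigma, ← card_sigma]
  refine card_bij' (fun p _ => ⟨Function.update p.1 p.2 none, (p.2, (p.1 p.2).getD false)⟩)
    (fun p _ => ⟨Function.update p.1 p.2.1 (some p.2.2), p.2.1⟩) ?_ ?_ ?_ ?_
  · rintro ⟨C, i⟩ h
    rw [mem_sigma, mem_FW, mem_Up] at h
    simp only at h
    rw [mem_sigma, mem_FW, mem_Fac]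
    refine ⟨⟨card_stars_ext h.2.1 h.1.1, h.2.2⟩, ?_⟩
    simp
  · rintro ⟨A, i, b⟩ h
    rw [mem_sigma, mem_FW, mem_Fac] at h
    simp only at h
    rw [mem_sigma, mem_FW, mem_Up]
    refine ⟨⟨card_stars_face h.2 b h.1.1, h.1.2.mono (below_face h.2 _)⟩, ?_, ?_⟩
    · simp
    · simp only [Function.update_idem]
      rw [← h.2, Function.update_eq_self]
      exact h.1.2
  · rintro ⟨C, i⟩ h
    rw [mem_sigma, mem_FW, mem_Up] at h
    simp only at h
    have h2 : some ((C i).getD false) = C i := by
      rcases hc : C i with _ | b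
      · exact absurd hc h.2.1
      · rfl
    simp only [Function.update_idem, Sigma.mk.injEq, heq_eq_eq, and_true]
    rw [h2, Function.update_eq_self]
  · rintro ⟨A, i, b⟩ h
    rw [mem_sigma, mem_FW, mem_Fac] at h
    simp only at h
    simp only [Function.update_idem, Function.update_self, Option.getD_some]
    have : Function.update A i none = A := by
      rw [← h.2, Function.update_eq_self]
    rw [this]

/-- (DC4) counting pairs (free subcube, subcube containing it as a facet). -/
lemma sum_Fr (k : ℕ) : (n - k) * (FW S k).card ≤ ∑ D ∈ words n (k + 1), (Fr S D).card := by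
  classical
  have h1 : ∑ A ∈ FW S k, ((stars A)ᶜ).card = (n - k) * (FW S k).card := by
    rw [sum_congr rfl (fun A hA => ?_), sum_const, smul_eq_mul, mul_comm]
    rw [card_compl, Fintype.card_fin, (mem_FW.mp hA).1]
  rw [← h1, ← card_sigma, ← card_sigma]
  refine card_le_card_of_injOn
    (fun p => (⟨Function.update p.1 p.2 none, (p.2, (p.1 p.2).getD false)⟩ :
      Σ _ : W n, Fin n × Bool)) ?_ ?_
  · rintro ⟨A, i⟩ h
    rw [mem_coe, mem_sigma, mem_FW, mem_compl, mem_stars] at h
    simp only at h
    rw [mem_coe, mem_sigma, mem_words, mem_Fr]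
    refine ⟨card_stars_ext h.2 h.1.1, ?_, ?_⟩
    · simp
    · have h2 : some ((A i).getD false) = A i := by
        rcases hc : A i with _ | b
        · exact absurd hc h.2
        · rfl
      simp only [Function.update_idem]
      rw [h2, Function.update_eq_self]
      exact h.1.2
  · rintro ⟨A, i⟩ h ⟨A', i'⟩ h' hh
    rw [mem_coe, mem_sigma, mem_FW, mem_compl, mem_stars] at h h'
    simp only [Sigma.mk.injEq, heq_eq_eq, Prod.mk.injEq] at h h' hh
    obtain ⟨h1, rfl, h3⟩ := hh
    have h4 : A = A' := by
      funext j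
      by_cases hj : j = i
      · subst hj
        rcases ha : A j with _ | b
        · exact absurd ha h.2
        · rcases ha' : A' j with _ | b'
          · exact absurd ha' h'.2
          · rw [ha, ha'] at h3
            simp only [Option.getD_some] at h3
            rw [h3]
      · have := congrFun h1 j
        rwa [Function.update_of_ne hj, Function.update_of_ne hj] at this
    rw [h4]

/-- (DC2) counting pairs of adjacent subcubes. -/
lemma sum_Prs (k : ℕ) : ∑ D ∈ words n (k + 2), (Prs S D).card
    ≤ ∑ C ∈ FW S k, (Up S C).card * (Dn S C).card := by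
  classical
  have h1 : ∑ C ∈ FW S k, (Up S C).card * (Dn S C).card
      = ∑ C ∈ FW S k, (Up S C ×ˢ Dn S C).card :=
    sum_congr rfl (fun C _ => (card_product _ _).symm)
  rw [h1, ← card_sigma, ← card_sigma]
  refine card_le_card_of_injOn
    (fun p => (⟨Function.update (Function.update p.1 p.2.1.1 (some p.2.1.2)) p.2.2.1
      (some p.2.2.2), (p.2.2.1, p.2.1.1)⟩ : Σ _ : W n, Fin n × Fin n)) ?_ ?_
  · rintro ⟨D, ⟨j, e⟩, ⟨i, c⟩⟩ h
    rw [mem_coe, mem_sigma, mem_words, Prs, mem_filter, mem_product, mem_Fr, mem_NF] at h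
    simp only at h
    obtain ⟨hD, ⟨⟨hj, hjF⟩, hi, hiF⟩, hji⟩ := h
    have hij : i ≠ j := fun h => hji h.symm
    have hAi : (Function.update D j (some e)) i = none := by
      rw [Function.update_of_ne hij]; exact hi
    have e1 : Function.update (Function.update (Function.update D j (some e)) i (some c)) i none
        = Function.update D j (some e) := by
      rw [Function.update_idem]
      conv_rhs => rw [← Function.update_eq_self i (Function.update D j (some e))]
      rw [hAi]
    have e2 : Function.update (Function.update (Function.update D j (some e)) i (some c)) j none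
        = Function.update D i (some c) := by
      rw [Function.update_comm hji, Function.update_idem]
      have hBj : (Function.update D i (some c)) j = none := by
        rw [Function.update_of_ne hji]; exact hj
      conv_rhs => rw [← Function.update_eq_self j (Function.update D i (some c))]
      rw [hBj]
    rw [mem_coe, mem_sigma, mem_FW, mem_product, mem_Up, mem_Dn]
    simp only
    rw [e1, e2]
    refine ⟨⟨?_, hjF.mono (below_face hAi _)⟩, ⟨?_, hjF⟩, ?_, hiF⟩
    · exact card_stars_face hAi c (card_stars_face hj e hD)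
    · simp
    · rw [Function.update_of_ne hji]; simp
  · rintro ⟨D, ⟨j, e⟩, ⟨i, c⟩⟩ h ⟨D', ⟨j', e'⟩, ⟨i', c'⟩⟩ h' hh
    rw [mem_coe, mem_sigma, mem_words, Prs, mem_filter, mem_product, mem_Fr, mem_NF] at h h'
    simp only at h h'
    obtain ⟨_, ⟨⟨hj, _⟩, hi, _⟩, hji⟩ := h
    obtain ⟨_, ⟨⟨hj', _⟩, hi', _⟩, _⟩ := h'
    simp only [Sigma.mk.injEq, heq_eq_eq, Prod.mk.injEq] at hh
    obtain ⟨hC, rfl, rfl⟩ := hh
    have hc : c = c' := by
      have := congrFun hC i
      simpa using this
    have he : e = e' := by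
      have := congrFun hC j
      rw [Function.update_of_ne hji, Function.update_of_ne hji] at this
      simpa using this
    have hDD : D = D' := by
      funext m
      by_cases hm : m = i
      · rw [hm, hi, hi']
      by_cases hm' : m = j
      · rw [hm', hj, hj']
      have := congrFun hC m
      rwa [Function.update_of_ne hm, Function.update_of_ne hm', Function.update_of_ne hm,
        Function.update_of_ne hm'] at this
    rw [hc, he, hDD]

/-- Pairs in one subcube. -/
lemma card_Prs (D : W n) : (Fr S D).card * (NF S D).card ≤ (Prs S D).card + (Fr S D).card ∧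
    (Fr S D).card * (NF S D).card ≤ (Prs S D).card + (NF S D).card := by
  classical
  have h0 := card_filter_add_card_filter_not (s := Fr S D ×ˢ NF S D) (fun p => p.1.1 ≠ p.2.1)
  rw [card_product] at h0
  have hne : ∀ q ∈ Fr S D, ∀ q' ∈ NF S D, q.1 = q'.1 → q'.2 = !q.2 := by
    rintro ⟨i, c⟩ hq ⟨i', c'⟩ hq' hii
    simp only at hii
    subst hii
    rw [mem_Fr] at hq
    rw [mem_NF] at hq'
    by_contra hcon
    have : c' = c := by
      cases c <;> cases c' <;> simp_all
    subst this
    exact hq'.2 hq.2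
  have h1 : ((Fr S D ×ˢ NF S D).filter (fun p => ¬ p.1.1 ≠ p.2.1)).card ≤ (Fr S D).card := by
    refine card_le_card_of_injOn (fun p => p.1) ?_ ?_
    · intro p hp
      rw [mem_coe, mem_filter, mem_product] at hp
      exact hp.1.1
    · rintro ⟨q, q'⟩ hp ⟨r, r'⟩ hp' h
      rw [mem_coe, mem_filter, mem_product] at hp hp'
      simp only [not_not] at hp hp' h
      subst h
      have e1 := hne q hp.1.1 q' hp.1.2 hp.2
      have e2 := hne q hp'.1.1 r' hp'.1.2 hp'.2
      have : q' = r' := Prod.ext (by rw [← hp.2, ← hp'.2]) (by rw [e1, e2])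
      rw [this]
  have h2 : ((Fr S D ×ˢ NF S D).filter (fun p => ¬ p.1.1 ≠ p.2.1)).card ≤ (NF S D).card := by
    refine card_le_card_of_injOn (fun p => p.2) ?_ ?_
    · intro p hp
      rw [mem_coe, mem_filter, mem_product] at hp
      exact hp.1.2
    · rintro ⟨q, q'⟩ hp ⟨r, r'⟩ hp' h
      rw [mem_coe, mem_filter, mem_product] at hp hp'
      simp only [not_not] at hp hp' h
      subst h
      have e1 := hne q hp.1.1 q' hp.1.2 hp.2
      have e2 := hne r hp'.1.1 q' hp'.1.2 hp'.2
      have : q = r := Prod.ext (by rw [hp.2, hp'.2]) (by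
        rw [e1] at e2
        exact Bool.not_inj e2)
      rw [this]
  have h3 : (Prs S D).card = ((Fr S D ×ˢ NF S D).filter (fun p => p.1.1 ≠ p.2.1)).card := rfl
  constructor <;> omega

/-- The number of facets which are not free. -/
lemma card_NF_ge {l k : ℕ} (hS : ∀ w ∈ S, (stars w).card = l) {D : W n}
    (hD : (stars D).card = k) (hF : ¬ Free S D) : k - l ≤ (NF S D).card := by
  classical
  unfold Free at hF
  push Not at hF
  obtain ⟨w, hw, hwD⟩ := hF
  have h1 : k - l = (stars D \ stars w).card := by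
    rw [card_sdiff_of_subset (stars_subset hwD), hD, hS w hw]
  rw [h1]
  refine card_le_card_of_injOn (fun i => (i, (w i).getD false)) ?_ ?_
  · intro i hi
    rw [mem_coe, mem_sdiff, mem_stars, mem_stars] at hi
    rw [mem_coe, mem_NF]
    refine ⟨hi.1, fun hcon => hcon w hw ?_⟩
    have h2 : some ((w i).getD false) = w i := by
      rcases hc : w i with _ | b
      · exact absurd hc hi.2
      · rfl
    intro j
    by_cases hj : j = i
    · right; subst hj; simp only [Function.update_self]; exact h2.symm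
    · rcases hwD j with h | h
      · left; rw [Function.update_of_ne hj]; exact h
      · right; rw [Function.update_of_ne hj]; exact h
  · intro i _ j _ h
    exact (Prod.mk.inj h).1

/-- arithmetic: `m + l` times the number of pairs -/
lemma arith {p q m l X : ℕ} (hpq : q + p = 2 * m) (hl : l < m) (hm : 2 ≤ m) (hp : m - l ≤ p)
    (h1 : q * p ≤ X + q) (h2 : q * p ≤ X + p) :
    (m - l) * (m + l - 1) * q ≤ (m + l) * X := by
  obtain ⟨a, ha⟩ : ∃ a, m = l + a := ⟨m - l, by omega⟩
  subst ha
  have ha : l + a - l = a := by omega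
  rw [ha] at hp ⊢
  have hb : l + a + l - 1 = 2 * l + a - 1 := by omega
  rw [hb]
  zify [show 1 ≤ 2 * l + a by omega] at *
  rcases le_or_gt p q with h | h
  · -- `p ≤ q`
    have hq : (q : ℤ) = 2 * (l + a) - p := by linarith
    obtain ⟨e, he⟩ : ∃ e : ℤ, (p : ℤ) = a + e := ⟨p - a, by ring⟩
    have he0 : 0 ≤ e := by linarith
    have hX : (X : ℤ) ≥ p * (q - 1) := by linarith
    have hel : e ≤ l := by
      have : (p : ℤ) ≤ q := by exact_mod_cast h
      linarith
    have hkey : (0 : ℤ) ≤ e * ((2 * l + a) * (2 * l + a - 1 - e) - a) := by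
      refine mul_nonneg he0 ?_
      have h3 : (l : ℤ) + a - 1 ≤ 2 * l + a - 1 - e := by linarith
      have h4 : (1 : ℤ) ≤ 2 * l + a - 1 - e := by linarith
      have h5 : (2 * (l : ℤ) + a) * 1 ≤ (2 * l + a) * (2 * l + a - 1 - e) := by
        refine mul_le_mul_of_nonneg_left h4 (by positivity)
      have h6 : (0 : ℤ) ≤ l := by positivity
      linarith
    have hmain : (2 * (l : ℤ) + a) * (p * (q - 1)) - a * (2 * l + a - 1) * q
        = e * ((2 * l + a) * (2 * l + a - 1 - e) - a) := by
      rw [hq, he]; ring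
    have h7 : (2 * (l : ℤ) + a) * (p * (q - 1)) ≤ (2 * l + a) * X :=
      mul_le_mul_of_nonneg_left hX (by positivity)
    have h8 : ((l : ℤ) + a + l) = 2 * l + a := by ring
    rw [h8]
    linarith
  · -- `q < p`
    have h' : (q : ℤ) + 1 ≤ p := by exact_mod_cast h
    have hpm : (l : ℤ) + a + 1 ≤ p := by
      have h3 : (2 : ℤ) * (l + a) + 1 ≤ 2 * p := by linarith
      omega
    have hX : (X : ℤ) ≥ (p - 1) * q := by linarith
    have hq0 : (0 : ℤ) ≤ q := by positivity
    have h3 : ((l : ℤ) + a) * q ≤ (p - 1) * q := by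
      refine mul_le_mul_of_nonneg_right (by linarith) hq0
    have h4 : (a : ℤ) * (2 * l + a - 1) ≤ (2 * l + a) * (l + a) := by
      have : (0 : ℤ) ≤ l := by positivity
      have : (0 : ℤ) ≤ a := by positivity
      nlinarith
    have h8 : ((l : ℤ) + a + l) = 2 * l + a := by ring
    rw [h8]
    calc (a : ℤ) * (2 * l + a - 1) * q ≤ (2 * l + a) * (l + a) * q :=
          mul_le_mul_of_nonneg_right h4 hq0
      _ = (2 * l + a) * ((l + a) * q) := by ring
      _ ≤ (2 * l + a) * X := by
          refine mul_le_mul_of_nonneg_left (h3.trans hX) (by positivity)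

/-- The main recursive inequality. -/
lemma chain_ineq {l k : ℕ} (hS : ∀ w ∈ S, (stars w).card = l) (hl : 1 ≤ l) (hlk : l ≤ k + 1) :
    ((k + 2 - l : ℕ) : ℝ) * ((k + 1 + l : ℕ) : ℝ) * (((n - (k + 1) : ℕ) : ℝ) * (FW S (k + 1)).card
        - 2 * (k + 2) * (FW S (k + 2)).card) * (FW S k).card
      ≤ ((k + 2 + l : ℕ) : ℝ) * (2 * (k + 1) * (FW S (k + 1)).card) *
        (((n - k : ℕ) : ℝ) * (FW S k).card - 2 * (k + 1) * (FW S (k + 1)).card) := by
  classical
  set m := k + 2 with hm
  -- lower bound for the number of pairs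
  have h1 : ∀ D ∈ words n m, (m - l) * (m + l - 1) * (if Free S D then 0 else (Fr S D).card)
      ≤ (m + l) * (Prs S D).card := by
    intro D hD
    rw [mem_words] at hD
    by_cases hF : Free S D
    · simp [hF]
    · rw [if_neg hF]
      have h2 := card_Prs (S := S) D
      exact arith (card_Fr_add_NF hD) (by omega) (by omega) (card_NF_ge hS hD hF) h2.1 h2.2
  have h2 := sum_le_sum h1
  rw [← mul_sum, ← mul_sum] at h2
  have h3 := sum_Prs (S := S) k
  rw [← hm] at h3
  -- the sum over the subcubes which are not free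
  have h4 : (n - (k + 1)) * (FW S (k + 1)).card ≤
      (∑ D ∈ words n m, if Free S D then 0 else (Fr S D).card) + 2 * m * (FW S m).card := by
    refine (sum_Fr (S := S) (k + 1)).trans ?_
    have h5 : 2 * m * (FW S m).card = ∑ D ∈ words n m, if Free S D then 2 * m else 0 := by
      rw [← sum_filter, sum_const, smul_eq_mul, mul_comm]; rfl
    rw [h5, ← sum_add_distrib]
    refine sum_le_sum (fun D hD => ?_)
    by_cases hF : Free S D
    · simp only [hF, if_true, zero_add]
      have h6 := card_Fr_add_NF (S := S) (mem_words.mp hD)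
      omega
    · simp [hF]
  -- Cauchy-Schwarz
  have h6 := sum_Up (S := S) k
  have h7 : (∑ C ∈ FW S k, ((Up S C).card : ℝ)) ^ 2
      ≤ (FW S k).card * ∑ C ∈ FW S k, ((Up S C).card : ℝ) ^ 2 := sq_sum_le_card_mul_sum_sq
  have h8 : (∑ C ∈ FW S k, ((Up S C).card : ℝ)) = 2 * (k + 1) * (FW S (k + 1)).card := by
    exact_mod_cast h6
  rw [h8] at h7
  have h9 : (∑ C ∈ FW S k, ((Up S C).card : ℝ) * (Dn S C).card)
      = ((n - k : ℕ) : ℝ) * (2 * (k + 1) * (FW S (k + 1)).card)
        - ∑ C ∈ FW S k, ((Up S C).card : ℝ) ^ 2 := by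
    rw [← h8, mul_sum, ← sum_sub_distrib]
    refine sum_congr rfl (fun C hC => ?_)
    have h10 := card_Up_add_Dn (S := S) (mem_FW.mp hC).1
    have h11 : ((Up S C).card : ℝ) + (Dn S C).card = ((n - k : ℕ) : ℝ) := by exact_mod_cast h10
    have h12 : ((Dn S C).card : ℝ) = ((n - k : ℕ) : ℝ) - (Up S C).card := by linarith
    rw [h12]; ring
  have h3' : ((∑ D ∈ words n m, (Prs S D).card : ℕ) : ℝ)
      ≤ ∑ C ∈ FW S k, ((Up S C).card : ℝ) * (Dn S C).card := by exact_mod_cast h3
  have h2' : ((m - l : ℕ) : ℝ) * ((m + l - 1 : ℕ) : ℝ)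
        * ((∑ D ∈ words n m, (if Free S D then 0 else (Fr S D).card) : ℕ) : ℝ)
      ≤ ((m + l : ℕ) : ℝ) * ((∑ D ∈ words n m, (Prs S D).card : ℕ) : ℝ) := by exact_mod_cast h2
  have h4' : ((n - (k + 1) : ℕ) : ℝ) * (FW S (k + 1)).card
      ≤ ((∑ D ∈ words n m, (if Free S D then 0 else (Fr S D).card) : ℕ) : ℝ)
        + 2 * (k + 2) * (FW S m).card := by exact_mod_cast h4
  have hml : m + l - 1 = k + 1 + l := by omega
  rw [hml] at h2'
  set A : ℝ := ((m - l : ℕ) : ℝ) * ((k + 1 + l : ℕ) : ℝ) with hA
  set Sg : ℝ := ((∑ D ∈ words n m, (if Free S D then 0 else (Fr S D).card) : ℕ) : ℝ) with hSg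
  set N₀ : ℝ := ((FW S k).card : ℝ) with hN₀
  set Q : ℝ := ∑ C ∈ FW S k, ((Up S C).card : ℝ) ^ 2 with hQ
  have hA0 : 0 ≤ A := by positivity
  have hN₀0 : 0 ≤ N₀ := by positivity
  have hB0 : (0 : ℝ) ≤ ((m + l : ℕ) : ℝ) := by positivity
  calc A * (((n - (k + 1) : ℕ) : ℝ) * (FW S (k + 1)).card - 2 * (k + 2) * (FW S m).card) * N₀
      ≤ A * Sg * N₀ := by
        gcongr
        linarith
    _ ≤ (((m + l : ℕ) : ℝ) * ((∑ D ∈ words n m, (Prs S D).card : ℕ) : ℝ)) * N₀ := by gcongr
    _ ≤ (((m + l : ℕ) : ℝ) * (((n - k : ℕ) : ℝ) * (2 * (k + 1) * (FW S (k + 1)).card) - Q)) * N₀ := by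
        gcongr
        rw [← h9]
        exact h3'
    _ = ((m + l : ℕ) : ℝ) * (((n - k : ℕ) : ℝ) * (2 * (k + 1) * (FW S (k + 1)).card) * N₀ - N₀ * Q) := by
        ring
    _ ≤ ((m + l : ℕ) : ℝ) * (((n - k : ℕ) : ℝ) * (2 * (k + 1) * (FW S (k + 1)).card) * N₀
          - (2 * (k + 1) * (FW S (k + 1)).card) ^ 2) := by
        gcongr
    _ = _ := by ring

end Pool.Agent.Lib.MP_7c0edd_co.H21
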