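import Pool.Agent.Lib.MP_7c0edd_co.helper21.Chain

/-!
# The lower bound obtained from the chain of inequalities
-/

namespace Pool.Agent.Lib.MP_7c0edd_co.H21

open Finset

/-- the number of `(j+1)`-subcubes of a `(j+κ+1)`-cube outside a facet -/
noncomputable def EE (j κ : ℕ) : ℝ :=
  2 ^ κ * ((j + κ).choose j : ℝ) * (2 * j + κ + 2) / (2 * (j + 1))

lemma EE_zero (j : ℕ) : EE j 0 = 1 := by
  unfold EE
  simp
  field_simp

lemma EE_pos (j κ : ℕ) : 0 < EE j κ := by
  unfold EE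
  have : 0 < (j + κ).choose j := Nat.choose_pos (by omega)
  have : (0 : ℝ) < ((j + κ).choose j : ℝ) := by exact_mod_cast this
  positivity

lemma EE_succ (j κ : ℕ) : EE j (κ + 1) * (((κ : ℝ) + 1) * (2 * j + κ + 2))
    = EE j κ * (2 * (j + κ + 1) * (2 * j + κ + 3)) := by
  unfold EE
  have h1 : (j + κ + 1) * (j + κ).choose j = (j + (κ + 1)).choose j * (κ + 1) := by
    have := Nat.choose_mul_succ_eq (j + κ) j
    rw [show j + κ + 1 - j = κ + 1 by omega] at this
    rw [mul_comm, this]; rfl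
  have h2 : ((j : ℝ) + κ + 1) * ((j + κ).choose j : ℝ) = ((j + (κ + 1)).choose j : ℝ) * (κ + 1) := by
    exact_mod_cast h1
  push_cast
  have h3 : 2 ^ (κ + 1) * ((j + (κ + 1)).choose j : ℝ) * (2 * j + (κ + 1) + 2) / (2 * (j + 1))
      * (((κ : ℝ) + 1) * (2 * j + κ + 2))
      = 2 ^ (κ + 1) * (((j + (κ + 1)).choose j : ℝ) * (κ + 1)) * (2 * j + (κ + 1) + 2) / (2 * (j + 1))
      * (2 * j + κ + 2) := by ring
  rw [h3, ← h2, pow_succ]
  ring

lemma EE_mono_succ (j κ : ℕ) : EE j κ ≤ EE j (κ + 1) := by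
  have h1 := EE_succ j κ
  have h2 := EE_pos j κ
  have hj : (0 : ℝ) ≤ j := by positivity
  have hk : (0 : ℝ) ≤ κ := by positivity
  have h3 : ((κ : ℝ) + 1) * (2 * j + κ + 2) ≤ 2 * (j + κ + 1) * (2 * j + κ + 3) := by nlinarith
  have h4 : EE j κ * (((κ : ℝ) + 1) * (2 * j + κ + 2)) ≤ EE j (κ + 1) * (((κ : ℝ) + 1) * (2 * j + κ + 2)) := by
    rw [h1]; gcongr
  exact le_of_mul_le_mul_right h4 (by positivity)

variable {n : ℕ} {S : Finset (W n)}

lemma FW_lt {j k : ℕ} (hS : ∀ w ∈ S, (stars w).card = j + 1) (hk : k ≤ j) : FW S k = words n k := by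
  ext x
  rw [mem_FW, mem_words]
  refine ⟨fun h => h.1, fun h => ⟨h, fun w hw hwx => ?_⟩⟩
  have h1 := card_le_card (stars_subset hwx)
  rw [hS w hw, h] at h1
  omega

lemma below_eq {w x : W n} (h : Below w x) (hc : (stars w).card = (stars x).card) : w = x := by
  have h1 : stars w = stars x := eq_of_subset_of_card_le (stars_subset h) hc.ge
  funext i
  rcases h i with h2 | h2
  · rw [h2, ← mem_stars, h1, mem_stars]; exact h2
  · exact h2

lemma card_FW_self {j : ℕ} (hS : ∀ w ∈ S, (stars w).card = j + 1) :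
    (FW S (j + 1)).card + S.card = (words n (j + 1)).card := by
  classical
  have h1 : FW S (j + 1) = words n (j + 1) \ S := by
    ext x
    rw [mem_FW, mem_sdiff, mem_words]
    refine and_congr_right (fun hx => ⟨fun h hxS => h x hxS (below_refl x), fun h w hw hwx => ?_⟩)
    have := below_eq hwx (by rw [hS w hw, hx])
    exact h (this ▸ hw)
  have h2 : S ⊆ words n (j + 1) := fun w hw => mem_words.mpr (hS w hw)
  rw [h1]
  exact card_sdiff_add_card_eq_card h2

lemma FW_succ_zero {k : ℕ} (h : (FW S k).card = 0) : (FW S (k + 1)).card = 0 := by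
  have h1 := sum_Up (S := S) k
  rw [card_eq_zero] at h
  rw [h, sum_empty] at h1
  have : 0 < 2 * (k + 1) := by omega
  rcases Nat.eq_zero_or_pos (FW S (k + 1)).card with h2 | h2
  · exact h2
  · have : 0 < 2 * (k + 1) * (FW S (k + 1)).card := Nat.mul_pos this h2
    omega

/-- The chain. -/
lemma chain {j : ℕ} (hS : ∀ w ∈ S, (stars w).card = j + 1) (hjn : j + 1 ≤ n) (κ : ℕ) :
    ((n - (j + κ) : ℕ) : ℝ) * (FW S (j + κ)).card - 2 * ((j + κ : ℕ) + 1) * (FW S (j + κ + 1)).card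
      ≤ (S.card : ℝ) / (2 ^ (n - (j + 1)) * (n.choose (j + 1) : ℝ)) * EE j κ * ((n - j : ℕ) : ℝ)
        * (FW S (j + κ)).card := by
  classical
  set s : ℝ := (S.card : ℝ) / (2 ^ (n - (j + 1)) * (n.choose (j + 1) : ℝ)) with hs
  have hp : (0 : ℝ) < n.choose (j + 1) := by exact_mod_cast Nat.choose_pos hjn
  have hs0 : 0 ≤ s := by positivity
  induction κ with
  | zero =>
    rw [EE_zero, add_zero, FW_lt hS le_rfl, card_words]
    have h1 := card_FW_self hS
    rw [card_words] at h1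
    have h2 : ((FW S (j + 1)).card : ℝ) + S.card = 2 ^ (n - (j + 1)) * n.choose (j + 1) := by
      exact_mod_cast h1
    have h3 : ((FW S (j + 1)).card : ℝ) = 2 ^ (n - (j + 1)) * n.choose (j + 1) - S.card := by linarith
    rw [h3]
    have h4 := Nat.choose_succ_right_eq n j
    have h5 : (n.choose (j + 1) : ℝ) * ((j : ℝ) + 1) = n.choose j * ((n - j : ℕ) : ℝ) := by
      exact_mod_cast h4
    have h6 : (2 : ℝ) ^ (n - j) = 2 * 2 ^ (n - (j + 1)) := by
      rw [show n - j = (n - (j + 1)) + 1 by omega, pow_succ]; ring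
    have h7 : (S.card : ℝ) = s * (2 ^ (n - (j + 1)) * (n.choose (j + 1) : ℝ)) := by
      rw [hs]; field_simp
    push_cast
    rw [h6, h7]
    refine le_of_eq ?_
    have e1 : s * 1 * ((n - j : ℕ) : ℝ) * (2 * 2 ^ (n - (j + 1)) * (n.choose j : ℝ))
        = s * 2 * 2 ^ (n - (j + 1)) * (n.choose j * ((n - j : ℕ) : ℝ)) := by ring
    have e2 : ((n - j : ℕ) : ℝ) * (2 * 2 ^ (n - (j + 1)) * (n.choose j : ℝ))
        = 2 * 2 ^ (n - (j + 1)) * (n.choose j * ((n - j : ℕ) : ℝ)) := by ring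
    rw [e1, e2, ← h5]
    ring
  | succ κ ih =>
    set k := j + κ with hk
    have hk' : j + (κ + 1) = k + 1 := by omega
    rw [hk']
    rcases Nat.eq_zero_or_pos (FW S k).card with h0 | h0
    · have h1 := FW_succ_zero h0
      have h2 := FW_succ_zero h1
      rw [h1, h2]
      simp
    · have hN0 : (0 : ℝ) < (FW S k).card := by exact_mod_cast h0
      have hch := chain_ineq (k := k) hS (by omega) (by omega)
      have e1 : k + 2 - (j + 1) = κ + 1 := by omega
      have e2 : k + 1 + (j + 1) = 2 * j + κ + 2 := by omega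
      have e3 : k + 2 + (j + 1) = 2 * j + κ + 3 := by omega
      rw [e1, e2, e3] at hch
      push_cast at hch ih ⊢
      set N₁ : ℝ := ((FW S (k + 1)).card : ℝ) with hN₁
      set N₂ : ℝ := ((FW S (k + 2)).card : ℝ) with hN₂
      set N₀ : ℝ := ((FW S k).card : ℝ) with hN₀
      set A : ℝ := ((κ : ℝ) + 1) * (2 * j + κ + 2) with hA
      set B : ℝ := (2 * (j : ℝ) + κ + 3) with hB
      have hA0 : 0 < A := by positivity
      have hN₁0 : 0 ≤ N₁ := by positivity
      have h3 : A * (((n - (k + 1) : ℕ) : ℝ) * N₁ - 2 * ((k : ℝ) + 2) * N₂) * N₀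
          ≤ (A * (s * EE j (κ + 1) * ((n - j : ℕ) : ℝ) * N₁)) * N₀ := by
        calc A * (((n - (k + 1) : ℕ) : ℝ) * N₁ - 2 * ((k : ℝ) + 2) * N₂) * N₀
            ≤ B * (2 * ((k : ℝ) + 1) * N₁) * (((n - k : ℕ) : ℝ) * N₀ - 2 * ((k : ℝ) + 1) * N₁) := hch
          _ ≤ B * (2 * ((k : ℝ) + 1) * N₁) * (s * EE j κ * ((n - j : ℕ) : ℝ) * N₀) := by
              gcongr
          _ = (EE j κ * (2 * (k + 1) * B)) * s * ((n - j : ℕ) : ℝ) * N₁ * N₀ := by ring
          _ = (EE j (κ + 1) * A) * s * ((n - j : ℕ) : ℝ) * N₁ * N₀ := by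
              have := EE_succ j κ
              have e4 : (k : ℝ) = j + κ := by rw [hk]; push_cast; rfl
              rw [e4, hB, hA, this]
          _ = _ := by ring
      have h4 := le_of_mul_le_mul_right h3 hN0
      have h5 := le_of_mul_le_mul_left h4 hA0
      refine le_trans (le_of_eq ?_) h5
      ring

/-- If there are no free `(j + κ + 1)`-subcubes then `S` is large. -/
lemma chain_end {j : ℕ} (hS : ∀ w ∈ S, (stars w).card = j + 1) (hjn : j + 1 ≤ n) (κ : ℕ)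
    (h : (FW S (j + κ + 1)).card = 0) :
    ((n - (j + κ) : ℕ) : ℝ) ≤ (S.card : ℝ) / (2 ^ (n - (j + 1)) * (n.choose (j + 1) : ℝ)) *
      EE j κ * ((n - j : ℕ) : ℝ) := by
  have hp : (0 : ℝ) < n.choose (j + 1) := by exact_mod_cast Nat.choose_pos hjn
  have hmain : ∀ κ, 0 < (FW S (j + κ)).card → (FW S (j + κ + 1)).card = 0 →
      ((n - (j + κ) : ℕ) : ℝ) ≤ (S.card : ℝ) / (2 ^ (n - (j + 1)) * (n.choose (j + 1) : ℝ)) *
      EE j κ * ((n - j : ℕ) : ℝ) := by
    intro κ h1 h2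
    have h3 := chain hS hjn κ
    rw [h2] at h3
    have h4 : (0 : ℝ) < (FW S (j + κ)).card := by exact_mod_cast h1
    simp only [Nat.cast_zero, mul_zero, sub_zero] at h3
    exact le_of_mul_le_mul_right h3 h4
  induction κ with
  | zero =>
    refine hmain 0 ?_ h
    rw [add_zero, FW_lt hS le_rfl, card_words]
    exact Nat.mul_pos (by positivity) (Nat.choose_pos (by omega))
  | succ κ ih =>
    rcases Nat.eq_zero_or_pos (FW S (j + (κ + 1))).card with h0 | h0
    · have h1 := ih h0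
      have h2 := EE_mono_succ j κ
      have h3 : ((n - (j + (κ + 1)) : ℕ) : ℝ) ≤ ((n - (j + κ) : ℕ) : ℝ) := by
        have : n - (j + (κ + 1)) ≤ n - (j + κ) := by omega
        exact_mod_cast this
      refine h3.trans (h1.trans ?_)
      gcongr
    · exact hmain _ h0 h

/-- **Lower bound for all `1 ≤ l < d ≤ n`.** -/
theorem c_ge_chain {n d l : ℕ} (hl : 1 ≤ l) (hld : l < d) (hd : d ≤ n) :
    (2 * d / (d + l) : ℝ) * (((n : ℝ) - d + 1) / ((n : ℝ) - l + 1)) /
      (2 ^ (d - l) * (d.choose l : ℝ)) ≤ c n d l := by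
  obtain ⟨S, hS, hSc⟩ := exists_wcov_card_f (n := n) hld.le
  obtain ⟨j, rfl⟩ : ∃ j, l = j + 1 := ⟨l - 1, by omega⟩
  obtain ⟨κ, rfl⟩ : ∃ κ, d = j + κ + 1 := ⟨d - 1 - j, by omega⟩
  have hzero : (FW S (j + κ + 1)).card = 0 := by
    rw [card_eq_zero, eq_empty_iff_forall_notMem]
    intro x hx
    rw [mem_FW] at hx
    obtain ⟨w, hw, hwx⟩ := hS.2 x hx.1
    exact hx.2 w hw hwx
  have h1 := chain_end hS.1 (by omega) κ hzero
  rw [hSc] at h1
  have hc : (f n (j + κ + 1) (j + 1) : ℝ) / (2 ^ (n - (j + 1)) * (n.choose (j + 1) : ℝ))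
      = c n (j + κ + 1) (j + 1) := rfl
  rw [hc] at h1
  have hn1 : ((n - (j + κ) : ℕ) : ℝ) = (n : ℝ) - ((j + κ + 1 : ℕ) : ℝ) + 1 := by
    rw [Nat.cast_sub (by omega)]; push_cast; ring
  have hn2 : ((n - j : ℕ) : ℝ) = (n : ℝ) - ((j + 1 : ℕ) : ℝ) + 1 := by
    rw [Nat.cast_sub (by omega)]; push_cast; ring
  rw [hn1, hn2] at h1
  have hpos2 : (0 : ℝ) < (n : ℝ) - ((j + 1 : ℕ) : ℝ) + 1 := by
    have : ((j + 1 : ℕ) : ℝ) ≤ n := by exact_mod_cast (show j + 1 ≤ n by omega)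
    linarith
  have hch : (0 : ℝ) < ((j + κ + 1).choose (j + 1) : ℝ) := by
    exact_mod_cast Nat.choose_pos (by omega)
  have hE : EE j κ = 2 ^ (j + κ + 1 - (j + 1)) * ((j + κ + 1).choose (j + 1) : ℝ)
      * ((((j + κ + 1 : ℕ) : ℝ) + ((j + 1 : ℕ) : ℝ)) / (2 * ((j + κ + 1 : ℕ) : ℝ))) := by
    unfold EE
    have e1 : j + κ + 1 - (j + 1) = κ := by omega
    rw [e1]
    have h2 := Nat.add_one_mul_choose_eq (j + κ) j
    have h3 : ((j : ℝ) + κ + 1) * ((j + κ).choose j : ℝ)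
        = ((j + κ + 1).choose (j + 1) : ℝ) * ((j : ℝ) + 1) := by exact_mod_cast h2
    have h4 : ((j + κ).choose j : ℝ)
        = ((j + κ + 1).choose (j + 1) : ℝ) * ((j : ℝ) + 1) / ((j : ℝ) + κ + 1) := by
      rw [eq_div_iff (by positivity), ← h3]; ring
    rw [h4]
    push_cast
    field_simp
    ring
  rw [hE] at h1
  set D : ℝ := ((j + κ + 1 : ℕ) : ℝ) with hD
  set Lr : ℝ := ((j + 1 : ℕ) : ℝ) with hLr
  have hD0 : 0 < D := by rw [hD]; positivity
  have hL0 : 0 < Lr := by rw [hLr]; positivity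
  set X : ℝ := 2 ^ (j + κ + 1 - (j + 1)) * ((j + κ + 1).choose (j + 1) : ℝ) with hX
  have hX0 : 0 < X := by positivity
  rw [div_le_iff₀ hX0, mul_div_assoc', div_le_iff₀ hpos2]
  have h5 : 2 * D / (D + Lr) * ((n : ℝ) - D + 1) ≤ 2 * D / (D + Lr) *
      (c n (j + κ + 1) (j + 1) * (X * ((D + Lr) / (2 * D))) * ((n : ℝ) - Lr + 1)) := by
    gcongr
  refine h5.trans (le_of_eq ?_)
  field_simp

/-- The limiting density. -/
theorem cLim_ge_chain {d l : ℕ} (hl : 1 ≤ l) (hld : l < d) :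
    (2 * d / (d + l) : ℝ) / (2 ^ (d - l) * (d.choose l : ℝ)) ≤ cLim d l := by
  have h1 := tendsto_c hld.le
  have h2 : Filter.Tendsto (fun n : ℕ => ((n : ℝ) - d + 1) / ((n : ℝ) - l + 1)) Filter.atTop
      (nhds 1) := by
    have h3 : Filter.Tendsto (fun n : ℕ => 1 - ((d : ℝ) - l) * ((n : ℝ) - l + 1)⁻¹) Filter.atTop
        (nhds (1 - ((d : ℝ) - l) * 0)) := by
      refine Filter.Tendsto.const_sub 1 (Filter.Tendsto.const_mul _ ?_)
      refine tendsto_inv_atTop_zero.comp ?_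
      refine Filter.tendsto_atTop_add_const_right _ _ ?_
      exact Filter.tendsto_atTop_add_const_right _ (-(l : ℝ)) tendsto_natCast_atTop_atTop
    rw [mul_zero, sub_zero] at h3
    refine h3.congr' ?_
    filter_upwards [Filter.eventually_ge_atTop l] with n hn
    have : (l : ℝ) ≤ n := by exact_mod_cast hn
    have hpos : (0 : ℝ) < (n : ℝ) - l + 1 := by linarith
    field_simp
    ring
  have h4 : Filter.Tendsto (fun n : ℕ => (2 * d / (d + l) : ℝ) *
      (((n : ℝ) - d + 1) / ((n : ℝ) - l + 1)) / (2 ^ (d - l) * (d.choose l : ℝ))) Filter.atTop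
      (nhds ((2 * d / (d + l) : ℝ) * 1 / (2 ^ (d - l) * (d.choose l : ℝ)))) :=
    (h2.const_mul _).div_const _
  rw [mul_one] at h4
  refine le_of_tendsto_of_tendsto h4 h1 ?_
  filter_upwards [Filter.eventually_ge_atTop d] with n hn
  exact c_ge_chain hl hld hn

end Pool.Agent.Lib.MP_7c0edd_co.H21
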