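import Mathlib

/-!
# Covering the `d`-subcubes of the hypercube by `l`-subcubes: definitions and words

`W n` is the set of words of length `n` over `{0, 1, *}` (`none` is the star); a word with `k` stars
describes a `k`-subcube of `Q_n`.
-/

namespace Pool.Agent.Lib.MP_7c0edd_co.H21

open Finset

/-- `C` is (the vertex set of) a `k`-subcube of the hypercube `Q_n`: all coordinates outside a set
`T` of `k` coordinates are fixed. -/
def IsSubcube (n k : ℕ) (C : Finset (Fin n → Bool)) : Prop :=
  ∃ (T : Finset (Fin n)) (u : Fin n → Bool), T.card = k ∧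
    C = univ.filter (fun v => ∀ i, i ∉ T → v i = u i)

/-- `S` is a `(d, l)`-covering set of `Q_n`: a set of `l`-subcubes such that each `d`-subcube
contains a member of `S`. -/
def IsCovering (n d l : ℕ) (S : Finset (Finset (Fin n → Bool))) : Prop :=
  (∀ C ∈ S, IsSubcube n l C) ∧ ∀ D, IsSubcube n d D → ∃ C ∈ S, C ⊆ D

/-- The smallest size `f^(l)(n, d)` of a `(d, l)`-covering set of `Q_n`. -/
noncomputable def f (n d l : ℕ) : ℕ :=
  sInf {k | ∃ S, IsCovering n d l S ∧ S.card = k}

/-- The proportion `c^(l)(n, d) = f^(l)(n, d) / N_l(n)` with `N_l(n) = 2^(n-l) * (n choose l)`. -/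
noncomputable def c (n d l : ℕ) : ℝ := (f n d l : ℝ) / (2 ^ (n - l) * (n.choose l : ℝ))

/-- Words of length `n` over `{0, 1, *}`. -/
abbrev W (n : ℕ) := Fin n → Option Bool

/-- The set of stars of a word. -/
def stars {n : ℕ} (w : W n) : Finset (Fin n) := univ.filter (fun i => w i = none)

/-- The subcube described by a word. -/
def cube {n : ℕ} (w : W n) : Finset (Fin n → Bool) :=
  univ.filter (fun v => ∀ i, w i = none ∨ w i = some (v i))

/-- `w` is obtained from `x` by filling some stars. -/
def Below {n : ℕ} (w x : W n) : Prop := ∀ i, x i = none ∨ w i = x i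

instance {n : ℕ} (w x : W n) : Decidable (Below w x) := by unfold Below; infer_instance

lemma mem_stars {n : ℕ} {w : W n} {i : Fin n} : i ∈ stars w ↔ w i = none := by simp [stars]

lemma mem_cube {n : ℕ} {w : W n} {v : Fin n → Bool} :
    v ∈ cube w ↔ ∀ i, w i = none ∨ w i = some (v i) := by simp [cube]

lemma below_refl {n : ℕ} (w : W n) : Below w w := fun _ => Or.inr rfl

lemma below_trans {n : ℕ} {w x y : W n} (h : Below w x) (h' : Below x y) : Below w y := by
  intro i
  rcases h' i with hi | hi
  · exact Or.inl hi
  · rcases h i with hj | hj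
    · left; rw [← hi, hj]
    · right; rw [hj, hi]

lemma stars_subset {n : ℕ} {w x : W n} (h : Below w x) : stars w ⊆ stars x := by
  intro i hi
  rw [mem_stars] at hi ⊢
  rcases h i with h1 | h1
  · exact h1
  · rw [← h1]; exact hi

/-- the vertex of the cube of `w` with value `b` at all stars -/
def fill {n : ℕ} (w : W n) (v : Fin n → Bool) : Fin n → Bool := fun i => (w i).getD (v i)

lemma fill_mem {n : ℕ} (w : W n) (v : Fin n → Bool) : fill w v ∈ cube w := by
  rw [mem_cube]
  intro i
  unfold fill
  rcases h : w i with _ | b
  · exact Or.inl rfl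
  · right; simp

lemma cube_subset_iff {n : ℕ} {w x : W n} : cube w ⊆ cube x ↔ Below w x := by
  constructor
  · intro h i
    rcases hx : x i with _ | b
    · exact Or.inl rfl
    · right
      have h1 := h (fill_mem w (fun _ => !b))
      rw [mem_cube] at h1
      have h2 := h1 i
      rw [hx] at h2
      rcases h2 with h2 | h2
      · exact absurd h2 (by simp)
      · unfold fill at h2
        rcases hw : w i with _ | b'
        · rw [hw] at h2
          cases b <;> simp at h2
        · rw [hw] at h2
          simp only [Option.getD_some] at h2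
          rw [h2]
  · intro h v hv
    rw [mem_cube] at hv ⊢
    intro i
    rcases h i with h1 | h1
    · exact Or.inl h1
    · rw [← h1]; exact hv i

lemma cube_injective {n : ℕ} : Function.Injective (cube : W n → Finset (Fin n → Bool)) := by
  intro w x h
  have h1 : Below w x := cube_subset_iff.mp h.subset
  have h2 : Below x w := cube_subset_iff.mp h.symm.subset
  funext i
  rcases h1 i with h3 | h3
  · rcases h2 i with h4 | h4
    · rw [h3, h4]
    · exact h4.symm
  · exact h3

lemma isSubcube_iff {n k : ℕ} {C : Finset (Fin n → Bool)} :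
    IsSubcube n k C ↔ ∃ w : W n, (stars w).card = k ∧ cube w = C := by
  constructor
  · rintro ⟨T, u, hT, rfl⟩
    refine ⟨fun i => if i ∈ T then none else some (u i), ?_, ?_⟩
    · rw [← hT]
      congr 1
      ext i
      rw [mem_stars]
      by_cases h : i ∈ T <;> simp [h]
    · ext v
      rw [mem_cube]
      simp only [mem_filter, mem_univ, true_and]
      constructor
      · intro h i hi
        have := h i
        simp only [hi, if_false] at this
        simpa [eq_comm] using this
      · intro h i
        by_cases hi : i ∈ T
        · left; simp [hi]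
        · right; simp only [hi, if_false]; rw [h i hi]
  · rintro ⟨w, hw, rfl⟩
    refine ⟨stars w, fill w (fun _ => false), hw, ?_⟩
    ext v
    rw [mem_cube]
    simp only [mem_filter, mem_univ, true_and]
    constructor
    · intro h i hi
      rw [mem_stars] at hi
      rcases h i with h1 | h1
      · exact absurd h1 hi
      · unfold fill; rw [h1]; rfl
    · intro h i
      by_cases hi : w i = none
      · exact Or.inl hi
      · right
        have := h i (by rw [mem_stars]; exact hi)
        rw [this]
        unfold fill
        rcases hw' : w i with _ | b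
        · exact absurd hw' hi
        · rfl

/-- A covering family of words. -/
def WCov {n : ℕ} (d l : ℕ) (S : Finset (W n)) : Prop :=
  (∀ w ∈ S, (stars w).card = l) ∧ ∀ x : W n, (stars x).card = d → ∃ w ∈ S, Below w x

lemma WCov.isCovering {n d l : ℕ} {S : Finset (W n)} (h : WCov d l S) :
    IsCovering n d l (S.image cube) := by
  constructor
  · intro C hC
    obtain ⟨w, hw, rfl⟩ := mem_image.mp hC
    exact isSubcube_iff.mpr ⟨w, h.1 w hw, rfl⟩
  · intro D hD
    obtain ⟨x, hx, rfl⟩ := isSubcube_iff.mp hD
    obtain ⟨w, hw, hwx⟩ := h.2 x hx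
    exact ⟨cube w, mem_image_of_mem _ hw, cube_subset_iff.mpr hwx⟩

lemma IsCovering.exists_wcov {n d l : ℕ} {S : Finset (Finset (Fin n → Bool))}
    (h : IsCovering n d l S) : ∃ S' : Finset (W n), WCov d l S' ∧ S'.card = S.card := by
  classical
  refine ⟨univ.filter (fun w => cube w ∈ S), ⟨?_, ?_⟩, ?_⟩
  · intro w hw
    rw [mem_filter] at hw
    obtain ⟨w', hw', hc⟩ := isSubcube_iff.mp (h.1 _ hw.2)
    rw [← cube_injective hc]
    exact hw'
  · intro x hx
    obtain ⟨C, hC, hCx⟩ := h.2 (cube x) (isSubcube_iff.mpr ⟨x, hx, rfl⟩)
    obtain ⟨w, _, rfl⟩ := isSubcube_iff.mp (h.1 C hC)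
    exact ⟨w, by simp [hC], cube_subset_iff.mp hCx⟩
  · refine card_bij (fun w _ => cube w) ?_ ?_ ?_
    · intro w hw
      exact (mem_filter.mp hw).2
    · intro w _ w' _ hww
      exact cube_injective hww
    · intro C hC
      obtain ⟨w, _, rfl⟩ := isSubcube_iff.mp (h.1 C hC)
      exact ⟨w, by simp [hC], rfl⟩

/-- words with `k` stars -/
def words (n k : ℕ) : Finset (W n) := univ.filter (fun w => (stars w).card = k)

lemma mem_words {n k : ℕ} {w : W n} : w ∈ words n k ↔ (stars w).card = k := by simp [words]

lemma wcov_words {n d l : ℕ} (hl : l ≤ d) : WCov d l (words n l) := by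
  refine ⟨fun w hw => mem_words.mp hw, fun x hx => ?_⟩
  obtain ⟨T, hT, hTl⟩ := exists_subset_card_eq (show l ≤ (stars x).card by omega)
  refine ⟨fun i => if i ∈ T then none else some ((x i).getD false), ?_, ?_⟩
  · rw [mem_words, ← hTl]
    congr 1
    ext i
    rw [mem_stars]
    by_cases h : i ∈ T <;> simp [h]
  · intro i
    rcases hx' : x i with _ | b
    · exact Or.inl rfl
    · right
      have : i ∉ T := fun hi => by
        have := hT hi
        rw [mem_stars, hx'] at this
        exact absurd this (by simp)
      simp [this, hx']

/-- `f n d l` is attained by a family of words. -/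
lemma exists_wcov_card_f {n d l : ℕ} (hl : l ≤ d) :
    ∃ S : Finset (W n), WCov d l S ∧ S.card = f n d l := by
  have hne : {k | ∃ S, IsCovering n d l S ∧ S.card = k}.Nonempty :=
    ⟨_, _, (wcov_words hl).isCovering, rfl⟩
  obtain ⟨S, hS, hSc⟩ := Nat.sInf_mem hne
  obtain ⟨S', hS', hc⟩ := hS.exists_wcov
  exact ⟨S', hS', by rw [hc, hSc]; rfl⟩

lemma f_le_card {n d l : ℕ} {S : Finset (W n)} (h : WCov d l S) : f n d l ≤ S.card := by
  have h1 : f n d l ≤ (S.image cube).card := Nat.sInf_le ⟨_, h.isCovering, rfl⟩
  exact h1.trans card_image_le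

/-- The number of words with `k` stars. -/
lemma card_words (n k : ℕ) : (words n k).card = 2 ^ (n - k) * n.choose k := by
  classical
  have h1 : (words n k).card
      = ∑ T ∈ (univ : Finset (Fin n)).powersetCard k, ((words n k).filter (fun w => stars w = T)).card := by
    refine card_eq_sum_card_fiberwise (f := stars) (fun w hw => ?_)
    rw [mem_coe, mem_powersetCard]
    exact ⟨subset_univ _, mem_words.mp hw⟩
  rw [h1]
  have h2 : ∀ T ∈ (univ : Finset (Fin n)).powersetCard k,
      ((words n k).filter (fun w => stars w = T)).card = 2 ^ (n - k) := by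
    intro T hT
    rw [mem_powersetCard] at hT
    have h3 : (words n k).filter (fun w => stars w = T)
        = Fintype.piFinset (fun i => if i ∈ T then {none} else {some false, some true}) := by
      ext w
      rw [mem_filter, mem_words, Fintype.mem_piFinset]
      constructor
      · rintro ⟨_, h⟩ i
        by_cases hi : i ∈ T
        · simp only [hi, if_true, mem_singleton]
          rw [← h, mem_stars] at hi
          exact hi
        · simp only [hi, if_false]
          rw [← h, mem_stars] at hi
          rcases hw : w i with _ | b
          · exact absurd hw hi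
          · cases b <;> simp
      · intro h
        have : stars w = T := by
          ext i
          rw [mem_stars]
          have hi := h i
          by_cases hi' : i ∈ T
          · simp only [hi', if_true, mem_singleton] at hi
            simp [hi', hi]
          · simp only [hi', if_false, mem_insert, mem_singleton] at hi
            rcases hi with hi | hi <;> simp [hi', hi]
        exact ⟨by rw [this]; exact hT.2, this⟩
    rw [h3, Fintype.card_piFinset]
    have h4 : ∀ i : Fin n, (if i ∈ T then ({none} : Finset (Option Bool))
        else {some false, some true}).card = if i ∈ T then 1 else 2 := by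
      intro i
      by_cases hi : i ∈ T <;> simp [hi]
    simp_rw [h4]
    rw [prod_ite, prod_const_one, one_mul, prod_const]
    congr 1
    have : (univ.filter (fun i => i ∉ T)) = Tᶜ := by ext; simp
    rw [this, card_compl, hT.2, Fintype.card_fin]
  rw [sum_congr rfl h2, sum_const, card_powersetCard, card_univ, Fintype.card_fin, smul_eq_mul,
    mul_comm]

end Pool.Agent.Lib.MP_7c0edd_co.H21
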