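import Pool.Agent.Lib.MP_7c0edd_co.helper21.Defs

section
/-!
# Lower bounds: averaging over `k`-subcubes, and the pairs bound
-/
namespace Pool.Agent.Lib.MP_7c0edd_co.H21

open Finset

/-- Double counting: if every `k`-subcube contains at least `F` members of `S`, then `S` is
large. -/
lemma averaging {n l k : ℕ} (S : Finset (W n)) (hS : ∀ w ∈ S, (stars w).card = l) (F : ℝ)
    (hF : ∀ x : W n, (stars x).card = k → F ≤ ((S.filter (fun w => Below w x)).card : ℝ)) :
    F * (2 ^ (n - k) * n.choose k) ≤ S.card * ((n - l).choose (k - l) : ℝ) := by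
  classical
  have h1 := sum_card_bipartiteAbove_eq_sum_card_bipartiteBelow (s := words n k) (t := S)
    (fun (x w : W n) => Below w x)
  have h2 : F * (2 ^ (n - k) * n.choose k)
      ≤ ∑ x ∈ words n k, ((S.filter (fun w => Below w x)).card : ℝ) := by
    calc F * (2 ^ (n - k) * n.choose k) = ∑ x ∈ words n k, F := by
          rw [sum_const, card_words, nsmul_eq_mul]
          push_cast
          ring
      _ ≤ _ := sum_le_sum (fun x hx => hF x (mem_words.mp hx))
  have h3 : ∀ w ∈ S, ((words n k).filter (fun x => Below w x)).card ≤ (n - l).choose (k - l) := by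
    intro w hw
    have h4 : ((univ : Finset (Fin n)) \ stars w).card = n - l := by
      rw [card_sdiff_of_subset (subset_univ _), hS w hw, card_univ, Fintype.card_fin]
    rw [← h4, ← card_powersetCard]
    refine card_le_card_of_injOn (fun x => stars x \ stars w) ?_ ?_
    · intro x hx
      rw [mem_coe, mem_filter, mem_words] at hx
      rw [mem_coe, mem_powersetCard]
      refine ⟨sdiff_subset_sdiff (subset_univ _) subset_rfl, ?_⟩
      rw [card_sdiff_of_subset (stars_subset hx.2), hx.1, hS w hw]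
    · intro x hx y hy hxy
      rw [mem_coe, mem_filter, mem_words] at hx hy
      have hst : stars x = stars y := by
        rw [← sdiff_union_of_subset (stars_subset hx.2), ← sdiff_union_of_subset (stars_subset hy.2)]
        exact congrArg (· ∪ stars w) hxy
      funext i
      by_cases hi : i ∈ stars x
      · have hi' := hi
        rw [hst] at hi'
        rw [mem_stars] at hi hi'
        rw [hi, hi']
      · have hi' := hi
        rw [hst] at hi'
        rw [mem_stars] at hi hi'
        rcases hx.2 i with h5 | h5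
        · exact absurd h5 hi
        · rcases hy.2 i with h6 | h6
          · exact absurd h6 hi'
          · rw [← h5, ← h6]
  have h5 : (∑ x ∈ words n k, ((S.filter (fun w => Below w x)).card : ℝ))
      ≤ S.card * ((n - l).choose (k - l) : ℝ) := by
    have h6 : (∑ x ∈ words n k, (S.filter (fun w => Below w x)).card)
        ≤ S.card * ((n - l).choose (k - l)) := by
      calc (∑ x ∈ words n k, (S.filter (fun w => Below w x)).card)
          = ∑ w ∈ S, ((words n k).filter (fun x => Below w x)).card := h1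
        _ ≤ ∑ w ∈ S, (n - l).choose (k - l) := sum_le_sum h3
        _ = _ := by rw [sum_const, smul_eq_mul]
    exact_mod_cast h6
  exact h2.trans h5

/-- The pairs bound: events `E i` are pairwise disjoint. -/
lemma sum_two_pow_le {n : ℕ} (T : Finset (W n)) (I : Finset (Fin n))
    (h : ∀ i ∈ I, ∀ j ∈ I, i ≠ j → ∃ w ∈ T, w i = some false ∧ w j = some true) :
    ∑ i ∈ I, (1 / 2 : ℝ) ^ (T.filter (fun w => w i ≠ none)).card ≤ 1 := by
  classical
  let opt : Option Bool → Finset Bool := fun o => match o with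
    | none => univ
    | some b => {b}
  let E : Fin n → Finset (↥T → Bool) := fun i => Fintype.piFinset (fun w : ↥T => opt (w.1 i))
  have hcard : ∀ i, ((E i).card : ℝ) = 2 ^ T.card * (1 / 2 : ℝ) ^ (T.filter (fun w => w i ≠ none)).card := by
    intro i
    have h1 : (E i).card = ∏ w : ↥T, (opt (w.1 i)).card := Fintype.card_piFinset _
    have h2 : (∏ w : ↥T, (opt (w.1 i)).card) = ∏ w ∈ T, (opt (w i)).card :=
      Finset.prod_coe_sort T (fun w => (opt (w i)).card)
    rw [h1, h2]
    push_cast
    have h3 : ∀ w : W n, ((opt (w i)).card : ℝ) = 2 * (if w i ≠ none then (1 / 2 : ℝ) else 1) := by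
      intro w
      rcases hw : w i with _ | b
      · simp [opt]
      · simp [opt]
    simp_rw [h3]
    rw [prod_mul_distrib, prod_const, prod_ite, prod_const, prod_const_one, mul_one]
  have hdisj : (I : Set (Fin n)).PairwiseDisjoint E := by
    intro i hi j hj hij
    rw [Function.onFun, disjoint_left]
    intro r hr hr'
    obtain ⟨w, hw, h1, h2⟩ := h i hi j hj hij
    have h3 := (Fintype.mem_piFinset.mp hr) ⟨w, hw⟩
    have h4 := (Fintype.mem_piFinset.mp hr') ⟨w, hw⟩
    simp only [h1, h2, opt, mem_singleton] at h3 h4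
    rw [h3] at h4
    exact absurd h4 (by simp)
  have hle : (∑ i ∈ I, (E i).card) ≤ 2 ^ T.card := by
    rw [← card_biUnion hdisj]
    calc (I.biUnion E).card ≤ (univ : Finset (↥T → Bool)).card := card_le_univ _
      _ = 2 ^ T.card := by simp
  have hle' : (∑ i ∈ I, ((E i).card : ℝ)) ≤ 2 ^ T.card := by exact_mod_cast hle
  simp_rw [hcard] at hle'
  rw [← mul_sum] at hle'
  have hpos : (0 : ℝ) < 2 ^ T.card := by positivity
  calc ∑ i ∈ I, (1 / 2 : ℝ) ^ (T.filter (fun w => w i ≠ none)).card
      = (2 ^ T.card * ∑ i ∈ I, (1 / 2 : ℝ) ^ (T.filter (fun w => w i ≠ none)).card) / 2 ^ T.card := by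
        field_simp
    _ ≤ 2 ^ T.card / 2 ^ T.card := by gcongr
    _ = 1 := div_self hpos.ne'

/-- AM-GM: if `∑ 2^(-k_i) ≤ 1` over `m` indices then `∑ k_i ≥ m log₂ m`. -/
lemma sum_ge_of_sum_two_pow_le {ι : Type*} (I : Finset ι) (k : ι → ℕ) (hI : 0 < I.card)
    (h : ∑ i ∈ I, (1 / 2 : ℝ) ^ (k i) ≤ 1) :
    I.card * Real.logb 2 I.card ≤ ∑ i ∈ I, (k i : ℝ) := by
  set m : ℝ := (I.card : ℝ) with hm
  have hm0 : 0 < m := by rw [hm]; exact_mod_cast hI
  have hl2 : 0 < Real.log 2 := Real.log_pos (by norm_num)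
  have h1 : ∀ i ∈ I, (1 / m) * (1 - Real.log 2 * ((k i : ℝ) - Real.logb 2 m)) ≤ (1 / 2 : ℝ) ^ (k i) := by
    intro i _
    have h2 := Real.add_one_le_exp (-(Real.log 2 * ((k i : ℝ) - Real.logb 2 m)))
    have h3 : Real.exp (-(Real.log 2 * ((k i : ℝ) - Real.logb 2 m))) = m * (1 / 2 : ℝ) ^ (k i) := by
      have e1 : -(Real.log 2 * ((k i : ℝ) - Real.logb 2 m)) = Real.log m + (k i : ℝ) * (-Real.log 2) := by
        have : Real.log 2 * Real.logb 2 m = Real.log m := by
          rw [Real.logb]; field_simp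
        linear_combination this
      rw [e1, Real.exp_add, Real.exp_log hm0, Real.exp_nat_mul, Real.exp_neg,
        Real.exp_log (by norm_num)]
      norm_num
    rw [h3] at h2
    rw [div_mul_eq_mul_div, one_mul, div_le_iff₀ hm0]
    linarith
  have h4 := (sum_le_sum h1).trans h
  rw [← mul_sum, sum_sub_distrib, ← mul_sum, sum_sub_distrib, sum_const, sum_const, nsmul_eq_mul,
    nsmul_eq_mul, mul_one, ← hm] at h4
  rw [div_mul_eq_mul_div, one_mul, div_le_iff₀ hm0, one_mul] at h4
  by_contra hcon
  push Not at hcon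
  have : Real.log 2 * (∑ i ∈ I, (k i : ℝ) - m * Real.logb 2 m) < 0 :=
    mul_neg_of_pos_of_neg hl2 (by linarith)
  linarith

/-- The number of members of a covering family inside a `(d+2)`-subcube. -/
lemma card_filter_ge {n d l : ℕ} {S : Finset (W n)} (hS : WCov d l S) (x : W n)
    (hx : (stars x).card = d + 2) :
    ((d : ℝ) + 2) * Real.logb 2 (d + 2) ≤
      ((S.filter (fun w => Below w x)).card : ℝ) * ((d + 2 - l : ℕ) : ℝ) := by
  classical
  set T := S.filter (fun w => Below w x) with hT
  have h1 : ∀ i ∈ stars x, ∀ j ∈ stars x, i ≠ j →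
      ∃ w ∈ T, w i = some false ∧ w j = some true := by
    intro i hi j hj hij
    set y : W n := fun k => if k = i then some false else if k = j then some true else x k with hy
    have hyx : Below y x := by
      intro k
      by_cases hki : k = i
      · left; rw [hki]; exact mem_stars.mp hi
      by_cases hkj : k = j
      · left; rw [hkj]; exact mem_stars.mp hj
      right; simp [hy, hki, hkj]
    have hys : stars y = ((stars x).erase i).erase j := by
      ext k
      rw [mem_stars, mem_erase, mem_erase, mem_stars]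
      by_cases hki : k = i
      · simp [hy, hki]
      by_cases hkj : k = j
      · simp [hy, hkj, Ne.symm hij]
      simp [hy, hki, hkj]
    have hyc : (stars y).card = d := by
      rw [hys, card_erase_of_mem (mem_erase.mpr ⟨Ne.symm hij, hj⟩), card_erase_of_mem hi, hx]
      omega
    obtain ⟨w, hw, hwy⟩ := hS.2 y hyc
    refine ⟨w, ?_, ?_, ?_⟩
    · rw [hT, mem_filter]
      exact ⟨hw, below_trans hwy hyx⟩
    · rcases hwy i with h | h
      · simp [hy] at h
      · rw [h]; simp [hy]
    · rcases hwy j with h | h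
      · simp [hy, Ne.symm hij] at h
      · rw [h]; simp [hy, Ne.symm hij]
  have h2 := sum_ge_of_sum_two_pow_le (stars x) (fun i => (T.filter (fun w => w i ≠ none)).card)
    (by rw [hx]; omega) (sum_two_pow_le T (stars x) h1)
  have h3 : (∑ i ∈ stars x, (T.filter (fun w => w i ≠ none)).card) = T.card * (d + 2 - l) := by
    have h4 := sum_card_bipartiteAbove_eq_sum_card_bipartiteBelow (s := stars x) (t := T)
      (fun (i : Fin n) (w : W n) => w i ≠ none)
    have h5 : (∑ i ∈ stars x, (T.filter (fun w => w i ≠ none)).card)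
        = ∑ w ∈ T, ((stars x).filter (fun i => w i ≠ none)).card := h4
    rw [h5, sum_congr rfl (fun w hw => ?_), sum_const, smul_eq_mul]
    rw [hT, mem_filter] at hw
    have h6 : (stars x).filter (fun i => w i ≠ none) = stars x \ stars w := by
      ext i
      rw [mem_filter, mem_sdiff, mem_stars (w := w)]
    rw [h6, card_sdiff_of_subset (stars_subset hw.2), hx, hS.1 w hw.1]
  have h7 : (∑ i ∈ stars x, ((T.filter (fun w => w i ≠ none)).card : ℝ))
      = (T.card : ℝ) * ((d + 2 - l : ℕ) : ℝ) := by exact_mod_cast h3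
  rw [h7, hx] at h2
  push_cast at h2 ⊢
  exact h2

/-- **Trivial lower bound.** -/
theorem card_ge_trivial {n d l : ℕ} (hl : l ≤ d) (hd : d ≤ n) {S : Finset (W n)}
    (hS : WCov d l S) :
    (2 ^ (n - l) * (n.choose l : ℝ)) / (2 ^ (d - l) * (d.choose l : ℝ)) ≤ S.card := by
  have h1 := averaging S hS.1 1 (k := d) (by
    intro x hx
    obtain ⟨w, hw, hwx⟩ := hS.2 x hx
    have : 0 < (S.filter (fun w => Below w x)).card :=
      card_pos.mpr ⟨w, mem_filter.mpr ⟨hw, hwx⟩⟩
    exact_mod_cast this)
  have h2 : n.choose d * d.choose l = n.choose l * (n - l).choose (d - l) :=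
    Nat.choose_mul hl
  have h3 : (n.choose d : ℝ) * d.choose l = n.choose l * (n - l).choose (d - l) := by
    exact_mod_cast h2
  have hp1 : (0 : ℝ) < (n - l).choose (d - l) := by
    exact_mod_cast Nat.choose_pos (by omega)
  have hp2 : (0 : ℝ) < d.choose l := by exact_mod_cast Nat.choose_pos hl
  have h4 : (2 : ℝ) ^ (n - l) = 2 ^ (n - d) * 2 ^ (d - l) := by
    rw [← pow_add]; congr 1; omega
  rw [div_le_iff₀ (by positivity)]
  have h5 : (2 ^ (n - l) * (n.choose l : ℝ)) * (n - l).choose (d - l)
      ≤ (S.card * (2 ^ (d - l) * (d.choose l : ℝ))) * (n - l).choose (d - l) := by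
    calc (2 ^ (n - l) * (n.choose l : ℝ)) * (n - l).choose (d - l)
        = 2 ^ (n - d) * 2 ^ (d - l) * (n.choose l * (n - l).choose (d - l)) := by
          rw [h4]; ring
      _ = 2 ^ (d - l) * (d.choose l : ℝ) * (1 * (2 ^ (n - d) * n.choose d)) := by
          rw [← h3]; ring
      _ ≤ 2 ^ (d - l) * (d.choose l : ℝ) * (S.card * ((n - l).choose (d - l) : ℝ)) := by
          gcongr
      _ = _ := by ring
  exact le_of_mul_le_mul_right h5 hp1

/-- **Lower bound with the logarithm.** -/
theorem card_ge_log {n d l : ℕ} (hl : l < d) (hd : d + 2 ≤ n) {S : Finset (W n)}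
    (hS : WCov d l S) :
    Real.logb 2 (d + 2) / (2 ^ (d + 2 - l) * ((d + 1).choose l : ℝ)) *
      (2 ^ (n - l) * (n.choose l : ℝ)) ≤ S.card := by
  have hm : (0 : ℝ) < ((d + 2 - l : ℕ) : ℝ) := by
    have : 0 < d + 2 - l := by omega
    exact_mod_cast this
  have h1 := averaging S hS.1 (((d : ℝ) + 2) * Real.logb 2 (d + 2) / ((d + 2 - l : ℕ) : ℝ))
    (k := d + 2) (by
      intro x hx
      rw [div_le_iff₀ hm]
      exact card_filter_ge hS x hx)
  have h2 : n.choose (d + 2) * (d + 2).choose l = n.choose l * (n - l).choose (d + 2 - l) :=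
    Nat.choose_mul (by omega)
  have h3 : (n.choose (d + 2) : ℝ) * (d + 2).choose l = n.choose l * (n - l).choose (d + 2 - l) := by
    exact_mod_cast h2
  have h6 : (d + 2) * (d + 1).choose l = (d + 2).choose l * (d + 2 - l) := by
    have := Nat.add_one_mul_choose_eq (d + 1) l
    have h7 := Nat.choose_mul_succ_eq (d + 1) l
    rw [show d + 1 + 1 = d + 2 from rfl, show d + 1 + 1 - l = d + 2 - l from rfl] at h7
    rw [mul_comm, h7]
  have h6' : ((d : ℝ) + 2) * (d + 1).choose l = (d + 2).choose l * ((d + 2 - l : ℕ) : ℝ) := by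
    exact_mod_cast h6
  have hp1 : (0 : ℝ) < (n - l).choose (d + 2 - l) := by
    exact_mod_cast Nat.choose_pos (by omega)
  have hp2 : (0 : ℝ) < (d + 1).choose l := by exact_mod_cast Nat.choose_pos (by omega)
  have hp3 : (0 : ℝ) < (d + 2).choose l := by exact_mod_cast Nat.choose_pos (by omega)
  have h4 : (2 : ℝ) ^ (n - l) = 2 ^ (n - (d + 2)) * 2 ^ (d + 2 - l) := by
    rw [← pow_add]; congr 1; omega
  have h5 : (Real.logb 2 (d + 2) / (2 ^ (d + 2 - l) * ((d + 1).choose l : ℝ)) *
      (2 ^ (n - l) * (n.choose l : ℝ))) * (n - l).choose (d + 2 - l)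
      ≤ S.card * (n - l).choose (d + 2 - l) := by
    refine le_trans (le_of_eq ?_) h1
    rw [h4]
    have hA : (Real.logb 2 (d + 2) / (2 ^ (d + 2 - l) * ((d + 1).choose l : ℝ)) *
      (2 ^ (n - (d + 2)) * 2 ^ (d + 2 - l) * (n.choose l : ℝ))) * (n - l).choose (d + 2 - l)
      = Real.logb 2 (d + 2) * 2 ^ (n - (d + 2)) / (d + 1).choose l *
        (n.choose l * (n - l).choose (d + 2 - l)) := by
      field_simp
    rw [hA, ← h3]
    have hB : (d + 2 : ℝ) / ((d + 2 - l : ℕ) : ℝ) = (d + 2).choose l / (d + 1).choose l := by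
      rw [div_eq_div_iff hm.ne' hp2.ne', h6']
    calc Real.logb 2 (d + 2) * 2 ^ (n - (d + 2)) / (d + 1).choose l *
        ((n.choose (d + 2) : ℝ) * (d + 2).choose l)
        = Real.logb 2 (d + 2) * 2 ^ (n - (d + 2)) * (n.choose (d + 2) : ℝ) *
          ((d + 2).choose l / (d + 1).choose l) := by ring
      _ = Real.logb 2 (d + 2) * 2 ^ (n - (d + 2)) * (n.choose (d + 2) : ℝ) *
          ((d + 2 : ℝ) / ((d + 2 - l : ℕ) : ℝ)) := by rw [hB]
      _ = _ := by ring
  exact le_of_mul_le_mul_right h5 hp1

end Pool.Agent.Lib.MP_7c0edd_co.H21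
end

section
/-!
# Words as lists, splitting at a star
-/
namespace Pool.Agent.Lib.MP_7c0edd_co.H21

open Finset

/-- Words as lists. -/
abbrev L := List (Option Bool)

/-- `w` is obtained from `x` by filling some stars. -/
def LB (w x : L) : Prop := List.Forall₂ (fun a b => b = none ∨ a = b) w x

lemma LB.refl (x : L) : LB x x := by
  induction x with
  | nil => exact List.Forall₂.nil
  | cons a x ih => exact List.Forall₂.cons (Or.inr rfl) ih

lemma LB.append {a b a' b' : L} (h : LB a b) (h' : LB a' b') : LB (a ++ a') (b ++ b') :=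
  List.rel_append h h'

lemma LB.join {a b a' b' : L} (h : LB a b) (h' : LB a' b') : LB (a ++ none :: a') (b ++ none :: b') :=
  List.rel_append h (List.Forall₂.cons (Or.inl rfl) h')

/-- Lists of length `n` with `k` stars. -/
def WL (n k : ℕ) : Finset L := (words n k).image (fun w => List.ofFn w)

lemma count_ofFn {n : ℕ} (w : W n) : (List.ofFn w).count none = (stars w).card := by
  induction n with
  | zero => simp [stars]
  | succ n ih =>
    rw [List.ofFn_succ, List.count_cons, ih]
    have h : stars w = (if w 0 = none then {0} else ∅) ∪ (stars (fun i => w (Fin.succ i))).map (Fin.succEmb n) := by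
      ext i
      rw [mem_stars, mem_union, mem_map]
      refine Fin.cases ?_ ?_ i
      · by_cases h0 : w 0 = none
        · simp [h0]
        · simp [h0, Fin.succ_ne_zero]
      · intro j
        by_cases h0 : w 0 = none
        · simp [h0, Fin.succ_ne_zero, mem_stars]
        · simp [h0, mem_stars]
    rw [h, card_union_of_disjoint, card_map, add_comm]
    · congr 1
      by_cases h0 : w 0 = none <;> simp [h0]
    · rw [disjoint_left]
      intro i hi hi'
      rw [mem_map] at hi'
      obtain ⟨j, _, rfl⟩ := hi'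
      by_cases h0 : w 0 = none
      · simp [h0] at hi
      · simp [h0] at hi

lemma mem_WL {n k : ℕ} {x : L} : x ∈ WL n k ↔ x.length = n ∧ x.count none = k := by
  constructor
  · intro h
    obtain ⟨w, hw, rfl⟩ := mem_image.mp h
    rw [mem_words] at hw
    exact ⟨List.length_ofFn, by rw [count_ofFn, hw]⟩
  · rintro ⟨rfl, h⟩
    refine mem_image.mpr ⟨x.get, ?_, List.ofFn_get x⟩
    rw [mem_words, ← count_ofFn, List.ofFn_get, h]

lemma card_WL (n k : ℕ) : (WL n k).card = 2 ^ (n - k) * n.choose k := by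
  unfold WL
  rw [card_image_of_injective _ List.ofFn_injective, card_words]

lemma LB_ofFn {n : ℕ} {w x : W n} : LB (List.ofFn w) (List.ofFn x) ↔ Below w x := by
  unfold LB Below
  rw [List.forall₂_iff_get]
  constructor
  · rintro ⟨_, h⟩ i
    have := h i (by simp) (by simp)
    simpa using this
  · intro h
    refine ⟨by simp, fun i h1 h2 => ?_⟩
    have := h ⟨i, by simpa using h1⟩
    simpa using this

lemma LB.length_eq {w x : L} (h : LB w x) : w.length = x.length := List.Forall₂.length_eq h

/-- `Good l d c`: in every hypercube there is a `(d, l)`-covering set of density at most `c`. -/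
def Good (l d : ℕ) (c : ℝ) : Prop :=
  ∀ n, ∃ S : Finset L, S ⊆ WL n l ∧ (∀ x ∈ WL n d, ∃ w ∈ S, LB w x) ∧
    (S.card : ℝ) ≤ c * ((WL n l).card : ℝ)

lemma Good.f_le {l d : ℕ} {c : ℝ} (h : Good l d c) (n : ℕ) :
    (f n d l : ℝ) ≤ c * (2 ^ (n - l) * (n.choose l : ℝ)) := by
  classical
  obtain ⟨S, hS, hcov, hc⟩ := h n
  have h1 : WCov d l (univ.filter (fun w : W n => List.ofFn w ∈ S)) := by
    constructor
    · intro w hw
      have := hS (mem_filter.mp hw).2
      rw [mem_WL, count_ofFn] at this
      exact this.2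
    · intro x hx
      obtain ⟨w, hw, hwx⟩ := hcov (List.ofFn x) (by
        rw [mem_WL, count_ofFn]; exact ⟨List.length_ofFn, hx⟩)
      have hlen : w.length = n := (mem_WL.mp (hS hw)).1
      subst hlen
      refine ⟨w.get, ?_, ?_⟩
      · rw [mem_filter, List.ofFn_get]
        exact ⟨mem_univ _, hw⟩
      · rw [← LB_ofFn, List.ofFn_get]
        exact hwx
  have h2 := f_le_card h1
  have h3 : (univ.filter (fun w : W n => List.ofFn w ∈ S)).card ≤ S.card :=
    card_le_card_of_injOn (fun w => List.ofFn w) (fun w hw => (mem_filter.mp hw).2)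
      (List.ofFn_injective.injOn)
  have h4 : (f n d l : ℝ) ≤ S.card := by exact_mod_cast h2.trans h3
  refine h4.trans (hc.trans (le_of_eq ?_))
  rw [card_WL]
  push_cast
  ring

lemma good_mono {l d : ℕ} {c c' : ℝ} (h : Good l d c) (hcc : c ≤ c') : Good l d c' := by
  intro n
  obtain ⟨S, hS, hcov, hc⟩ := h n
  exact ⟨S, hS, hcov, hc.trans (by gcongr)⟩

lemma good_one {l d : ℕ} (h : l ≤ d) : Good l d 1 := by
  intro n
  refine ⟨WL n l, subset_rfl, ?_, by rw [one_mul]⟩
  intro x hx
  rw [mem_WL] at hx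
  obtain ⟨hlen, hcnt⟩ := hx
  subst hlen
  obtain ⟨w, hw, hwx⟩ := (wcov_words (n := x.length) h).2 x.get (by
    rw [← count_ofFn, List.ofFn_get, hcnt])
  refine ⟨List.ofFn w, mem_image_of_mem _ hw, ?_⟩
  have := LB_ofFn.mpr hwx
  rwa [List.ofFn_get x] at this

lemma exists_split : ∀ (x : L) (k : ℕ), k < x.count none →
    ∃ y z : L, x = y ++ none :: z ∧ y.count none = k := by
  intro x
  induction x with
  | nil => intro k hk; simp at hk
  | cons a x ih =>
    intro k hk
    rw [List.count_cons] at hk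
    rcases a with _ | b
    · rcases k with _ | k
      · exact ⟨[], x, rfl, by simp⟩
      · obtain ⟨y, z, hx, hy⟩ := ih k (by simpa using hk)
        exact ⟨none :: y, z, by rw [hx]; rfl, by rw [List.count_cons, hy]; simp⟩
    · obtain ⟨y, z, hx, hy⟩ := ih k (by simpa using hk)
      exact ⟨some b :: y, z, by rw [hx]; rfl, by rw [List.count_cons, hy]; simp⟩

lemma split_unique : ∀ (y y' z z' : L), y ++ none :: z = y' ++ none :: z' →
    y.count none = y'.count none → y = y' ∧ z = z' := by
  intro y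
  induction y with
  | nil =>
    intro y' z z' h hc
    rcases y' with _ | ⟨a, y'⟩
    · simp at h
      exact ⟨rfl, h⟩
    · simp only [List.nil_append, List.cons_append, List.cons.injEq] at h
      rw [List.count_nil, List.count_cons, ← h.1] at hc
      simp at hc
  | cons a y ih =>
    intro y' z z' h hc
    rcases y' with _ | ⟨a', y'⟩
    · simp only [List.nil_append, List.cons_append, List.cons.injEq] at h
      rw [List.count_nil, List.count_cons, h.1] at hc
      simp at hc
    · simp only [List.cons_append, List.cons.injEq] at h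
      rw [List.count_cons, List.count_cons, h.1] at hc
      obtain ⟨h1, h2⟩ := ih y' z z' h.2 (by omega)
      exact ⟨by rw [h.1, h1], h2⟩

/-- the words `y * z` -/
def J (A B : Finset L) : Finset L := (A ×ˢ B).image (fun q => q.1 ++ none :: q.2)

lemma card_J_le (A B : Finset L) : (J A B).card ≤ A.card * B.card := by
  unfold J
  exact card_image_le.trans (by rw [card_product])

lemma mem_J {A B : Finset L} {x : L} : x ∈ J A B ↔ ∃ y ∈ A, ∃ z ∈ B, x = y ++ none :: z := by
  unfold J
  rw [mem_image]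
  constructor
  · rintro ⟨⟨y, z⟩, h, rfl⟩
    rw [mem_product] at h
    exact ⟨y, h.1, z, h.2, rfl⟩
  · rintro ⟨y, hy, z, hz, rfl⟩
    exact ⟨⟨y, z⟩, mem_product.mpr ⟨hy, hz⟩, rfl⟩

lemma join_mem_WL {y z : L} {p q a b : ℕ} (hy : y ∈ WL p a) (hz : z ∈ WL q b) {n : ℕ}
    (hn : n = p + 1 + q) : y ++ none :: z ∈ WL n (a + b + 1) := by
  rw [mem_WL] at hy hz ⊢
  rw [List.length_append, List.length_cons, List.count_append, List.count_cons, hy.1, hy.2, hz.1,
    hz.2]
  refine ⟨by omega, ?_⟩
  simp; omega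

lemma sum_card_mul (n a b : ℕ) :
    ∑ p ∈ range n, (WL p a).card * (WL (n - 1 - p) b).card ≤ (WL n (a + b + 1)).card := by
  have h : ∑ p ∈ range n, (WL p a).card * (WL (n - 1 - p) b).card
      = ((range n).sigma (fun p => WL p a ×ˢ WL (n - 1 - p) b)).card := by
    rw [card_sigma]
    exact sum_congr rfl (fun p _ => by rw [card_product])
  rw [h]
  refine card_le_card_of_injOn (fun q => q.2.1 ++ none :: q.2.2) ?_ ?_
  · rintro ⟨p, y, z⟩ hq
    rw [mem_coe, mem_sigma, mem_product, mem_range] at hq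
    simp only at hq
    exact join_mem_WL hq.2.1 hq.2.2 (by omega)
  · rintro ⟨p, y, z⟩ hq ⟨p', y', z'⟩ hq' h
    rw [mem_coe, mem_sigma, mem_product, mem_range] at hq hq'
    simp only at hq hq' h
    have h1 := mem_WL.mp hq.2.1
    have h2 := mem_WL.mp hq'.2.1
    obtain ⟨h3, h4⟩ := split_unique y y' z z' h (by rw [h1.2, h2.2])
    have h5 : p = p' := by rw [← h1.1, ← h2.1, h3]
    subst h5
    rw [h3, h4]

/-- Product inequality. -/
theorem Good.mul {l₁ d₁ l₂ d₂ : ℕ} {c₁ c₂ : ℝ} (h₁ : Good l₁ d₁ c₁) (h₂ : Good l₂ d₂ c₂)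
    (hc₁ : 0 ≤ c₁) (hc₂ : 0 ≤ c₂) : Good (l₁ + l₂ + 1) (d₁ + d₂ + 1) (c₁ * c₂) := by
  classical
  intro n
  choose S₁ hS₁ hcov₁ hcard₁ using h₁
  choose S₂ hS₂ hcov₂ hcard₂ using h₂
  refine ⟨(range n).biUnion (fun p => J (S₁ p) (S₂ (n - 1 - p))), ?_, ?_, ?_⟩
  · intro w hw
    rw [mem_biUnion] at hw
    obtain ⟨p, hp, hw⟩ := hw
    rw [mem_range] at hp
    obtain ⟨y, hy, z, hz, rfl⟩ := mem_J.mp hw
    exact join_mem_WL (hS₁ _ hy) (hS₂ _ hz) (by omega)
  · intro x hx
    rw [mem_WL] at hx
    obtain ⟨y, z, rfl, hy⟩ := exists_split x d₁ (by rw [hx.2]; omega)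
    rw [List.length_append, List.length_cons, List.count_append, List.count_cons, hy] at hx
    have hz : z.count none = d₂ := by
      have := hx.2
      simp at this
      omega
    obtain ⟨y', hy', hyy⟩ := hcov₁ y.length y (mem_WL.mpr ⟨rfl, hy⟩)
    obtain ⟨z', hz', hzz⟩ := hcov₂ (n - 1 - y.length) z (mem_WL.mpr ⟨by omega, hz⟩)
    refine ⟨y' ++ none :: z', ?_, LB.join hyy hzz⟩
    rw [mem_biUnion]
    exact ⟨y.length, mem_range.mpr (by omega), mem_J.mpr ⟨y', hy', z', hz', rfl⟩⟩
  · calc (((range n).biUnion (fun p => J (S₁ p) (S₂ (n - 1 - p)))).card : ℝ)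
        ≤ ∑ p ∈ range n, ((J (S₁ p) (S₂ (n - 1 - p))).card : ℝ) := by
          exact_mod_cast card_biUnion_le
      _ ≤ ∑ p ∈ range n, (c₁ * (WL p l₁).card) * (c₂ * (WL (n - 1 - p) l₂).card) := by
          refine sum_le_sum (fun p _ => ?_)
          calc ((J (S₁ p) (S₂ (n - 1 - p))).card : ℝ)
              ≤ (S₁ p).card * (S₂ (n - 1 - p)).card := by exact_mod_cast card_J_le _ _
            _ ≤ _ := mul_le_mul (hcard₁ p) (hcard₂ _) (by positivity) (by positivity)
      _ = c₁ * c₂ * ((∑ p ∈ range n, (WL p l₁).card * (WL (n - 1 - p) l₂).card : ℕ) : ℝ) := by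
          push_cast
          rw [mul_sum]
          exact sum_congr rfl (fun p _ => by ring)
      _ ≤ c₁ * c₂ * ((WL n (l₁ + l₂ + 1)).card : ℝ) := by
          gcongr
          exact_mod_cast sum_card_mul n l₁ l₂

/-- A gadget on prefixes with `k` stars: either such a word is in the small set `B`, or filling
`t` of its stars leads to the small set `A`. -/
def Gadget (k t : ℕ) (M P : ℝ) : Prop :=
  ∀ p : ℕ, ∀ α β : ℝ, 0 ≤ α → 0 ≤ β → ∃ A B : Finset L, A ⊆ WL p (k - t) ∧ B ⊆ WL p k ∧
    (∀ y ∈ WL p k, y ∈ B ∨ ∃ y' ∈ A, LB y' y) ∧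
    α * A.card + β * B.card ≤ α * ((WL p (k - t)).card / M) + β * (P * (WL p k).card)

/-- The recursion. -/
theorem Good.step {k t l : ℕ} {M P c : ℝ} (hG : Gadget k t M P) (htk : t ≤ k)
    (h : Good l (l + t) c) (hc : 0 ≤ c) (hM : 0 < M) (hP : 0 ≤ P) :
    Good (k + 1 + l) (k + 1 + l + t) (1 / M + P * c) := by
  classical
  intro n
  choose S hS hcov hcard using h
  have hG' : ∀ p : ℕ, ∃ A B : Finset L, A ⊆ WL p (k - t) ∧ B ⊆ WL p k ∧
    (∀ y ∈ WL p k, y ∈ B ∨ ∃ y' ∈ A, LB y' y) ∧
    ((WL (n - 1 - p) (l + t)).card : ℝ) * A.card + (S (n - 1 - p)).card * B.card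
      ≤ (WL (n - 1 - p) (l + t)).card * ((WL p (k - t)).card / M)
        + (S (n - 1 - p)).card * (P * (WL p k).card) :=
    fun p => hG p _ _ (by positivity) (by positivity)
  choose A B hA hB hAB hcAB using hG'
  refine ⟨(range n).biUnion (fun p => J (A p) (WL (n - 1 - p) (l + t)) ∪ J (B p) (S (n - 1 - p))),
    ?_, ?_, ?_⟩
  · intro w hw
    rw [mem_biUnion] at hw
    obtain ⟨p, hp, hw⟩ := hw
    rw [mem_range] at hp
    rcases mem_union.mp hw with hw | hw
    · obtain ⟨y, hy, z, hz, rfl⟩ := mem_J.mp hw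
      have := join_mem_WL (n := n) (hA _ hy) hz (by omega)
      rwa [show k - t + (l + t) + 1 = k + 1 + l by omega] at this
    · obtain ⟨y, hy, z, hz, rfl⟩ := mem_J.mp hw
      have := join_mem_WL (n := n) (hB _ hy) (hS _ hz) (by omega)
      rwa [show k + l + 1 = k + 1 + l by omega] at this
  · intro x hx
    rw [mem_WL] at hx
    obtain ⟨y, z, rfl, hy⟩ := exists_split x k (by rw [hx.2]; omega)
    rw [List.length_append, List.length_cons, List.count_append, List.count_cons, hy] at hx
    have hz : z.count none = l + t := by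
      have := hx.2
      simp at this
      omega
    have hzW : z ∈ WL (n - 1 - y.length) (l + t) := mem_WL.mpr ⟨by omega, hz⟩
    rcases hAB y.length y (mem_WL.mpr ⟨rfl, hy⟩) with hyB | ⟨y', hy', hyy⟩
    · obtain ⟨z', hz', hzz⟩ := hcov (n - 1 - y.length) z hzW
      refine ⟨y ++ none :: z', ?_, LB.join (LB.refl y) hzz⟩
      rw [mem_biUnion]
      exact ⟨y.length, mem_range.mpr (by omega),
        mem_union_right _ (mem_J.mpr ⟨y, hyB, z', hz', rfl⟩)⟩
    · refine ⟨y' ++ none :: z, ?_, LB.join hyy (LB.refl z)⟩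
      rw [mem_biUnion]
      exact ⟨y.length, mem_range.mpr (by omega),
        mem_union_left _ (mem_J.mpr ⟨y', hy', z, hzW, rfl⟩)⟩
  · have hs1 : (∑ p ∈ range n, ((WL p (k - t)).card : ℝ) * (WL (n - 1 - p) (l + t)).card)
        ≤ (WL n (k + 1 + l)).card := by
      have := sum_card_mul n (k - t) (l + t)
      rw [show k - t + (l + t) + 1 = k + 1 + l by omega] at this
      exact_mod_cast this
    have hs2 : (∑ p ∈ range n, ((WL p k).card : ℝ) * (WL (n - 1 - p) l).card)
        ≤ (WL n (k + 1 + l)).card := by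
      have := sum_card_mul n k l
      rw [show k + l + 1 = k + 1 + l by omega] at this
      exact_mod_cast this
    calc (((range n).biUnion (fun p => J (A p) (WL (n - 1 - p) (l + t))
            ∪ J (B p) (S (n - 1 - p)))).card : ℝ)
        ≤ ∑ p ∈ range n, ((J (A p) (WL (n - 1 - p) (l + t)) ∪ J (B p) (S (n - 1 - p))).card : ℝ) := by
          exact_mod_cast card_biUnion_le
      _ ≤ ∑ p ∈ range n, (((WL p (k - t)).card : ℝ) * (WL (n - 1 - p) (l + t)).card / M
            + P * c * ((WL p k).card * (WL (n - 1 - p) l).card)) := by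
          refine sum_le_sum (fun p _ => ?_)
          calc ((J (A p) (WL (n - 1 - p) (l + t)) ∪ J (B p) (S (n - 1 - p))).card : ℝ)
              ≤ (A p).card * (WL (n - 1 - p) (l + t)).card + (B p).card * (S (n - 1 - p)).card := by
                exact_mod_cast (card_union_le _ _).trans
                  (Nat.add_le_add (card_J_le _ _) (card_J_le _ _))
            _ = ((WL (n - 1 - p) (l + t)).card : ℝ) * (A p).card
                + (S (n - 1 - p)).card * (B p).card := by ring
            _ ≤ _ := hcAB p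
            _ ≤ (WL (n - 1 - p) (l + t)).card * ((WL p (k - t)).card / M)
                + (c * (WL (n - 1 - p) l).card) * (P * (WL p k).card) := by
                gcongr
                exact hcard _
            _ = _ := by ring
      _ = (∑ p ∈ range n, ((WL p (k - t)).card : ℝ) * (WL (n - 1 - p) (l + t)).card) / M
            + P * c * ∑ p ∈ range n, ((WL p k).card : ℝ) * (WL (n - 1 - p) l).card := by
          rw [sum_add_distrib, mul_sum, sum_div]
      _ ≤ (WL n (k + 1 + l)).card / M + P * c * (WL n (k + 1 + l)).card := by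
          gcongr
      _ = (1 / M + P * c) * (WL n (k + 1 + l)).card := by ring

end Pool.Agent.Lib.MP_7c0edd_co.H21
end
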